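import Pool.Agent.Lib.MP_f7be6d_mp.Unit.Coulomb

/-! Boxes, cubes and lattice cells in R^3. -/

open MeasureTheory Metric Set

namespace Pool.Agent.Lib.MP_f7be6d_mp.Unit

/-- half-open box -/
def bx (α β : Fin 3 → ℝ) : Set E3 := {x | ∀ i, α i ≤ x i ∧ x i < β i}

/-- open box -/
def bxo (α β : Fin 3 → ℝ) : Set E3 := {x | ∀ i, α i < x i ∧ x i < β i}

/-- half-open cube -/
def cube (α β : ℝ) : Set E3 := bx (fun _ => α) (fun _ => β)

lemma bx_eq (α β : Fin 3 → ℝ) :
    bx α β = (WithLp.ofLp : E3 → (Fin 3 → ℝ)) ⁻¹' (Set.pi univ fun i => Ico (α i) (β i)) := by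
  ext x; simp [bx]

lemma bxo_eq (α β : Fin 3 → ℝ) :
    bxo α β = (WithLp.ofLp : E3 → (Fin 3 → ℝ)) ⁻¹' (Set.pi univ fun i => Ioo (α i) (β i)) := by
  ext x; simp [bxo]

lemma measurableSet_bx (α β : Fin 3 → ℝ) : MeasurableSet (bx α β) := by
  rw [bx_eq]
  exact (PiLp.volume_preserving_ofLp (Fin 3)).measurable
    (MeasurableSet.univ_pi fun i => measurableSet_Ico)

lemma measurableSet_bxo (α β : Fin 3 → ℝ) : MeasurableSet (bxo α β) := by
  rw [bxo_eq]
  exact (PiLp.volume_preserving_ofLp (Fin 3)).measurable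
    (MeasurableSet.univ_pi fun i => measurableSet_Ioo)

lemma volume_bx (α β : Fin 3 → ℝ) : volume (bx α β) = ∏ i, ENNReal.ofReal (β i - α i) := by
  rw [bx_eq, (PiLp.volume_preserving_ofLp (Fin 3)).measure_preimage
    (MeasurableSet.univ_pi fun i => measurableSet_Ico).nullMeasurableSet, Real.volume_pi_Ico]

lemma volume_bxo (α β : Fin 3 → ℝ) : volume (bxo α β) = ∏ i, ENNReal.ofReal (β i - α i) := by
  rw [bxo_eq, (PiLp.volume_preserving_ofLp (Fin 3)).measure_preimage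
    (MeasurableSet.univ_pi fun i => measurableSet_Ioo).nullMeasurableSet, Real.volume_pi_Ioo]

lemma volume_bx_ne_top (α β : Fin 3 → ℝ) : volume (bx α β) ≠ ⊤ := by
  rw [volume_bx]
  exact ENNReal.prod_ne_top fun i _ => ENNReal.ofReal_ne_top

lemma bxo_ae_eq (α β : Fin 3 → ℝ) : bxo α β =ᵐ[volume] bx α β :=
  ae_eq_of_subset_of_measure_ge (fun _ hx i => ⟨(hx i).1.le, (hx i).2⟩)
    (by rw [volume_bx, volume_bxo]) (measurableSet_bxo α β).nullMeasurableSet
    (volume_bx_ne_top α β)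

lemma measurableSet_cube (α β : ℝ) : MeasurableSet (cube α β) := measurableSet_bx _ _

lemma volume_cube_ne_top (α β : ℝ) : volume (cube α β) ≠ ⊤ := volume_bx_ne_top _ _

lemma volume_real_bx {α β : Fin 3 → ℝ} {c : ℝ} (hc : 0 ≤ c) (h : ∀ i, β i - α i = c) :
    volume.real (bx α β) = c ^ 3 := by
  rw [Measure.real, volume_bx]
  simp only [h, Finset.prod_const, Finset.card_univ, Fintype.card_fin, ENNReal.toReal_pow,
    ENNReal.toReal_ofReal hc]

lemma volume_real_cube {α β : ℝ} (h : α ≤ β) : volume.real (cube α β) = (β - α) ^ 3 :=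
  volume_real_bx (sub_nonneg.2 h) fun _ => rfl

lemma mem_cube {α β : ℝ} {x : E3} : x ∈ cube α β ↔ ∀ i, α ≤ x i ∧ x i < β := Iff.rfl

lemma cube_mono {α β α' β' : ℝ} (h1 : α' ≤ α) (h2 : β ≤ β') : cube α β ⊆ cube α' β' :=
  fun _ hx i => ⟨h1.trans (hx i).1, (hx i).2.trans_le h2⟩

/-- indicator function of a cube -/
noncomputable def ind (α β : ℝ) (x : E3) : ℝ := (cube α β).indicator (fun _ => (1 : ℝ)) x

lemma ind_of_mem {α β : ℝ} {x : E3} (h : x ∈ cube α β) : ind α β x = 1 := indicator_of_mem h _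

lemma ind_of_notMem {α β : ℝ} {x : E3} (h : x ∉ cube α β) : ind α β x = 0 :=
  indicator_of_notMem h _

lemma ind_nonneg (α β : ℝ) (x : E3) : 0 ≤ ind α β x :=
  indicator_nonneg (fun _ _ => zero_le_one) _

lemma ind_le_one (α β : ℝ) (x : E3) : ind α β x ≤ 1 := by
  by_cases h : x ∈ cube α β
  · rw [ind_of_mem h]
  · rw [ind_of_notMem h]; exact zero_le_one

lemma integrable_ind (α β : ℝ) : Integrable (ind α β) :=
  (integrable_indicator_iff (measurableSet_cube α β)).2
    (integrableOn_const (volume_cube_ne_top α β))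

lemma integral_ind {α β : ℝ} (h : α ≤ β) : ∫ x, ind α β x = (β - α) ^ 3 := by
  unfold ind
  rw [integral_indicator (measurableSet_cube α β), setIntegral_const, volume_real_cube h]
  simp

lemma abs_apply_le (v : E3) (i : Fin 3) : |v i| ≤ ‖v‖ := PiLp.norm_apply_le v i

lemma norm_le_of_apply {v : E3} {c : ℝ} (h : ∀ i, |v i| ≤ c) : ‖v‖ ≤ 2 * c := by
  have hc : 0 ≤ c := (abs_nonneg _).trans (h 0)
  have h2 : ‖v‖ ^ 2 ≤ (2 * c) ^ 2 := by
    rw [EuclideanSpace.real_norm_sq_eq, Fin.sum_univ_three]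
    have a0 := sq_le_sq' (abs_le.1 (h 0)).1 (abs_le.1 (h 0)).2
    have a1 := sq_le_sq' (abs_le.1 (h 1)).1 (abs_le.1 (h 1)).2
    have a2 := sq_le_sq' (abs_le.1 (h 2)).1 (abs_le.1 (h 2)).2
    nlinarith [sq_nonneg c]
  exact le_of_sq_le_sq h2 (by positivity) |>.trans le_rfl

lemma ball_subset_cube {α β t : ℝ} {x : E3} (hx : x ∈ cube (α + t) (β - t)) :
    ball x t ⊆ cube α β := by
  intro y hy i
  have h1 := abs_apply_le (y - x) i
  rw [mem_ball, dist_eq_norm] at hy
  have h2 := abs_lt.1 (h1.trans_lt hy)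
  have h3 := hx i
  simp only [PiLp.sub_apply] at h2
  constructor <;> linarith [h2.1, h2.2, h3.1, h3.2]

lemma disjoint_ball_cube {α β t : ℝ} {x : E3} (hx : x ∉ cube (α - t) (β + t)) :
    Disjoint (ball x t) (cube α β) := by
  rw [Set.disjoint_left]
  intro y hy hy2
  apply hx
  intro i
  have h1 := abs_apply_le (y - x) i
  rw [mem_ball, dist_eq_norm] at hy
  have h2 := abs_lt.1 (h1.trans_lt hy)
  have h3 := hy2 i
  simp only [PiLp.sub_apply] at h2
  constructor <;> linarith [h2.1, h2.2, h3.1, h3.2]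

/-- lattice cell -/
def cell (a : ℝ) (m : Fin 3 → ℤ) : Set E3 := bx (fun i => a * m i) (fun i => a * (m i + 1))

/-- open lattice cell -/
def cello (a : ℝ) (m : Fin 3 → ℤ) : Set E3 := bxo (fun i => a * m i) (fun i => a * (m i + 1))

/-- centre of a cell -/
noncomputable def ctr (a : ℝ) (m : Fin 3 → ℤ) : E3 := WithLp.toLp 2 fun i => a * (m i + 1 / 2)

lemma ctr_apply (a : ℝ) (m : Fin 3 → ℤ) (i : Fin 3) : ctr a m i = a * (m i + 1 / 2) := rfl

lemma measurableSet_cell (a : ℝ) (m : Fin 3 → ℤ) : MeasurableSet (cell a m) :=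
  measurableSet_bx _ _

lemma volume_real_cell {a : ℝ} (ha : 0 ≤ a) (m : Fin 3 → ℤ) : volume.real (cell a m) = a ^ 3 :=
  volume_real_bx ha fun i => by ring

lemma disjoint_cell {a : ℝ} (ha : 0 < a) {m m' : Fin 3 → ℤ} (h : m ≠ m') :
    Disjoint (cell a m) (cell a m') := by
  rw [Set.disjoint_left]
  intro x hx hx'
  apply h
  funext i
  have h1 := hx i
  have h2 := hx' i
  have h3 : (m i : ℝ) < m' i + 1 := lt_of_mul_lt_mul_left (h1.1.trans_lt h2.2) ha.le
  have h4 : (m' i : ℝ) < m i + 1 := lt_of_mul_lt_mul_left (h2.1.trans_lt h1.2) ha.le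
  have h5 : m i < m' i + 1 := by exact_mod_cast h3
  have h6 : m' i < m i + 1 := by exact_mod_cast h4
  omega

lemma mem_cell_floor {a : ℝ} (ha : 0 < a) (x : E3) : x ∈ cell a (fun i => ⌊x i / a⌋) := by
  intro i
  have h1 := Int.floor_le (x i / a)
  have h2 := Int.lt_floor_add_one (x i / a)
  rw [le_div_iff₀ ha] at h1
  rw [div_lt_iff₀ ha] at h2
  constructor <;> linarith

lemma le_dist_ctr {a : ℝ} (ha : 0 < a) {m m' : Fin 3 → ℤ} (h : m ≠ m') :
    a ≤ ‖ctr a m - ctr a m'‖ := by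
  obtain ⟨i, hi⟩ := Function.ne_iff.1 h
  refine le_trans ?_ (abs_apply_le _ i)
  rw [PiLp.sub_apply, ctr_apply, ctr_apply, ← mul_sub, abs_mul, abs_of_pos ha]
  have h1 : (1 : ℤ) ≤ |m i - m' i| := Int.one_le_abs (sub_ne_zero.2 hi)
  have h2 : (1 : ℝ) ≤ |(m i : ℝ) - m' i| := by exact_mod_cast h1
  have e : (m i : ℝ) + 1 / 2 - (m' i + 1 / 2) = m i - m' i := by ring
  rw [e]
  nlinarith

lemma norm_sub_ctr_le {a : ℝ} {m : Fin 3 → ℤ} {y : E3} (hy : y ∈ cell a m) :
    ‖y - ctr a m‖ ≤ a := by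
  have := norm_le_of_apply (v := y - ctr a m) (c := a / 2) fun i => by
    rw [PiLp.sub_apply, ctr_apply, abs_le]
    have h := hy i
    constructor <;> linarith [h.1, h.2]
  linarith

lemma reflect_mem_cello {a : ℝ} {m : Fin 3 → ℤ} {y : E3} :
    (ctr a m + ctr a m) - y ∈ cello a m ↔ y ∈ cello a m := by
  unfold cello bxo
  simp only [mem_ofPred_eq, PiLp.sub_apply, PiLp.add_apply, ctr_apply]
  refine forall_congr' fun i => ?_
  constructor <;> rintro ⟨h1, h2⟩ <;> constructor <;> linarith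

lemma setIntegral_cell_reflect (a : ℝ) (m : Fin 3 → ℤ) (g : E3 → ℝ) :
    ∫ y in cell a m, g y = ∫ y in cell a m, g ((ctr a m + ctr a m) - y) := by
  have h := bxo_ae_eq (fun i => a * m i) (fun i => a * (m i + 1))
  change cello a m =ᵐ[volume] cell a m at h
  have hm : MeasurableSet (cello a m) := measurableSet_bxo _ _
  rw [← setIntegral_congr_set h, ← setIntegral_congr_set h, ← integral_indicator hm,
    ← integral_indicator hm, ← integral_sub_left_eq_self _ volume (ctr a m + ctr a m)]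
  congr 1; funext y
  by_cases hy : y ∈ cello a m
  · rw [indicator_of_mem hy, indicator_of_mem (reflect_mem_cello.2 hy)]
  · rw [indicator_of_notMem hy, indicator_of_notMem (mt reflect_mem_cello.1 hy)]

/-- integer index of a lattice site -/
def idx {n : ℕ} (j : Fin 3 → Fin n) : Fin 3 → ℤ := fun i => ((j i : ℕ) : ℤ)

lemma idx_injective {n : ℕ} : Function.Injective (idx (n := n)) := by
  intro j j' h
  funext i
  have := congrFun h i
  simp only [idx, Nat.cast_inj] at this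
  exact Fin.ext this

lemma cube_eq_iUnion {a : ℝ} (ha : 0 < a) (n : ℕ) :
    cube 0 (n * a) = ⋃ j : Fin 3 → Fin n, cell a (idx j) := by
  ext x
  rw [mem_iUnion]
  constructor
  · intro hx
    have h0 : ∀ i, 0 ≤ x i / a := fun i => div_nonneg (hx i).1 ha.le
    have h1 : ∀ i, ⌊x i / a⌋₊ < n := fun i => by
      rw [Nat.floor_lt (h0 i), div_lt_iff₀ ha]; exact (hx i).2
    refine ⟨fun i => ⟨⌊x i / a⌋₊, h1 i⟩, ?_⟩
    have e : idx (fun i => (⟨⌊x i / a⌋₊, h1 i⟩ : Fin n)) = fun i => ⌊x i / a⌋ := by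
      funext i; simp only [idx]; exact Int.natCast_floor_eq_floor (h0 i)
    rw [e]; exact mem_cell_floor ha x
  · rintro ⟨j, hj⟩ i
    have h := hj i
    simp only [idx, Int.cast_natCast] at h
    have h1 : ((j i : ℕ) : ℝ) + 1 ≤ n := by exact_mod_cast (j i).2
    have h2 : (0 : ℝ) ≤ (j i : ℕ) := Nat.cast_nonneg _
    constructor
    · exact le_trans (by positivity) h.1
    · refine h.2.trans_le ?_
      rw [mul_comm]; exact mul_le_mul_of_nonneg_right h1 ha.le

lemma setIntegral_cube_eq_sum {a : ℝ} (ha : 0 < a) (n : ℕ) {g : E3 → ℝ}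
    (hg : IntegrableOn g (cube 0 (n * a))) :
    ∫ y in cube 0 (n * a), g y = ∑ j : Fin 3 → Fin n, ∫ y in cell a (idx j), g y := by
  rw [cube_eq_iUnion ha] at hg ⊢
  exact integral_iUnion_fintype (fun j => measurableSet_cell _ _)
    (fun j j' h => disjoint_cell ha (idx_injective.ne h))
    (fun j => hg.mono_set (subset_iUnion (fun j : Fin 3 → Fin n => cell a (idx j)) j))

end Pool.Agent.Lib.MP_f7be6d_mp.Unit
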