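import Pool.Agent.Lib.MP_f7be6d_mp.TFLower

/-! The Coulomb bilinear form on L^1 ∩ L^{5/3}. -/

open MeasureTheory Metric Set

namespace Pool.Agent.Lib.MP_f7be6d_mp.Unit

/-- functions in L^1 and L^{5/3} -/
structure Coul (f : E3 → ℝ) : Prop where
  int : Integrable f
  mem : MemLp f (5 / 3) volume

lemma Coul.of_tf {N : ℕ} {ρ : E3 → ℝ} (h : IsTFDensity N ρ) : Coul ρ := ⟨h.memL1, h.memL53⟩

lemma Coul.sub {f g : E3 → ℝ} (hf : Coul f) (hg : Coul g) : Coul (fun x => f x - g x) :=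
  ⟨hf.int.sub hg.int, hf.mem.sub hg.mem⟩

lemma Coul.abs_tf {g : E3 → ℝ} (hg : Coul g) : IsTFDensity ⌈∫ x, |g x|⌉₊ (fun x => |g x|) where
  nonneg _ := abs_nonneg _
  memL53 := hg.mem.abs
  memL1 := hg.int.abs
  mass := Nat.le_ceil _

lemma Coul.of_bdd {f : E3 → ℝ} (hf : Integrable f) {A : ℝ} (hA : ∀ x, |f x| ≤ A) : Coul f := by
  refine ⟨hf, ?_⟩
  have hA0 : 0 ≤ A := (abs_nonneg _).trans (hA 0)
  have hp0 : (5 / 3 : ENNReal) ≠ 0 := by norm_num
  have hp1 : (5 / 3 : ENNReal) ≠ ⊤ := ENNReal.div_ne_top (by norm_num) (by norm_num)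
  rw [← integrable_norm_rpow_iff hf.1 hp0 hp1]
  have e : (5 / 3 : ENNReal).toReal = 5 / 3 := by
    rw [ENNReal.toReal_div]; norm_num
  rw [e]
  refine (hf.abs.const_mul (A ^ (2 / 3 : ℝ))).mono' ?_ (Filter.Eventually.of_forall fun x => ?_)
  · exact (hf.1.norm.aemeasurable.pow_const _).aestronglyMeasurable
  · rw [Real.norm_of_nonneg (Real.rpow_nonneg (norm_nonneg _) _), Real.norm_eq_abs]
    have e2 : |f x| ^ (5 / 3 : ℝ) = |f x| ^ (2 / 3 : ℝ) * |f x| := by
      rw [show (5 / 3 : ℝ) = 2 / 3 + 1 by norm_num,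
        Real.rpow_add' (abs_nonneg _) (by norm_num), Real.rpow_one]
    rw [e2]
    exact mul_le_mul_of_nonneg_right
      (Real.rpow_le_rpow (abs_nonneg _) (hA x) (by norm_num)) (abs_nonneg _)

lemma Coul.of_cont {f : E3 → ℝ} (hf : Continuous f) (hs : HasCompactSupport f) : Coul f := by
  obtain ⟨A, hA⟩ := hf.bounded_above_of_compact_support hs
  exact Coul.of_bdd (hf.integrable_of_hasCompactSupport hs) hA

/-- Coulomb potential -/
noncomputable def pot (g : E3 → ℝ) (x : E3) : ℝ := ∫ y, g y / ‖x - y‖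

/-- Coulomb bilinear form -/
noncomputable def cI (f g : E3 → ℝ) : ℝ :=
  ∫ p : E3 × E3, f p.1 * g p.2 / ‖p.1 - p.2‖ ∂(volume.prod volume)

lemma Coul.integrable_pot {g : E3 → ℝ} (hg : Coul g) (x : E3) :
    Integrable (fun y => g y / ‖x - y‖) := by
  refine (integrable_coulomb hg.abs_tf x).mono' ?_ (Filter.Eventually.of_forall fun y => ?_)
  · exact (hg.int.aemeasurable.div (by fun_prop)).aestronglyMeasurable
  · rw [Real.norm_eq_abs, abs_div, abs_norm]

lemma Coul.aesm_pot {g : E3 → ℝ} (hg : Coul g) : AEStronglyMeasurable (pot g) volume := by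
  have : AEStronglyMeasurable (fun p : E3 × E3 => g p.2 / ‖p.1 - p.2‖) (volume.prod volume) := by
    refine (AEMeasurable.div ?_ (by fun_prop)).aestronglyMeasurable
    exact hg.int.aemeasurable.comp_snd
  exact this.integral_prod_right'

lemma Coul.pot_bdd {g : E3 → ℝ} (hg : Coul g) : ∃ B, ∀ x, ∫ y, |g y| / ‖x - y‖ ≤ B :=
  ⟨_, fun x => coulomb_potential_le hg.abs_tf x⟩

lemma abs_pot_le (g : E3 → ℝ) (x : E3) : |pot g x| ≤ ∫ y, |g y| / ‖x - y‖ := by
  unfold pot
  refine (abs_integral_le_integral_abs).trans (le_of_eq ?_)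
  congr 1; funext y; rw [abs_div, abs_norm]

lemma integrable_pair {f g : E3 → ℝ} (hf : Integrable f) (hg : Coul g) :
    Integrable (fun p : E3 × E3 => f p.1 * g p.2 / ‖p.1 - p.2‖) (volume.prod volume) := by
  have hm : AEStronglyMeasurable (fun p : E3 × E3 => f p.1 * g p.2 / ‖p.1 - p.2‖)
      (volume.prod volume) := by
    refine (AEMeasurable.div (AEMeasurable.mul ?_ ?_) (by fun_prop)).aestronglyMeasurable
    · exact hf.aemeasurable.comp_fst
    · exact hg.int.aemeasurable.comp_snd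
  rw [integrable_prod_iff hm]
  constructor
  · refine Filter.Eventually.of_forall fun x => ?_
    simp only [mul_div_assoc]
    exact (hg.integrable_pot x).const_mul _
  · obtain ⟨B, hB⟩ := hg.pot_bdd
    refine (hf.abs.mul_const B).mono' hm.norm.integral_prod_right'
      (Filter.Eventually.of_forall fun x => ?_)
    rw [Real.norm_of_nonneg (integral_nonneg fun y => norm_nonneg _)]
    have e : (fun y => ‖f x * g y / ‖x - y‖‖) = fun y => |f x| * (|g y| / ‖x - y‖) := by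
      funext y
      rw [Real.norm_eq_abs, abs_div, abs_mul, abs_norm, mul_div_assoc]
    simp only [e]
    rw [integral_const_mul]
    exact mul_le_mul_of_nonneg_left (hB x) (abs_nonneg _)

lemma cI_eq_iter {f g : E3 → ℝ} (hf : Integrable f) (hg : Coul g) :
    cI f g = ∫ x, ∫ y, f x * g y / ‖x - y‖ := by
  unfold cI
  rw [integral_prod _ (integrable_pair hf hg)]

lemma cI_eq_pot {f g : E3 → ℝ} (hf : Integrable f) (hg : Coul g) :
    cI f g = ∫ x, f x * pot g x := by
  rw [cI_eq_iter hf hg]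
  congr 1; funext x
  unfold pot
  rw [← integral_const_mul]
  congr 1; funext y; ring

lemma cI_comm (f g : E3 → ℝ) : cI f g = cI g f := by
  unfold cI
  rw [← integral_prod_swap]
  congr 1; funext p
  simp only [Prod.fst_swap, Prod.snd_swap]
  rw [norm_sub_rev, mul_comm]

lemma integrable_mul_pot {f g : E3 → ℝ} (hf : Integrable f) (hg : Coul g) :
    Integrable (fun x => f x * pot g x) := by
  obtain ⟨B, hB⟩ := hg.pot_bdd
  exact hf.mul_bdd (c := B) hg.aesm_pot
    (Filter.Eventually.of_forall fun x => (abs_pot_le g x).trans (hB x))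

lemma cI_sub_self {f g : E3 → ℝ} (hf : Coul f) (hg : Coul g) :
    cI (fun x => f x - g x) (fun x => f x - g x) = cI f f - 2 * cI f g + cI g g := by
  have e : (fun p : E3 × E3 => (f p.1 - g p.1) * (f p.2 - g p.2) / ‖p.1 - p.2‖)
      = fun p => ((f p.1 * f p.2 / ‖p.1 - p.2‖ - f p.1 * g p.2 / ‖p.1 - p.2‖)
        - g p.1 * f p.2 / ‖p.1 - p.2‖) + g p.1 * g p.2 / ‖p.1 - p.2‖ := by
    funext p; ring
  have i1 := integrable_pair hf.int hf
  have i2 := integrable_pair hf.int hg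
  have i3 := integrable_pair hg.int hf
  have i4 := integrable_pair hg.int hg
  have h3 : cI g f = cI f g := cI_comm g f
  unfold cI at h3 ⊢
  simp only [e]
  have i12 : Integrable (fun p : E3 × E3 => f p.1 * f p.2 / ‖p.1 - p.2‖
      - f p.1 * g p.2 / ‖p.1 - p.2‖) (volume.prod volume) := i1.sub i2
  have i123 : Integrable (fun p : E3 × E3 => f p.1 * f p.2 / ‖p.1 - p.2‖
      - f p.1 * g p.2 / ‖p.1 - p.2‖ - g p.1 * f p.2 / ‖p.1 - p.2‖) (volume.prod volume) :=
    i12.sub i3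
  rw [integral_add i123 i4, integral_sub i12 i3, integral_sub i1 i2, h3]
  ring

lemma inv_norm_le_hsing {r : ℝ} {y : E3} (hy : ‖y‖ < r) :
    1 / ‖y‖ ≤ r ^ (3 / 2 : ℝ) * hsing r y := by
  unfold hsing
  rw [indicator_of_mem (mem_ball_zero_iff.2 hy)]
  rcases (norm_nonneg y).eq_or_lt with h0 | h0
  · rw [← h0]; simp
  · have e : 1 / ‖y‖ = ‖y‖ ^ (3 / 2 : ℝ) * ‖y‖ ^ (-(5 / 2 : ℝ)) := by
      rw [← Real.rpow_add h0, show (3 / 2 + -(5 / 2) : ℝ) = -1 by norm_num, Real.rpow_neg_one,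
        one_div]
    rw [e]
    exact mul_le_mul_of_nonneg_right (Real.rpow_le_rpow h0.le hy.le (by norm_num))
      (Real.rpow_nonneg h0.le _)

lemma inv_norm_sq_le_hsing {r : ℝ} {y : E3} (hy : ‖y‖ < r) :
    (1 / ‖y‖) ^ 2 ≤ r ^ (1 / 2 : ℝ) * hsing r y := by
  unfold hsing
  rw [indicator_of_mem (mem_ball_zero_iff.2 hy)]
  rcases (norm_nonneg y).eq_or_lt with h0 | h0
  · rw [← h0]; simp
  · have e : (1 / ‖y‖) ^ 2 = ‖y‖ ^ (1 / 2 : ℝ) * ‖y‖ ^ (-(5 / 2 : ℝ)) := by
      rw [← Real.rpow_add h0, show (1 / 2 + -(5 / 2) : ℝ) = -(2 : ℕ) by norm_num,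
        Real.rpow_neg h0.le, Real.rpow_natCast, one_div, inv_pow]
    rw [e]
    exact mul_le_mul_of_nonneg_right (Real.rpow_le_rpow h0.le hy.le (by norm_num))
      (Real.rpow_nonneg h0.le _)

lemma pot_abs_le_of_bdd {f : E3 → ℝ} (hf : Integrable f) {A : ℝ} (hA : ∀ x, |f x| ≤ A) (x : E3) :
    ∫ y, |f y| / ‖x - y‖ ≤ A * Ione + ∫ y, |f y| := by
  have hA0 : 0 ≤ A := (abs_nonneg _).trans (hA 0)
  have hc := Coul.of_bdd hf hA
  have i1 : Integrable (fun y => A * hsing 1 (x - y)) :=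
    ((integrable_hsing 1).comp_sub_left x).const_mul _
  have h := integral_mono (integrable_coulomb hc.abs_tf x) (i1.add hf.abs) (fun y => ?_)
  · simp only [Pi.add_apply] at h
    rw [integral_add i1 hf.abs, integral_const_mul,
      integral_sub_left_eq_self (hsing 1) volume x] at h
    exact h
  · simp only [Pi.add_apply]
    have h1 := hsing_nonneg 1 (x - y)
    by_cases hy : ‖x - y‖ < 1
    · have h2 := inv_norm_le_hsing hy
      rw [Real.one_rpow, one_mul] at h2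
      have h3 : |f y| / ‖x - y‖ = |f y| * (1 / ‖x - y‖) := by ring
      have h4 : |f y| * (1 / ‖x - y‖) ≤ A * hsing 1 (x - y) :=
        mul_le_mul (hA y) h2 (by positivity) hA0
      linarith [abs_nonneg (f y)]
    · have : |f y| / ‖x - y‖ ≤ |f y| := div_le_self (abs_nonneg _) (not_lt.1 hy)
      nlinarith

lemma cI_le_of_bdd {f : E3 → ℝ} (hf : Integrable f) {A : ℝ} (hA : ∀ x, |f x| ≤ A) :
    cI f f ≤ (∫ y, |f y|) * (A * Ione + ∫ y, |f y|) := by
  have hc := Coul.of_bdd hf hA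
  rw [cI_eq_pot hf hc, ← integral_mul_const]
  refine integral_mono (integrable_mul_pot hf hc) (hf.abs.mul_const _) fun x => ?_
  refine (le_abs_self _).trans ?_
  rw [abs_mul]
  exact mul_le_mul_of_nonneg_left ((abs_pot_le f x).trans (pot_abs_le_of_bdd hf hA x))
    (abs_nonneg _)

end Pool.Agent.Lib.MP_f7be6d_mp.Unit
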