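import Pool.Agent.Lib.MP_f7be6d_mp.Unit.Box

/-! The potential of a cubic lattice of point charges minus that of the uniform background. -/

open MeasureTheory Metric Set

namespace Pool.Agent.Lib.MP_f7be6d_mp.Unit

lemma taylor_inv {p r η : ℝ} (hr : 0 < r) (hη : 2 * η ≤ r) (h : |p - r| ≤ η) :
    0 ≤ 1 / p - 1 / r + (p ^ 2 - r ^ 2) / (2 * r ^ 3) ∧
      1 / p - 1 / r + (p ^ 2 - r ^ 2) / (2 * r ^ 3) ≤ 7 / 2 * η ^ 2 / r ^ 3 := by
  obtain ⟨h1, h2⟩ := abs_le.1 h
  have hp : 0 < p := by linarith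
  have e : 1 / p - 1 / r + (p ^ 2 - r ^ 2) / (2 * r ^ 3)
      = (p - r) ^ 2 * ((p + 2 * r) / (2 * p)) / r ^ 3 := by
    field_simp; ring
  rw [e]
  refine ⟨by positivity, ?_⟩
  have h3 : (p + 2 * r) / (2 * p) ≤ 7 / 2 := by
    rw [div_le_iff₀ (by positivity)]; linarith
  have h4 : (p - r) ^ 2 ≤ η ^ 2 := sq_le_sq' h1 h2
  have h5 : (p - r) ^ 2 * ((p + 2 * r) / (2 * p)) ≤ η ^ 2 * (7 / 2) :=
    mul_le_mul h4 h3 (by positivity) (by positivity)
  exact div_le_div_of_nonneg_right (by linarith) (by positivity)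

lemma second_diff {u v : E3} {a : ℝ} (ha : 0 < a) (hv : ‖v‖ ≤ a) (hu : 2 * a ≤ ‖u‖) :
    |2 / ‖u‖ - (1 / ‖u - v‖ + 1 / ‖u + v‖)| ≤ 7 * a ^ 2 / ‖u‖ ^ 3 := by
  have hr : 0 < ‖u‖ := by linarith
  have h1 : |‖u - v‖ - ‖u‖| ≤ a := by
    refine (abs_norm_sub_norm_le _ _).trans ?_
    simpa using hv
  have h2 : |‖u + v‖ - ‖u‖| ≤ a := by
    refine (abs_norm_sub_norm_le _ _).trans ?_
    simpa using hv
  obtain ⟨a1, a2⟩ := taylor_inv hr hu h1
  obtain ⟨b1, b2⟩ := taylor_inv hr hu h2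
  have hpar := parallelogram_law_with_norm ℝ u v
  have e : (‖u - v‖ ^ 2 - ‖u‖ ^ 2) / (2 * ‖u‖ ^ 3) + (‖u + v‖ ^ 2 - ‖u‖ ^ 2) / (2 * ‖u‖ ^ 3)
      = ‖v‖ ^ 2 / ‖u‖ ^ 3 := by
    field_simp; nlinarith
  have h3 : ‖v‖ ^ 2 / ‖u‖ ^ 3 ≤ a ^ 2 / ‖u‖ ^ 3 := by gcongr
  have h4 : 0 ≤ ‖v‖ ^ 2 / ‖u‖ ^ 3 := by positivity
  have h5 : 0 ≤ a ^ 2 / ‖u‖ ^ 3 := by positivity
  have e2 : 7 * a ^ 2 / ‖u‖ ^ 3 = 7 * (a ^ 2 / ‖u‖ ^ 3) := by ring
  have e3 : 7 / 2 * a ^ 2 / ‖u‖ ^ 3 = 7 / 2 * (a ^ 2 / ‖u‖ ^ 3) := by ring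
  have e4 : 2 / ‖u‖ = 1 / ‖u‖ + 1 / ‖u‖ := by ring
  rw [e3] at a2 b2
  rw [e2, e4, abs_le]
  constructor <;> linarith

lemma integrableOn_inv_norm (x : E3) {T : Set E3} (hT : MeasurableSet T) (hv : volume T ≠ ⊤) :
    IntegrableOn (fun y => 1 / ‖x - y‖) T := by
  have hi : Integrable (T.indicator fun _ => (1 : ℝ)) :=
    (integrable_indicator_iff hT).2 (integrableOn_const hv)
  have hc : Coul (T.indicator fun _ => (1 : ℝ)) := Coul.of_bdd hi (A := 1) fun y => by
    by_cases hy : y ∈ T <;> simp [hy]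
  rw [← integrable_indicator_iff hT]
  refine (hc.integrable_pot x).congr (Filter.Eventually.of_forall fun y => ?_)
  by_cases hy : y ∈ T <;> simp [hy]

/-- potential of one nucleus minus the potential of its smeared cell -/
noncomputable def dcell (a : ℝ) (m : Fin 3 → ℤ) (x : E3) : ℝ :=
  1 / ‖x - ctr a m‖ - 1 / a ^ 3 * ∫ y in cell a m, 1 / ‖x - y‖

lemma dcell_far {a : ℝ} (ha : 0 < a) (m : Fin 3 → ℤ) {x : E3} (hx : 2 * a ≤ ‖x - ctr a m‖) :
    |dcell a m x| ≤ 4 * a ^ 2 / ‖x - ctr a m‖ ^ 3 := by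
  set R := ctr a m with hR
  have hv : volume (cell a m) ≠ ⊤ := volume_bx_ne_top _ _
  have i1 := integrableOn_inv_norm x (measurableSet_cell a m) hv
  have i2 : IntegrableOn (fun y => 1 / ‖x - ((R + R) - y)‖) (cell a m) := by
    refine (integrableOn_inv_norm ((R + R) - x) (measurableSet_cell a m) hv).congr
      (Filter.Eventually.of_forall fun y => ?_)
    simp only
    rw [← norm_neg]; congr 2; abel
  have hrefl := setIntegral_cell_reflect a m (fun y => 1 / ‖x - y‖)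
  rw [← hR] at hrefl
  have ic : IntegrableOn (fun _ : E3 => 2 / ‖x - R‖) (cell a m) := integrableOn_const hv
  have i12 : IntegrableOn (fun y => 1 / ‖x - y‖ + 1 / ‖x - ((R + R) - y)‖) (cell a m) :=
    i1.add i2
  have e : dcell a m x = 1 / (2 * a ^ 3) * ∫ y in cell a m,
      (2 / ‖x - R‖ - (1 / ‖x - y‖ + 1 / ‖x - ((R + R) - y)‖)) := by
    rw [integral_sub ic i12, integral_add i1 i2, ← hrefl, setIntegral_const,
      volume_real_cell ha.le, smul_eq_mul, dcell, ← hR]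
    field_simp; ring
  have hb := norm_setIntegral_le_of_norm_le_const (μ := volume) (s := cell a m)
    (f := fun y => 2 / ‖x - R‖ - (1 / ‖x - y‖ + 1 / ‖x - ((R + R) - y)‖))
    (C := 7 * a ^ 2 / ‖x - R‖ ^ 3) hv.lt_top fun y hy => by
      have h := second_diff (u := x - R) (v := y - R) ha (norm_sub_ctr_le hy) hx
      have e1 : x - R - (y - R) = x - y := by abel
      have e2 : x - R + (y - R) = x - ((R + R) - y) := by abel
      rw [e1, e2] at h
      exact h
  rw [volume_real_cell ha.le, Real.norm_eq_abs] at hb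
  rw [e, abs_mul, abs_of_pos (by positivity : 0 < 1 / (2 * a ^ 3))]
  have hr : 0 < ‖x - R‖ := by linarith
  calc 1 / (2 * a ^ 3) * _ ≤ 1 / (2 * a ^ 3) * (7 * a ^ 2 / ‖x - R‖ ^ 3 * a ^ 3) :=
        mul_le_mul_of_nonneg_left hb (by positivity)
    _ = 7 / 2 * a ^ 2 / ‖x - R‖ ^ 3 := by field_simp
    _ ≤ 4 * a ^ 2 / ‖x - R‖ ^ 3 := by gcongr; norm_num

lemma cell_pot_near {a : ℝ} (ha : 0 < a) (m : Fin 3 → ℤ) {x : E3} (hx : ‖x - ctr a m‖ < 2 * a) :
    ∫ y in cell a m, 1 / ‖x - y‖ ≤ 9 * Ione * a ^ 2 := by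
  have hv : volume (cell a m) ≠ ⊤ := volume_bx_ne_top _ _
  have i1 := integrableOn_inv_norm x (measurableSet_cell a m) hv
  have i2 : Integrable (fun y => (3 * a) ^ (3 / 2 : ℝ) * hsing (3 * a) (x - y)) :=
    ((integrable_hsing _).comp_sub_left x).const_mul _
  calc ∫ y in cell a m, 1 / ‖x - y‖
      ≤ ∫ y in cell a m, (3 * a) ^ (3 / 2 : ℝ) * hsing (3 * a) (x - y) := by
        refine setIntegral_mono_on i1 i2.integrableOn (measurableSet_cell a m) fun y hy => ?_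
        refine inv_norm_le_hsing ?_
        have h1 := norm_sub_ctr_le hy
        have h2 := norm_sub_le (x - ctr a m) (y - ctr a m)
        have e : x - ctr a m - (y - ctr a m) = x - y := by abel
        rw [e] at h2
        linarith
    _ ≤ ∫ y, (3 * a) ^ (3 / 2 : ℝ) * hsing (3 * a) (x - y) :=
        setIntegral_le_integral i2 (Filter.Eventually.of_forall fun y =>
          mul_nonneg (Real.rpow_nonneg (by positivity) _) (hsing_nonneg _ _))
    _ = 9 * Ione * a ^ 2 := by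
        rw [integral_const_mul, integral_sub_left_eq_self (hsing (3 * a)) volume,
          integral_hsing (by positivity), ← mul_assoc, ← Real.rpow_add (by positivity),
          show (3 / 2 + 1 / 2 : ℝ) = (2 : ℕ) by norm_num, Real.rpow_natCast]
        ring

/-- singular part of one nucleus -/
noncomputable def hcell (a : ℝ) (m : Fin 3 → ℤ) (x : E3) : ℝ :=
  if ‖x - ctr a m‖ < a / 2 then 1 / ‖x - ctr a m‖ else 0

lemma hcell_nonneg (a : ℝ) (m : Fin 3 → ℤ) (x : E3) : 0 ≤ hcell a m x := by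
  unfold hcell; split_ifs <;> positivity

lemma dcell_le {a : ℝ} (ha : 0 < a) (m : Fin 3 → ℤ) (x : E3) :
    |dcell a m x| ≤ hcell a m x + (16 + 72 * Ione) * (a ^ 2 / max ‖x - ctr a m‖ a ^ 3) := by
  have hI := Ione_nonneg
  have h0 := hcell_nonneg a m x
  by_cases hx : 2 * a ≤ ‖x - ctr a m‖
  · have h1 := dcell_far ha m hx
    rw [max_eq_left (by linarith)]
    have h2 : 0 ≤ a ^ 2 / ‖x - ctr a m‖ ^ 3 := by positivity
    have e : 4 * a ^ 2 / ‖x - ctr a m‖ ^ 3 = 4 * (a ^ 2 / ‖x - ctr a m‖ ^ 3) := by ring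
    nlinarith
  · rw [not_le] at hx
    have h1 := cell_pot_near ha m hx
    have h2 : 0 ≤ ∫ y in cell a m, 1 / ‖x - y‖ := integral_nonneg fun y => by positivity
    have h3 : 1 / a ^ 3 * ∫ y in cell a m, 1 / ‖x - y‖ ≤ 9 * Ione / a := by
      calc _ ≤ 1 / a ^ 3 * (9 * Ione * a ^ 2) := mul_le_mul_of_nonneg_left h1 (by positivity)
        _ = 9 * Ione / a := by field_simp
    have h4 : 1 / ‖x - ctr a m‖ ≤ hcell a m x + 2 / a := by
      unfold hcell
      split_ifs with h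
      · have : 0 ≤ 2 / a := by positivity
        linarith
      · rw [not_lt] at h
        rw [zero_add, div_le_div_iff₀ (by linarith) ha]; linarith
    have h5 : 1 / (8 * a) ≤ a ^ 2 / max ‖x - ctr a m‖ a ^ 3 := by
      have h6 : max ‖x - ctr a m‖ a ≤ 2 * a := max_le hx.le (by linarith)
      have h7 : 0 < max ‖x - ctr a m‖ a := lt_max_of_lt_right ha
      calc 1 / (8 * a) = a ^ 2 / (2 * a) ^ 3 := by field_simp; norm_num
        _ ≤ _ := by gcongr
    have h6 : (2 + 9 * Ione) / a ≤ (16 + 72 * Ione) * (a ^ 2 / max ‖x - ctr a m‖ a ^ 3) := by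
      calc (2 + 9 * Ione) / a = (16 + 72 * Ione) * (1 / (8 * a)) := by field_simp; ring
        _ ≤ _ := mul_le_mul_of_nonneg_left h5 (by positivity)
    have h7 : 0 ≤ 1 / a ^ 3 * ∫ y in cell a m, 1 / ‖x - y‖ := by positivity
    have h8 : 0 ≤ 1 / ‖x - ctr a m‖ := by positivity
    have e : (2 + 9 * Ione) / a = 2 / a + 9 * Ione / a := by ring
    have h9 : 0 ≤ 2 / a := by positivity
    have h10 : 0 ≤ 9 * Ione / a := by positivity
    unfold dcell
    rw [abs_le]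
    constructor <;> linarith

lemma sum_inv_inj (n : ℕ) (S : Finset ℕ) (d : ℕ → ℕ) (hd : Set.InjOn d S) (hS : S.card ≤ n) :
    ∑ l ∈ S, 1 / ((d l : ℝ) + 1) ≤ 2 + Real.log n := by
  classical
  rw [← Finset.sum_image (f := fun k : ℕ => 1 / ((k : ℝ) + 1)) hd]
  set T := S.image d
  have hT : T.card ≤ n := Finset.card_image_le.trans hS
  rw [← Finset.sum_filter_add_sum_filter_not T (fun k => k < n)]
  have h1 : ∑ k ∈ T with k < n, 1 / ((k : ℝ) + 1) ≤ 1 + Real.log n := by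
    refine le_trans ?_ (harmonic_le_one_add_log n)
    unfold harmonic
    push_cast
    simp only [one_div]
    refine Finset.sum_le_sum_of_subset_of_nonneg (fun k hk => ?_) fun k _ _ => by positivity
    exact Finset.mem_range.2 (Finset.mem_filter.1 hk).2
  have h2 : ∑ k ∈ T with ¬ k < n, 1 / ((k : ℝ) + 1) ≤ 1 := by
    have h3 := Finset.sum_le_card_nsmul (T.filter fun k => ¬ k < n)
      (fun k : ℕ => 1 / ((k : ℝ) + 1)) (1 / ((n : ℝ) + 1)) fun k hk => by
        have : n ≤ k := not_lt.1 (Finset.mem_filter.1 hk).2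
        have : (n : ℝ) ≤ k := by exact_mod_cast this
        gcongr
    refine h3.trans ?_
    have h4 : ((T.filter fun k => ¬ k < n).card : ℝ) ≤ n := by
      exact_mod_cast (Finset.card_filter_le _ _).trans hT
    rw [nsmul_eq_mul, mul_one_div, div_le_one (by positivity)]
    linarith
  linarith

lemma sum_inv_max (n : ℕ) (y : ℝ) :
    ∑ l : Fin n, 1 / max |y - (l : ℕ)| 1 ≤ 4 * (2 + Real.log n) := by
  classical
  rw [Fin.sum_univ_eq_sum_range (fun l : ℕ => 1 / max |y - (l : ℝ)| 1) n,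
    ← Finset.sum_filter_add_sum_filter_not _ (fun l : ℕ => (l : ℤ) ≤ ⌊y⌋)]
  have key : ∀ (t : ℝ) (d : ℕ), (d : ℝ) ≤ t → 1 / max t 1 ≤ 2 * (1 / ((d : ℝ) + 1)) := by
    intro t d h
    have h1 : 0 < max t 1 := lt_max_of_lt_right one_pos
    rw [mul_one_div, div_le_div_iff₀ h1 (by positivity)]
    linarith [le_max_left t 1, le_max_right t 1]
  have hf1 := Int.floor_le y
  have hf2 := Int.lt_floor_add_one y
  have h1 : ∑ l ∈ (Finset.range n).filter (fun l : ℕ => (l : ℤ) ≤ ⌊y⌋), 1 / max |y - (l : ℝ)| 1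
      ≤ 2 * (2 + Real.log n) := by
    have h := sum_inv_inj n ((Finset.range n).filter fun l : ℕ => (l : ℤ) ≤ ⌊y⌋)
      (fun l => (⌊y⌋ - l).toNat) (fun l hl l' hl' e => by
        have a1 := (Finset.mem_filter.1 hl).2
        have a2 := (Finset.mem_filter.1 hl').2
        simp only at e
        omega) ((Finset.card_filter_le _ _).trans (by simp))
    refine le_trans (Finset.sum_le_sum fun l hl => key _ ((⌊y⌋ - l).toNat) ?_) ?_
    · have a1 := (Finset.mem_filter.1 hl).2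
      have e : (((⌊y⌋ - l).toNat : ℕ) : ℤ) = ⌊y⌋ - l := by omega
      have e2 : (((⌊y⌋ - l).toNat : ℕ) : ℝ) = (⌊y⌋ : ℝ) - l := by
        exact_mod_cast congrArg (fun t : ℤ => (t : ℝ)) e
      rw [e2]
      linarith [le_abs_self (y - l)]
    · rw [← Finset.mul_sum]; linarith
  have h2 : ∑ l ∈ (Finset.range n).filter (fun l : ℕ => ¬ (l : ℤ) ≤ ⌊y⌋),
      1 / max |y - (l : ℝ)| 1
      ≤ 2 * (2 + Real.log n) := by
    have h := sum_inv_inj n ((Finset.range n).filter fun l : ℕ => ¬ (l : ℤ) ≤ ⌊y⌋)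
      (fun l => (l - ⌊y⌋ - 1).toNat) (fun l hl l' hl' e => by
        have a1 := (Finset.mem_filter.1 hl).2
        have a2 := (Finset.mem_filter.1 hl').2
        simp only at e
        omega) ((Finset.card_filter_le _ _).trans (by simp))
    refine le_trans (Finset.sum_le_sum fun l hl => key _ ((l - ⌊y⌋ - 1).toNat) ?_) ?_
    · have a1 := (Finset.mem_filter.1 hl).2
      have e : ((((l : ℤ) - ⌊y⌋ - 1).toNat : ℕ) : ℤ) = l - ⌊y⌋ - 1 := by omega
      have e2 : ((((l : ℤ) - ⌊y⌋ - 1).toNat : ℕ) : ℝ) = l - (⌊y⌋ : ℝ) - 1 := by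
        exact_mod_cast congrArg (fun t : ℤ => (t : ℝ)) e
      rw [e2]
      linarith [neg_abs_le (y - l)]
    · rw [← Finset.mul_sum]; linarith
  linarith

lemma sum_reg_le {a : ℝ} (ha : 0 < a) (n : ℕ) (x : E3) :
    ∑ j : Fin 3 → Fin n, a ^ 2 / max ‖x - ctr a (idx j)‖ a ^ 3
      ≤ (4 * (2 + Real.log n)) ^ 3 / a := by
  have h1 : ∀ j : Fin 3 → Fin n, a ^ 2 / max ‖x - ctr a (idx j)‖ a ^ 3
      ≤ (∏ i, 1 / max |(x i / a - 1 / 2) - (j i : ℕ)| 1) / a := by
    intro j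
    have h2 : ∀ i, a / max ‖x - ctr a (idx j)‖ a ≤ 1 / max |(x i / a - 1 / 2) - (j i : ℕ)| 1 := by
      intro i
      have h3 := abs_apply_le (x - ctr a (idx j)) i
      have e : (x - ctr a (idx j)) i = a * ((x i / a - 1 / 2) - (j i : ℕ)) := by
        rw [PiLp.sub_apply, ctr_apply]; simp only [idx, Int.cast_natCast]; field_simp; ring
      rw [e, abs_mul, abs_of_pos ha] at h3
      rw [div_le_div_iff₀ (lt_max_of_lt_right ha) (lt_max_of_lt_right one_pos), one_mul,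
        mul_max_of_nonneg _ _ ha.le, mul_one]
      exact max_le_max h3 le_rfl
    have h4 : ∏ _i : Fin 3, a / max ‖x - ctr a (idx j)‖ a
        ≤ ∏ i, 1 / max |(x i / a - 1 / 2) - (j i : ℕ)| 1 :=
      Finset.prod_le_prod (fun i _ => div_nonneg ha.le (le_max_of_le_right ha.le))
        fun i _ => h2 i
    rw [Finset.prod_const, Finset.card_univ, Fintype.card_fin] at h4
    have h5 : 0 < max ‖x - ctr a (idx j)‖ a := lt_max_of_lt_right ha
    calc a ^ 2 / max ‖x - ctr a (idx j)‖ a ^ 3 = (a / max ‖x - ctr a (idx j)‖ a) ^ 3 / a := by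
          field_simp
      _ ≤ _ := by gcongr
  refine (Finset.sum_le_sum fun j _ => h1 j).trans ?_
  rw [← Finset.sum_div]
  refine div_le_div_of_nonneg_right ?_ ha.le
  have h6 := Finset.prod_univ_sum (fun _ : Fin 3 => (Finset.univ : Finset (Fin n)))
    (fun i l => 1 / max |(x i / a - 1 / 2) - (l : ℕ)| 1)
  rw [Fintype.piFinset_univ] at h6
  rw [← h6]
  have h7 : ∏ i : Fin 3, ∑ l : Fin n, 1 / max |(x i / a - 1 / 2) - (l : ℕ)| 1
      ≤ ∏ _i : Fin 3, 4 * (2 + Real.log n) :=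
    Finset.prod_le_prod (fun i _ => Finset.sum_nonneg fun l _ =>
      div_nonneg zero_le_one (le_max_of_le_right zero_le_one)) fun i _ => sum_inv_max n _
  rw [Finset.prod_const, Finset.card_univ, Fintype.card_fin] at h7
  exact h7

lemma sum_reg_far {a D : ℝ} (ha : 0 < a) (hD : 0 < D) (n : ℕ) {x : E3}
    (hx : x ∉ cube (-D) (n * a + D)) :
    ∑ j : Fin 3 → Fin n, a ^ 2 / max ‖x - ctr a (idx j)‖ a ^ 3 ≤ n ^ 3 * a ^ 2 / D ^ 3 := by
  have h1 : ∀ j : Fin 3 → Fin n, a ^ 2 / max ‖x - ctr a (idx j)‖ a ^ 3 ≤ a ^ 2 / D ^ 3 := by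
    intro j
    have h2 : D ≤ ‖x - ctr a (idx j)‖ := by
      by_contra h
      rw [not_le] at h
      apply hx
      intro i
      have h3 := abs_lt.1 ((abs_apply_le (x - ctr a (idx j)) i).trans_lt h)
      rw [PiLp.sub_apply, ctr_apply] at h3
      simp only [idx, Int.cast_natCast] at h3
      have h4 : ((j i : ℕ) : ℝ) + 1 ≤ n := by exact_mod_cast (j i).2
      have h5 : (0 : ℝ) ≤ (j i : ℕ) := Nat.cast_nonneg _
      constructor <;> nlinarith [h3.1, h3.2]
    have h3 : D ≤ max ‖x - ctr a (idx j)‖ a := le_max_of_le_left h2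
    gcongr
  refine (Finset.sum_le_card_nsmul _ _ _ fun j _ => h1 j).trans (le_of_eq ?_)
  simp only [Finset.card_univ, Fintype.card_fun, Fintype.card_fin, nsmul_eq_mul]
  push_cast; ring

/-- singular part of the lattice potential -/
noncomputable def hs (a : ℝ) (n : ℕ) (x : E3) : ℝ := ∑ j : Fin 3 → Fin n, hcell a (idx j) x

/-- integrable majorant -/
noncomputable def HH (a : ℝ) (n : ℕ) (x : E3) : ℝ :=
  ∑ j : Fin 3 → Fin n, hsing a (x - ctr a (idx j))

lemma hs_nonneg (a : ℝ) (n : ℕ) (x : E3) : 0 ≤ hs a n x :=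
  Finset.sum_nonneg fun _ _ => hcell_nonneg _ _ _

lemma HH_nonneg (a : ℝ) (n : ℕ) (x : E3) : 0 ≤ HH a n x :=
  Finset.sum_nonneg fun _ _ => hsing_nonneg _ _

lemma integrable_HH (a : ℝ) (n : ℕ) : Integrable (HH a n) :=
  integrable_finsetSum _ fun _ _ => (integrable_hsing a).comp_sub_right _

lemma integral_HH {a : ℝ} (ha : 0 < a) (n : ℕ) :
    ∫ x, HH a n x = n ^ 3 * (a ^ (1 / 2 : ℝ) * Ione) := by
  unfold HH
  rw [integral_finsetSum _ fun _ _ => (integrable_hsing a).comp_sub_right _]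
  simp only [integral_sub_right_eq_self (hsing a), integral_hsing ha, Finset.sum_const,
    Finset.card_univ, Fintype.card_fun, Fintype.card_fin, nsmul_eq_mul]
  push_cast; ring

lemma hs_pow_le {a : ℝ} (ha : 0 < a) (n : ℕ) (x : E3) :
    hs a n x ^ 2 ≤ a ^ (1 / 2 : ℝ) * HH a n x ∧ hs a n x ^ (5 / 2 : ℝ) ≤ HH a n x := by
  have h0 := HH_nonneg a n x
  have ha2 : 0 ≤ a ^ (1 / 2 : ℝ) := Real.rpow_nonneg ha.le _
  by_cases h : ∃ j : Fin 3 → Fin n, ‖x - ctr a (idx j)‖ < a / 2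
  · obtain ⟨j, hj⟩ := h
    have e : hs a n x = 1 / ‖x - ctr a (idx j)‖ := by
      unfold hs
      rw [Finset.sum_eq_single j]
      · unfold hcell; rw [if_pos hj]
      · intro j' _ hne
        unfold hcell
        rw [if_neg]
        intro hj'
        have h1 := le_dist_ctr ha (idx_injective.ne hne)
        have h2 := norm_sub_le (x - ctr a (idx j)) (x - ctr a (idx j'))
        have e : x - ctr a (idx j) - (x - ctr a (idx j')) = ctr a (idx j') - ctr a (idx j) := by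
          abel
        rw [e] at h2
        linarith
      · simp
    have h1 : hsing a (x - ctr a (idx j)) ≤ HH a n x :=
      Finset.single_le_sum (f := fun j : Fin 3 → Fin n => hsing a (x - ctr a (idx j)))
        (fun _ _ => hsing_nonneg _ _) (Finset.mem_univ j)
    have hj' : ‖x - ctr a (idx j)‖ < a := by linarith
    rw [e]
    refine ⟨(inv_norm_sq_le_hsing hj').trans (mul_le_mul_of_nonneg_left h1 ha2), ?_⟩
    refine le_trans (le_of_eq ?_) h1
    unfold hsing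
    rw [indicator_of_mem (mem_ball_zero_iff.2 hj'), Real.rpow_neg (norm_nonneg _), one_div,
      Real.inv_rpow (norm_nonneg _)]
  · have e : hs a n x = 0 := by
      refine Finset.sum_eq_zero fun j _ => ?_
      unfold hcell
      rw [if_neg fun hj => h ⟨j, hj⟩]
    rw [e, Real.zero_rpow (by norm_num)]
    exact ⟨by simpa using mul_nonneg ha2 h0, h0⟩

/-- lattice potential minus background potential (unit charges) -/
noncomputable def dlt (a : ℝ) (n : ℕ) (x : E3) : ℝ :=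
  (∑ j : Fin 3 → Fin n, 1 / ‖x - ctr a (idx j)‖) - 1 / a ^ 3 * pot (ind 0 (n * a)) x

lemma dlt_eq {a : ℝ} (ha : 0 < a) (n : ℕ) (x : E3) :
    dlt a n x = ∑ j : Fin 3 → Fin n, dcell a (idx j) x := by
  have e : pot (ind 0 (n * a)) x = ∫ y in cube 0 (n * a), 1 / ‖x - y‖ := by
    unfold pot
    rw [← integral_indicator (measurableSet_cube _ _)]
    congr 1; funext y
    by_cases hy : y ∈ cube 0 (n * a)
    · rw [ind_of_mem hy, indicator_of_mem hy]
    · rw [ind_of_notMem hy, indicator_of_notMem hy, zero_div]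
  unfold dlt dcell
  rw [e, setIntegral_cube_eq_sum ha n
    (integrableOn_inv_norm x (measurableSet_cube _ _) (volume_cube_ne_top _ _)),
    Finset.sum_sub_distrib, Finset.mul_sum]

lemma abs_dlt_le {a : ℝ} (ha : 0 < a) (n : ℕ) (x : E3) :
    |dlt a n x| ≤ hs a n x + (16 + 72 * Ione) *
      ∑ j : Fin 3 → Fin n, a ^ 2 / max ‖x - ctr a (idx j)‖ a ^ 3 := by
  rw [dlt_eq ha, hs, Finset.mul_sum, ← Finset.sum_add_distrib]
  exact (Finset.abs_sum_le_sum_abs _ _).trans (Finset.sum_le_sum fun j _ => dcell_le ha _ x)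

end Pool.Agent.Lib.MP_f7be6d_mp.Unit
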