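import Pool.Agent.Lib.MP_f7be6d_mp.Unit.Slater

/-! The Hartree-Fock energy formula for Slater determinants. -/

open MeasureTheory
open scoped ContDiff ComplexConjugate

namespace Pool.Agent.Lib.MP_f7be6d_mp.Unit

variable {N : ℕ} {u : Fin N → E3 → Fin 2 → ℂ}

/-- one-particle density -/
noncomputable def dens (u : Fin N → E3 → Fin 2 → ℂ) (x : E3) : ℝ := ∑ p, ∑ t, ‖u p x t‖ ^ 2

/-- one-particle density matrix -/
noncomputable def gm (u : Fin N → E3 → Fin 2 → ℂ) (x : E3) (t : Fin 2) (y : E3) (t' : Fin 2) : ℂ :=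
  ∑ p, u p x t * conj (u p y t')

/-- exchange integrand -/
noncomputable def exk (u : Fin N → E3 → Fin 2 → ℂ) (w : E3 × E3) : ℝ :=
  (∑ t, ∑ t', ‖gm u w.1 t w.2 t'‖ ^ 2) / ‖w.1 - w.2‖

/-- kinetic energy -/
noncomputable def kin (u : Fin N → E3 → Fin 2 → ℂ) : ℝ :=
  ∑ a : Fin 3, ∑ p, ∑ t, ∫ x, ‖dorb u (EuclideanSpace.single a (1 : ℝ)) p x t‖ ^ 2

lemma ofReal_norm_sq (A : ℂ) : ((‖A‖ ^ 2 : ℝ) : ℂ) = A * conj A := by
  rw [Complex.mul_conj, Complex.normSq_eq_norm_sq]

lemma Orb.coul_dens (h : Orb u) : Coul (dens u) := by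
  refine Coul.of_cont ?_ ?_
  · exact continuous_finsetSum _ fun p _ => continuous_finsetSum _ fun t _ =>
      (h.cont p t).norm.pow 2
  · have hK : IsCompact (⋃ p, ⋃ t, tsupport fun x => u p x t) :=
      isCompact_iUnion fun p => isCompact_iUnion fun t => h.compact p t
    refine HasCompactSupport.intro hK fun x hx => ?_
    refine Finset.sum_eq_zero fun p _ => Finset.sum_eq_zero fun t _ => ?_
    rw [image_eq_zero_of_notMem_tsupport (f := fun x => u p x t) fun hm =>
      hx (Set.mem_iUnion.2 ⟨p, Set.mem_iUnion.2 ⟨t, hm⟩⟩)]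
    simp

lemma tb_symm (p p' q q' : Fin N) : tb u p p' q q' = tb u q q' p p' := by
  unfold tb
  rw [Finset.sum_comm]
  refine Finset.sum_congr rfl fun t _ => Finset.sum_congr rfl fun t' _ => ?_
  rw [← integral_prod_swap]
  congr 1; funext w
  simp only [Prod.fst_swap, Prod.snd_swap]
  rw [norm_sub_rev, mul_comm]

lemma sum_tb (h : Orb u) (f g : Fin N → Fin N → Fin N) :
    Integrable (fun w : E3 × E3 => ∑ p, ∑ q, ∑ t, ∑ t', u p w.1 t * conj (u (f p q) w.1 t)
      * (u q w.2 t' * conj (u (g p q) w.2 t')) / (‖w.1 - w.2‖ : ℝ)) (volume.prod volume) ∧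
    ∑ p, ∑ q, tb u p (f p q) q (g p q) = ∫ w : E3 × E3, ∑ p, ∑ q, ∑ t, ∑ t',
      u p w.1 t * conj (u (f p q) w.1 t) * (u q w.2 t' * conj (u (g p q) w.2 t'))
        / (‖w.1 - w.2‖ : ℝ) ∂(volume.prod volume) := by
  have i1 := fun p q t => integrable_finsetSum Finset.univ
    fun t' _ => h.int4 p (f p q) q (g p q) t t'
  have i2 := fun p q => integrable_finsetSum Finset.univ fun t _ => i1 p q t
  have i3 := fun p => integrable_finsetSum Finset.univ fun q _ => i2 p q
  refine ⟨integrable_finsetSum _ fun p _ => i3 p, ?_⟩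
  rw [integral_finsetSum _ fun p _ => i3 p]
  refine Finset.sum_congr rfl fun p _ => ?_
  rw [integral_finsetSum _ fun q _ => i2 p q]
  refine Finset.sum_congr rfl fun q _ => ?_
  rw [integral_finsetSum _ fun t _ => i1 p q t]
  refine Finset.sum_congr rfl fun t _ => ?_
  rw [integral_finsetSum _ fun t' _ => h.int4 p (f p q) q (g p q) t t']

lemma sum_tb_direct (h : Orb u) :
    ∑ p, ∑ q, tb u p p q q = ((cI (dens u) (dens u) : ℝ) : ℂ) := by
  rw [(sum_tb h (fun p _ => p) (fun _ q => q)).2, cI, ← integral_complex_ofReal]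
  congr 1; funext w
  unfold dens
  rw [Complex.ofReal_div, Complex.ofReal_mul]
  simp only [Complex.ofReal_sum, ofReal_norm_sq]
  rw [Finset.sum_mul_sum, Finset.sum_div]
  refine Finset.sum_congr rfl fun p _ => ?_
  rw [Finset.sum_div]
  refine Finset.sum_congr rfl fun q _ => ?_
  rw [Finset.sum_mul_sum, Finset.sum_div]
  refine Finset.sum_congr rfl fun t _ => ?_
  rw [Finset.sum_div]

lemma exk_eq (w : E3 × E3) : ∑ p, ∑ q, ∑ t, ∑ t', u p w.1 t * conj (u q w.1 t)
      * (u q w.2 t' * conj (u p w.2 t')) / (‖w.1 - w.2‖ : ℝ) = ((exk u w : ℝ) : ℂ) := by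
  unfold exk gm
  rw [Complex.ofReal_div]
  simp only [Complex.ofReal_sum, ofReal_norm_sq, map_sum, map_mul, Complex.conj_conj,
    Finset.sum_mul_sum, Finset.sum_div]
  calc _ = ∑ p, ∑ t, ∑ q, ∑ t', u p w.1 t * conj (u q w.1 t)
      * (u q w.2 t' * conj (u p w.2 t')) / (‖w.1 - w.2‖ : ℝ) :=
        Finset.sum_congr rfl fun p _ => Finset.sum_comm
    _ = ∑ t, ∑ p, ∑ q, ∑ t', u p w.1 t * conj (u q w.1 t)
      * (u q w.2 t' * conj (u p w.2 t')) / (‖w.1 - w.2‖ : ℝ) := Finset.sum_comm
    _ = ∑ t, ∑ p, ∑ t', ∑ q, u p w.1 t * conj (u q w.1 t)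
      * (u q w.2 t' * conj (u p w.2 t')) / (‖w.1 - w.2‖ : ℝ) :=
        Finset.sum_congr rfl fun t _ => Finset.sum_congr rfl fun p _ => Finset.sum_comm
    _ = ∑ t, ∑ t', ∑ p, ∑ q, u p w.1 t * conj (u q w.1 t)
      * (u q w.2 t' * conj (u p w.2 t')) / (‖w.1 - w.2‖ : ℝ) :=
        Finset.sum_congr rfl fun t _ => Finset.sum_comm
    _ = _ := by
        refine Finset.sum_congr rfl fun t _ => Finset.sum_congr rfl fun t' _ =>
          Finset.sum_congr rfl fun p _ => Finset.sum_congr rfl fun q _ => ?_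
        ring

lemma integrable_exk (h : Orb u) : Integrable (exk u) (volume.prod volume) := by
  have := (sum_tb h (fun _ q => q) (fun p _ => p)).1
  simp only [exk_eq] at this
  simpa using this.re

lemma sum_tb_exch (h : Orb u) :
    ∑ p, ∑ q, tb u p q q p = ((∫ w, exk u w ∂(volume.prod volume) : ℝ) : ℂ) := by
  rw [(sum_tb h (fun _ q => q) (fun p _ => p)).2, ← integral_complex_ofReal]
  simp only [exk_eq]

lemma integrable_nucV_mul {k : ℕ} (z : Fin k → ℝ) (R : Fin k → E3) {a : E3 → ℂ}
    (ha : Continuous a) (ha' : HasCompactSupport a) :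
    Integrable (fun x => ((nucV z R x : ℝ) : ℂ) * a x) := by
  unfold nucV
  simp only [Complex.ofReal_sum, Finset.sum_mul]
  refine integrable_finsetSum _ fun j _ => ?_
  refine (((Coul.of_cont ha.norm ha'.norm).integrable_pot (R j)).const_mul |z j|).mono' ?_
    (Filter.Eventually.of_forall fun x => ?_)
  · refine (Measurable.mul ?_ ha.measurable).aestronglyMeasurable
    fun_prop
  · rw [norm_mul, Complex.norm_real, Real.norm_eq_abs, abs_div, abs_norm, norm_sub_rev]
    apply le_of_eq; ring

theorem quantumForm_slater (h : Orb u) {k : ℕ} (z : Fin k → ℝ) (R : Fin k → E3) :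
    quantumForm z R (slater u) = kin u - (∫ x, nucV z R x * dens u x)
      + 1 / 2 * (cI (dens u) (dens u) - ∫ w, exk u w ∂(volume.prod volume)) + nucU z R := by
  have hN : (N.factorial : ℂ) ≠ 0 := by exact_mod_cast N.factorial_ne_zero
  set d : Fin 3 → Fin N → E3 → Fin 2 → ℂ := fun a => dorb u (EuclideanSpace.single a (1 : ℝ))
    with hd
  set v : Fin N → E3 → Fin 2 → ℂ := fun p y t => ((nucV z R y : ℝ) : ℂ) * u p y t with hv
  have hdc : ∀ a p t, Continuous (fun x => d a p x t) := fun a p t =>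
    ((h.smooth p t).continuous_fderiv (by simp)).clm_apply continuous_const
  have hds : ∀ a p t, HasCompactSupport (fun x => d a p x t) := fun a p t =>
    (h.compact p t).fderiv_apply ℝ _
  have hdi : ∀ a p q t, Integrable (fun x => d a p x t * conj (d a q x t)) := fun a p q t =>
    ((hdc a p t).mul (Complex.continuous_conj.comp (hdc a q t))).integrable_of_hasCompactSupport
      (hds a p t).mul_right
  have hvi : ∀ p q t, Integrable (fun x => v p x t * conj (u q x t)) := fun p q t => by
    simp only [hv, mul_assoc]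
    exact integrable_nucV_mul z R (h.cont2 p q t) (h.compact2 p q t)
  have K := fun a i => asum_one h (hdi a) i
  have V := fun i => asum_one h hvi i
  simp only [repl_self] at V
  have P := fun (i j : Fin N) (hij : i < j) => asum_pair h hij.ne
  have Nn := asum_norm h
  apply Complex.ofReal_injective
  unfold quantumForm
  rw [Complex.ofReal_sum]
  simp only [← integral_complex_ofReal]
  have e : ∀ (s : Fin N → Fin 2) (x : Fin N → E3), ((((∑ i, ∑ a : Fin 3,
        ‖fderiv ℝ (fun y => slater u y s) x (Pi.single i (EuclideanSpace.single a (1 : ℝ)))‖ ^ 2)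
      + (-(∑ i, nucV z R (x i)) + (∑ i, ∑ j with i < j, 1 / ‖x i - x j‖) + nucU z R)
        * ‖slater u x s‖ ^ 2 : ℝ)) : ℂ)
      = (N.factorial : ℂ)⁻¹ * ((((∑ i, ∑ a, asum (repl u (d a) i) x s
          * conj (asum (repl u (d a) i) x s))
        - ∑ i, asum (repl u v i) x s * conj (asum (fun _ => u) x s))
        + ∑ i, ∑ j with i < j, asum (fun _ => u) x s * conj (asum (fun _ => u) x s)
          / (‖x i - x j‖ : ℝ))
        + (nucU z R : ℂ) * (asum (fun _ => u) x s * conj (asum (fun _ => u) x s))) := by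
    intro s x
    simp only [slater, fderiv_asum h, hv, asum_repl_mul]
    rw [Complex.ofReal_add, Complex.ofReal_mul]
    simp only [Complex.ofReal_sum, norm_sq_scaled]
    simp only [Complex.ofReal_sum, Complex.ofReal_add, Complex.ofReal_neg,
      Complex.ofReal_inv, ← Finset.mul_sum, hd, mul_assoc, ← Finset.sum_mul,
      div_eq_mul_inv, one_mul]
    ring
  simp only [e, integral_const_mul]
  have iK : ∀ s, Integrable (fun x => ∑ i, ∑ a, asum (repl u (d a) i) x s
      * conj (asum (repl u (d a) i) x s)) := fun s =>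
    integrable_finsetSum _ fun i _ => integrable_finsetSum _ fun a _ => (K a i).1 s
  have iV : ∀ s, Integrable (fun x => ∑ i, asum (repl u v i) x s
      * conj (asum (fun _ => u) x s)) := fun s => integrable_finsetSum _ fun i _ => (V i).1 s
  have iP : ∀ s, Integrable (fun x => ∑ i, ∑ j with i < j,
      asum (fun _ => u) x s * conj (asum (fun _ => u) x s) / (‖x i - x j‖ : ℝ)) := fun s =>
    integrable_finsetSum _ fun i _ => integrable_finsetSum _ fun j hj =>
      (P i j (Finset.mem_filter.1 hj).2).1 s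
  have iKV : ∀ s, Integrable (fun x => (∑ i, ∑ a, asum (repl u (d a) i) x s
      * conj (asum (repl u (d a) i) x s)) - ∑ i, asum (repl u v i) x s
      * conj (asum (fun _ => u) x s)) := fun s => (iK s).sub (iV s)
  have iKVP : ∀ s, Integrable (fun x => ((∑ i, ∑ a, asum (repl u (d a) i) x s
      * conj (asum (repl u (d a) i) x s)) - ∑ i, asum (repl u v i) x s
      * conj (asum (fun _ => u) x s)) + ∑ i, ∑ j with i < j,
      asum (fun _ => u) x s * conj (asum (fun _ => u) x s) / (‖x i - x j‖ : ℝ)) :=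
    fun s => (iKV s).add (iP s)
  have sK : ∑ s, ∫ x, ∑ i, ∑ a, asum (repl u (d a) i) x s * conj (asum (repl u (d a) i) x s)
      = (N.factorial : ℂ) * (kin u : ℝ) := by
    have e1 : ∀ s, ∫ x, ∑ i, ∑ a, asum (repl u (d a) i) x s * conj (asum (repl u (d a) i) x s)
        = ∑ a, ∑ i, ∫ x, asum (repl u (d a) i) x s * conj (asum (repl u (d a) i) x s) := by
      intro s
      rw [integral_finsetSum _ fun i _ => integrable_finsetSum _ fun a _ => (K a i).1 s,
        Finset.sum_comm]
      exact Finset.sum_congr rfl fun i _ => integral_finsetSum _ fun a _ => (K a i).1 s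
    simp only [e1]
    rw [Finset.sum_comm, kin, Complex.ofReal_sum, Finset.mul_sum]
    refine Finset.sum_congr rfl fun a _ => ?_
    rw [Finset.sum_comm]
    simp only [fun i => (K a i).2]
    rw [comb_one_sum (fun p => ip (d a p) (d a p))]
    simp only [ip, Complex.ofReal_sum, ← integral_complex_ofReal, ofReal_norm_sq, hd]
  have sV : ∑ s, ∫ x, ∑ i, asum (repl u v i) x s * conj (asum (fun _ => u) x s)
      = (N.factorial : ℂ) * ((∫ x, nucV z R x * dens u x : ℝ) : ℂ) := by
    simp only [fun s => integral_finsetSum Finset.univ fun i _ => (V i).1 s]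
    rw [Finset.sum_comm]
    simp only [fun i => (V i).2]
    rw [comb_one_sum (fun p => ip (v p) (u p)), ← integral_complex_ofReal]
    congr 1
    unfold ip
    simp only [← fun p => integral_finsetSum Finset.univ fun t _ => hvi p p t]
    rw [← integral_finsetSum _ fun p _ => integrable_finsetSum _ fun t _ => hvi p p t]
    congr 1; funext x
    unfold dens
    simp only [Complex.ofReal_mul, Complex.ofReal_sum, ofReal_norm_sq, Finset.mul_sum, hv,
      mul_assoc]
  have sP : ∑ s, ∫ x, ∑ i, ∑ j with i < j,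
      asum (fun _ => u) x s * conj (asum (fun _ => u) x s) / (‖x i - x j‖ : ℝ)
      = (N.factorial : ℂ) * (1 / 2 * (((cI (dens u) (dens u) : ℝ) : ℂ)
        - ((∫ w, exk u w ∂(volume.prod volume) : ℝ) : ℂ))) := by
    have e1 : ∀ s, ∫ x, ∑ i, ∑ j with i < j,
        asum (fun _ => u) x s * conj (asum (fun _ => u) x s) / (‖x i - x j‖ : ℝ)
        = ∑ i, ∑ j with i < j, ∫ x,
          asum (fun _ => u) x s * conj (asum (fun _ => u) x s) / (‖x i - x j‖ : ℝ) := by
      intro s
      rw [integral_finsetSum _ fun i _ => integrable_finsetSum _ fun j hj =>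
        (P i j (Finset.mem_filter.1 hj).2).1 s]
      exact Finset.sum_congr rfl fun i _ => integral_finsetSum _ fun j hj =>
        (P i j (Finset.mem_filter.1 hj).2).1 s
    simp only [e1]
    rw [← sum_tb_direct h, ← sum_tb_exch h, ← Finset.sum_sub_distrib]
    simp only [← Finset.sum_sub_distrib]
    rw [← comb_two_sum (fun p q => tb u p p q q - tb u p q q p)
      (fun p q => by rw [tb_symm p p, tb_symm p q]) (fun p => sub_self _), Finset.sum_comm]
    refine Finset.sum_congr rfl fun i _ => ?_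
    rw [Finset.sum_comm]
    exact Finset.sum_congr rfl fun j hj => (P i j (Finset.mem_filter.1 hj).2).2
  simp only [fun s => integral_add (iKVP s) ((Nn.1 s).const_mul (nucU z R : ℂ)),
    fun s => integral_add (iKV s) (iP s), fun s => integral_sub (iK s) (iV s),
    integral_const_mul]
  rw [← Finset.mul_sum, Finset.sum_add_distrib, Finset.sum_add_distrib, Finset.sum_sub_distrib,
    sK, sV, sP, ← Finset.mul_sum, Nn.2]
  push_cast
  field_simp

end Pool.Agent.Lib.MP_f7be6d_mp.Unit
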