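import Pool.Agent.Lib.MP_f7be6d_mp.Unit.Coulomb

/-! Gaussian representation of the Coulomb kernel and the plateau lower bound. -/

open MeasureTheory Metric Set

namespace Pool.Agent.Lib.MP_f7be6d_mp.Unit

/-- Gaussian exp(-c s^2 |v|^2) -/
noncomputable def gk (c s : ℝ) (v : E3) : ℝ := Real.exp (-(c * s ^ 2) * ‖v‖ ^ 2)

/-- its mass at s = 1 -/
noncomputable def GG (c : ℝ) : ℝ := (Real.pi / c) ^ (3 / 2 : ℝ)

lemma GG_pos {c : ℝ} (hc : 0 < c) : 0 < GG c :=
  Real.rpow_pos_of_pos (div_pos Real.pi_pos hc) _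

lemma gk_pos (c s : ℝ) (v : E3) : 0 < gk c s v := Real.exp_pos _

lemma gk_le_one {c : ℝ} (hc : 0 ≤ c) (s : ℝ) (v : E3) : gk c s v ≤ 1 := by
  unfold gk
  rw [Real.exp_le_one_iff]
  have : 0 ≤ c * s ^ 2 * ‖v‖ ^ 2 := by positivity
  linarith

lemma continuous_gk (c s : ℝ) : Continuous (gk c s) := by
  unfold gk; fun_prop

lemma integral_gk {c s : ℝ} (hc : 0 < c) (hs : 0 < s) : ∫ v, gk c s v = GG c / s ^ 3 := by
  unfold gk GG
  rw [GaussianFourier.integral_rexp_neg_mul_sq_norm (by positivity), finrank_E3]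
  have e : Real.pi / (c * s ^ 2) = Real.pi / c / s ^ 2 := by field_simp
  rw [e, Real.div_rpow (by positivity) (by positivity)]
  have e2 : (s ^ 2) ^ (((3 : ℕ) : ℝ) / 2) = s ^ 3 := by
    rw [← Real.rpow_natCast, ← Real.rpow_mul hs.le, ← Real.rpow_natCast]
    norm_num
  rw [e2]
  norm_num

lemma integrable_gk {c s : ℝ} (hc : 0 < c) (hs : 0 < s) : Integrable (gk c s) := by
  by_contra h
  have := integral_undef h
  rw [integral_gk hc hs] at this
  have h2 := GG_pos hc
  have : 0 < GG c / s ^ 3 := by positivity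
  linarith

lemma gk_mul_gk (s : ℝ) (x y z : E3) :
    gk 2 s (x - z) * gk 2 s (y - z)
      = gk 1 s (x - y) * gk 4 s ((1 / 2 : ℝ) • (x + y) - z) := by
  unfold gk
  rw [← Real.exp_add, ← Real.exp_add]
  congr 1
  have h := parallelogram_law_with_norm ℝ (x - z) (y - z)
  have e1 : x - z - (y - z) = x - y := by abel
  have e2 : x - z + (y - z) = (2 : ℝ) • ((1 / 2 : ℝ) • (x + y) - z) := by
    rw [smul_sub, smul_smul]; norm_num; rw [two_smul]; abel
  rw [e1, e2, norm_smul, Real.norm_of_nonneg (by norm_num : (0 : ℝ) ≤ 2)] at h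
  nlinarith

lemma integrable_gk_conv {s : ℝ} (hs : 0 < s) (x y : E3) :
    Integrable (fun z => gk 2 s (x - z) * gk 2 s (y - z)) := by
  simp_rw [gk_mul_gk]
  exact ((integrable_gk (by norm_num) hs).comp_sub_left _).const_mul _

lemma integral_gk_conv {s : ℝ} (hs : 0 < s) (x y : E3) :
    ∫ z, gk 2 s (x - z) * gk 2 s (y - z) = gk 1 s (x - y) * (GG 4 / s ^ 3) := by
  simp_rw [gk_mul_gk]
  rw [integral_const_mul, integral_sub_left_eq_self (gk 4 s) volume, integral_gk (by norm_num) hs]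

/-- smeared function -/
noncomputable def sm (s : ℝ) (f : E3 → ℝ) (z : E3) : ℝ := ∫ x, f x * gk 2 s (x - z)

/-- Gaussian quadratic form -/
noncomputable def gJ (f : E3 → ℝ) (s : ℝ) : ℝ :=
  ∫ p : E3 × E3, f p.1 * f p.2 * gk 1 s (p.1 - p.2) ∂(volume.prod volume)

lemma sm_sq {f : E3 → ℝ} (hf : Integrable f) {s : ℝ} (hs : 0 < s) :
    Integrable (fun z => sm s f z ^ 2) ∧ ∫ z, sm s f z ^ 2 = gJ f s * (GG 4 / s ^ 3) := by
  set F : (E3 × E3) → E3 → ℝ := fun p z =>
    f p.1 * f p.2 * (gk 2 s (p.1 - z) * gk 2 s (p.2 - z)) with hF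
  have hff : Integrable (fun p : E3 × E3 => f p.1 * f p.2) (volume.prod volume) :=
    hf.mul_prod hf
  have hm : AEStronglyMeasurable (Function.uncurry F) ((volume.prod volume).prod volume) := by
    refine AEStronglyMeasurable.mul hff.1.comp_fst ?_
    have := continuous_gk 2 s
    exact Continuous.aestronglyMeasurable (by fun_prop)
  have hi : Integrable (Function.uncurry F) ((volume.prod volume).prod volume) := by
    rw [integrable_prod_iff hm]
    constructor
    · exact Filter.Eventually.of_forall fun p => (integrable_gk_conv hs p.1 p.2).const_mul (f p.1 * f p.2)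
    · refine (hff.abs.mul_const (GG 4 / s ^ 3)).mono' hm.norm.integral_prod_right'
        (Filter.Eventually.of_forall fun p => ?_)
      rw [Real.norm_of_nonneg (integral_nonneg fun y => norm_nonneg _)]
      have e : (fun z => ‖Function.uncurry F (p, z)‖)
          = fun z => |f p.1 * f p.2| * (gk 2 s (p.1 - z) * gk 2 s (p.2 - z)) := by
        funext z
        simp only [Function.uncurry, hF]
        rw [Real.norm_eq_abs, abs_mul,
          abs_of_pos (mul_pos (gk_pos _ _ _) (gk_pos _ _ _))]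
      rw [e, integral_const_mul, integral_gk_conv hs]
      refine mul_le_mul_of_nonneg_left ?_ (abs_nonneg _)
      have h1 := gk_le_one (c := 1) zero_le_one s (p.1 - p.2)
      have h2 : 0 ≤ GG 4 / s ^ 3 := by have := GG_pos (c := 4) (by norm_num); positivity
      nlinarith
  have e1 : ∀ z, ∫ p : E3 × E3, F p z ∂(volume.prod volume) = sm s f z ^ 2 := by
    intro z
    have := integral_prod_mul (μ := (volume : Measure E3)) (ν := (volume : Measure E3))
      (fun x => f x * gk 2 s (x - z)) (fun x => f x * gk 2 s (x - z))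
    rw [sq, sm, ← this]
    congr 1; funext p; simp only [hF]; ring
  constructor
  · have := hi.integral_prod_right
    simp only [Function.uncurry, e1] at this
    exact this
  · have := integral_integral_swap hi
    simp only [e1] at this
    rw [← this, gJ, ← integral_mul_const]
    congr 1; funext p
    simp only [hF]
    rw [integral_const_mul, integral_gk_conv hs]; ring

lemma gJ_nonneg {f : E3 → ℝ} (hf : Integrable f) {s : ℝ} (hs : 0 < s) : 0 ≤ gJ f s := by
  have h := (sm_sq hf hs).2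
  have h1 : 0 ≤ ∫ z, sm s f z ^ 2 := integral_nonneg fun z => sq_nonneg _
  have h2 : 0 < GG 4 / s ^ 3 := by have := GG_pos (c := 4) (by norm_num); positivity
  rw [h] at h1
  exact nonneg_of_mul_nonneg_left h1 h2

lemma integral_gk_scale {v : E3} (hv : v ≠ 0) :
    IntegrableOn (fun s => gk 1 s v) (Ioi 0) ∧
      ∫ s in Ioi (0 : ℝ), gk 1 s v = √Real.pi / 2 / ‖v‖ := by
  have hn : 0 < ‖v‖ := norm_pos_iff.2 hv
  have e : (fun s => gk 1 s v) = fun s : ℝ => Real.exp (-(‖v‖ ^ 2) * s ^ 2) := by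
    funext s; unfold gk; congr 1; ring
  rw [e]
  refine ⟨(integrable_exp_neg_mul_sq (by positivity)).integrableOn, ?_⟩
  rw [integral_gaussian_Ioi, Real.sqrt_div Real.pi_pos.le, Real.sqrt_sq hn.le]
  field_simp

lemma ae_ne_prod : ∀ᵐ p : E3 × E3 ∂(volume.prod volume), p.1 - p.2 ≠ 0 := by
  have hmeas : MeasurableSet {p : E3 × E3 | p.1 - p.2 ≠ 0} :=
    (isClosed_eq (by fun_prop) continuous_const).measurableSet.compl
  rw [Measure.ae_prod_iff_ae_ae hmeas]
  refine Filter.Eventually.of_forall fun x => ?_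
  have hne : ∀ᵐ y : E3, y ≠ x := by rw [ae_iff]; simp
  filter_upwards [hne] with y hy
  exact sub_ne_zero.2 hy.symm

lemma cI_eq_gJ {f : E3 → ℝ} (hf : Coul f) :
    IntegrableOn (gJ f) (Ioi 0) ∧ √Real.pi / 2 * cI f f = ∫ s in Ioi (0 : ℝ), gJ f s := by
  set F : (E3 × E3) → ℝ → ℝ := fun p s => f p.1 * f p.2 * gk 1 s (p.1 - p.2) with hF
  have hff : Integrable (fun p : E3 × E3 => f p.1 * f p.2) (volume.prod volume) :=
    hf.int.mul_prod hf.int
  have hm : AEStronglyMeasurable (Function.uncurry F)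
      ((volume.prod volume).prod (volume.restrict (Ioi 0))) := by
    refine AEStronglyMeasurable.mul hff.1.comp_fst ?_
    refine Continuous.aestronglyMeasurable ?_
    unfold gk; fun_prop
  have hi : Integrable (Function.uncurry F)
      ((volume.prod volume).prod (volume.restrict (Ioi 0))) := by
    rw [integrable_prod_iff hm]
    constructor
    · filter_upwards [ae_ne_prod] with p hp
      exact (integral_gk_scale hp).1.const_mul (f p.1 * f p.2)
    · refine ((integrable_pair hf.int hf).abs.const_mul (√Real.pi / 2)).mono'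
        hm.norm.integral_prod_right' ?_
      filter_upwards [ae_ne_prod] with p hp
      rw [Real.norm_of_nonneg (integral_nonneg fun y => norm_nonneg _)]
      have e : (fun s => ‖Function.uncurry F (p, s)‖)
          = fun s => |f p.1 * f p.2| * gk 1 s (p.1 - p.2) := by
        funext z
        simp only [Function.uncurry, hF]
        rw [Real.norm_eq_abs, abs_mul, abs_of_pos (gk_pos _ _ _)]
      rw [e, integral_const_mul, (integral_gk_scale hp).2, abs_div, abs_norm]
      apply le_of_eq; ring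
  constructor
  · exact hi.integral_prod_right
  · have := integral_integral_swap hi
    unfold gJ
    rw [← this, cI, ← integral_const_mul]
    refine integral_congr_ae ?_
    filter_upwards [ae_ne_prod] with p hp
    simp only [hF]
    rw [integral_const_mul, (integral_gk_scale hp).2]; ring

lemma exists_scale {f : E3 → ℝ} (hf : Coul f) {s0 : ℝ} (hs0 : 0 < s0) :
    ∃ s, s0 ≤ s ∧ s ≤ 2 * s0 ∧ s0 * gJ f s ≤ √Real.pi / 2 * cI f f := by
  obtain ⟨hi, he⟩ := cI_eq_gJ hf
  have hsub : Icc s0 (2 * s0) ⊆ Ioi 0 := fun s hs => lt_of_lt_of_le hs0 hs.1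
  have hvol : volume (Icc s0 (2 * s0)) = ENNReal.ofReal s0 := by
    rw [Real.volume_Icc]; congr 1; ring
  obtain ⟨s, hs, hle⟩ := exists_le_setAverage (μ := volume) (s := Icc s0 (2 * s0)) (f := gJ f)
    (by rw [hvol]; simpa using hs0) (by rw [hvol]; exact ENNReal.ofReal_ne_top) (hi.mono_set hsub)
  refine ⟨s, hs.1, hs.2, ?_⟩
  rw [setAverage_eq, Measure.real, hvol, ENNReal.toReal_ofReal hs0.le, smul_eq_mul] at hle
  rw [he]
  have h1 : ∫ s in Icc s0 (2 * s0), gJ f s ≤ ∫ s in Ioi (0 : ℝ), gJ f s := by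
    refine setIntegral_mono_set hi ?_ (Filter.Eventually.of_forall hsub)
    filter_upwards [ae_restrict_mem measurableSet_Ioi] with s hs
    exact gJ_nonneg hf.int hs
  have h2 := mul_le_mul_of_nonneg_left hle hs0.le
  rw [← mul_assoc, mul_inv_cancel₀ hs0.ne', one_mul] at h2
  linarith

lemma gk_tail {s t : ℝ} (hs : 0 < s) (ht : 0 < t) {T : Set E3} (hT : MeasurableSet T) {x : E3}
    (hx : Disjoint (ball x t) T) :
    ∫ z in T, gk 2 s (x - z) ≤ GG 1 / s ^ 3 / (s * t) ^ 2 := by
  have i1 : Integrable (fun z => gk 1 s (x - z) / (s * t) ^ 2) :=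
    ((integrable_gk one_pos hs).comp_sub_left x).div_const _
  have i2 : Integrable (fun z => gk 2 s (x - z)) :=
    (integrable_gk two_pos hs).comp_sub_left x
  calc ∫ z in T, gk 2 s (x - z) ≤ ∫ z in T, gk 1 s (x - z) / (s * t) ^ 2 := by
        refine setIntegral_mono_on i2.integrableOn i1.integrableOn hT fun z hz => ?_
        have hz' : t ≤ ‖x - z‖ := by
          by_contra h
          exact Set.disjoint_left.1 hx (by rw [mem_ball, dist_comm, dist_eq_norm]; linarith) hz
        have e : gk 2 s (x - z) = gk 1 s (x - z) * gk 1 s (x - z) := by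
          unfold gk; rw [← Real.exp_add]; congr 1; ring
        rw [e, div_eq_mul_inv]
        refine mul_le_mul_of_nonneg_left ?_ (gk_pos _ _ _).le
        unfold gk
        rw [neg_mul, Real.exp_neg]
        refine inv_anti₀ (by positivity) ?_
        have h1 := Real.add_one_le_exp (1 * s ^ 2 * ‖x - z‖ ^ 2)
        have h2 : t ^ 2 ≤ ‖x - z‖ ^ 2 := by gcongr
        nlinarith [mul_le_mul_of_nonneg_left h2 (sq_nonneg s)]
    _ ≤ ∫ z, gk 1 s (x - z) / (s * t) ^ 2 := by
        refine setIntegral_le_integral i1 (Filter.Eventually.of_forall fun z => ?_)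
        have := gk_pos 1 s (x - z)
        positivity
    _ = GG 1 / s ^ 3 / (s * t) ^ 2 := by
        rw [integral_div, integral_sub_left_eq_self (gk 1 s) volume, integral_gk one_pos hs]

/-- The plateau lower bound on the Coulomb energy. -/
theorem plateau : ∃ C : ℝ, 0 < C ∧ ∀ (f : E3 → ℝ), Coul f → ∀ (s0 μ : ℝ), 0 < s0 → 0 ≤ μ →
    ∀ Q : Set E3, MeasurableSet Q → volume Q ≠ ⊤ →
    ∃ φ : E3 → ℝ, AEStronglyMeasurable φ volume ∧ (∀ x, 0 ≤ φ x ∧ φ x ≤ μ) ∧
      (∀ x t, 0 < t → ball x t ⊆ Q → μ - φ x ≤ C * μ / (s0 * t) ^ 2) ∧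
      (∀ x t, 0 < t → Disjoint (ball x t) Q → φ x ≤ C * μ / (s0 * t) ^ 2) ∧
      -(∫ x, f x * φ x) - C * μ ^ 2 * s0 ^ 2 * volume.real Q ≤ 1 / 2 * cI f f := by
  have g1 := GG_pos (c := 1) one_pos
  have g2 := GG_pos (c := 2) two_pos
  have g4 := GG_pos (c := 4) (by norm_num)
  have hpi : 0 < √Real.pi := Real.sqrt_pos.2 Real.pi_pos
  refine ⟨GG 1 / GG 2 + 2 * √Real.pi * GG 4 / GG 2 ^ 2, by positivity, ?_⟩
  intro f hf s0 μ hs0 hμ Q hQ hQv
  obtain ⟨s, hs1, hs2, hs3⟩ := exists_scale hf hs0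
  have hs : 0 < s := lt_of_lt_of_le hs0 hs1
  set Ψ : E3 → ℝ := fun x => ∫ z in Q, gk 2 s (x - z) with hΨ
  have i2 : ∀ x, Integrable (fun z => gk 2 s (x - z)) := fun x =>
    (integrable_gk two_pos hs).comp_sub_left x
  have htot : ∀ x, ∫ z, gk 2 s (x - z) = GG 2 / s ^ 3 := fun x => by
    rw [integral_sub_left_eq_self (gk 2 s) volume, integral_gk two_pos hs]
  have hΨ0 : ∀ x, 0 ≤ Ψ x := fun x => integral_nonneg fun z => (gk_pos _ _ _).le
  have hsplit : ∀ x, Ψ x + ∫ z in Qᶜ, gk 2 s (x - z) = GG 2 / s ^ 3 := fun x => by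
    rw [← htot x]; exact integral_add_compl hQ (i2 x)
  have hΨ1 : ∀ x, Ψ x ≤ GG 2 / s ^ 3 := fun x => by
    have h1 := hsplit x
    have h2 : 0 ≤ ∫ z in Qᶜ, gk 2 s (x - z) := integral_nonneg fun z => (gk_pos _ _ _).le
    linarith
  have hcont := continuous_gk 2 s
  have hmF : AEStronglyMeasurable (fun p : E3 × E3 => gk 2 s (p.1 - p.2))
      (volume.prod (volume.restrict Q)) := Continuous.aestronglyMeasurable (by fun_prop)
  have hΨm : AEStronglyMeasurable Ψ volume := hmF.integral_prod_right'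
  have htail : ∀ t, 0 < t → ∀ y, y ≤ GG 1 / s ^ 3 / (s * t) ^ 2 →
      μ * s ^ 3 / GG 2 * y
        ≤ (GG 1 / GG 2 + 2 * √Real.pi * GG 4 / GG 2 ^ 2) * μ / (s0 * t) ^ 2 := by
    intro t ht y hy
    calc μ * s ^ 3 / GG 2 * y ≤ μ * s ^ 3 / GG 2 * (GG 1 / s ^ 3 / (s * t) ^ 2) :=
          mul_le_mul_of_nonneg_left hy (by positivity)
      _ = GG 1 / GG 2 * μ / (s * t) ^ 2 := by field_simp
      _ ≤ (GG 1 / GG 2 + 2 * √Real.pi * GG 4 / GG 2 ^ 2) * μ / (s0 * t) ^ 2 := by
          gcongr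
          have : 0 ≤ 2 * √Real.pi * GG 4 / GG 2 ^ 2 := by positivity
          linarith
  refine ⟨fun x => μ * s ^ 3 / GG 2 * Ψ x, hΨm.const_mul _, fun x => ⟨?_, ?_⟩, ?_, ?_, ?_⟩
  · have := hΨ0 x; positivity
  · calc μ * s ^ 3 / GG 2 * Ψ x ≤ μ * s ^ 3 / GG 2 * (GG 2 / s ^ 3) :=
          mul_le_mul_of_nonneg_left (hΨ1 x) (by positivity)
      _ = μ := by field_simp
  · intro x t ht hb
    have h1 := gk_tail hs ht hQ.compl (x := x) (Set.disjoint_compl_right_iff_subset.2 hb)
    have h2 := htail t ht _ h1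
    have h3 := hsplit x
    have h4 : μ = μ * s ^ 3 / GG 2 * (GG 2 / s ^ 3) := by field_simp
    rw [← h3] at h4
    linarith
  · intro x t ht hb
    exact htail t ht _ (gk_tail hs ht hQ hb)
  · -- Fubini for the linear term
    have hiF : Integrable (Function.uncurry fun (x z : E3) => f x * gk 2 s (x - z))
        (volume.prod (volume.restrict Q)) := by
      have : IsFiniteMeasure (volume.restrict Q) := isFiniteMeasure_restrict.2 hQv
      refine (hf.int.abs.comp_fst (volume.restrict Q)).mono' (hf.int.1.comp_fst.mul hmF)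
        (Filter.Eventually.of_forall fun p => ?_)
      simp only [Function.uncurry]
      rw [Real.norm_eq_abs, abs_mul, abs_of_pos (gk_pos _ _ _)]
      have := gk_le_one (c := 2) zero_le_two s (p.1 - p.2)
      nlinarith [abs_nonneg (f p.1)]
    have hswap := integral_integral_swap hiF
    have hA : IntegrableOn (sm s f) Q := hiF.integral_prod_right
    have e1 : ∫ x, f x * (μ * s ^ 3 / GG 2 * Ψ x) = μ * s ^ 3 / GG 2 * ∫ z in Q, sm s f z := by
      unfold sm
      rw [← hswap, ← integral_const_mul]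
      congr 1; funext x
      rw [integral_const_mul]; ring
    rw [e1]
    obtain ⟨hsq, hsqe⟩ := sm_sq hf.int hs
    set β : ℝ := μ * √Real.pi * GG 4 / (2 * GG 2 * s0) with hβ
    have hlow : -(2 * β * ∫ z in Q, sm s f z) - β ^ 2 * volume.real Q ≤ ∫ z, sm s f z ^ 2 := by
      have hc : IntegrableOn (fun _ : E3 => β ^ 2) Q := integrableOn_const hQv
      have hA2 : IntegrableOn (fun z => -(2 * β * sm s f z)) Q := (hA.const_mul _).neg
      have h1 : ∫ z in Q, (-(2 * β * sm s f z) - β ^ 2) ≤ ∫ z in Q, sm s f z ^ 2 :=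
        setIntegral_mono_on (hA2.sub hc) hsq.integrableOn hQ fun z _ => by
          nlinarith [sq_nonneg (sm s f z + β)]
      have h2 : ∫ z in Q, sm s f z ^ 2 ≤ ∫ z, sm s f z ^ 2 :=
        setIntegral_le_integral hsq (Filter.Eventually.of_forall fun z => sq_nonneg _)
      rw [integral_sub hA2 hc, integral_neg, integral_const_mul, setIntegral_const,
        smul_eq_mul] at h1
      linarith
    rw [hsqe] at hlow
    set A := ∫ z in Q, sm s f z
    set J := gJ f s
    set v := volume.real Q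
    have hv : 0 ≤ v := measureReal_nonneg
    have k0 : 0 < s0 * s ^ 3 / (√Real.pi * GG 4) := by positivity
    have h1 := mul_le_mul_of_nonneg_left hlow k0.le
    have e2 : s0 * s ^ 3 / (√Real.pi * GG 4) * (J * (GG 4 / s ^ 3)) = s0 * J / √Real.pi := by
      field_simp
    have e3 : s0 * s ^ 3 / (√Real.pi * GG 4) * (-(2 * β * A) - β ^ 2 * v)
        = -(μ * s ^ 3 / GG 2 * A) - s ^ 3 / s0 * (μ ^ 2 * √Real.pi * GG 4 / (4 * GG 2 ^ 2) * v) := by
      rw [hβ]; field_simp; ring
    have h2 : s0 * J / √Real.pi ≤ 1 / 2 * cI f f := by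
      rw [div_le_iff₀ hpi]; linarith
    have h3 : s ^ 3 / s0 ≤ 8 * s0 ^ 2 := by
      rw [div_le_iff₀ hs0]
      calc s ^ 3 ≤ (2 * s0) ^ 3 := by gcongr
        _ = 8 * s0 ^ 2 * s0 := by ring
    have h4 := mul_le_mul_of_nonneg_right h3
      (show 0 ≤ μ ^ 2 * √Real.pi * GG 4 / (4 * GG 2 ^ 2) * v by positivity)
    have e4 : 8 * s0 ^ 2 * (μ ^ 2 * √Real.pi * GG 4 / (4 * GG 2 ^ 2) * v)
        = 2 * √Real.pi * GG 4 / GG 2 ^ 2 * μ ^ 2 * s0 ^ 2 * v := by field_simp; ring
    have h5 : 0 ≤ GG 1 / GG 2 * μ ^ 2 * s0 ^ 2 * v := by positivity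
    rw [e2, e3] at h1
    nlinarith

end Pool.Agent.Lib.MP_f7be6d_mp.Unit
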