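import Pool.Agent.Lib.MP_f7be6d_mp.TFLower

/-! Pointwise inequalities for the Thomas-Fermi energy density. -/

namespace Pool.Agent.Lib.MP_f7be6d_mp.Unit

/-- the Thomas-Fermi constant -/
noncomputable def gam : ℝ := 3 / 5 * (3 * Real.pi ^ 2) ^ (2 / 3 : ℝ)

lemma gam_ge : 12 / 5 ≤ gam := by
  have h1 : (8 : ℝ) ^ (2 / 3 : ℝ) = 4 := by
    rw [show (8 : ℝ) = 2 ^ (3 : ℕ) by norm_num, ← Real.rpow_natCast, ← Real.rpow_mul (by norm_num),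
      show ((3 : ℕ) : ℝ) * (2 / 3) = (2 : ℕ) by norm_num, Real.rpow_natCast]
    norm_num
  have h2 : (8 : ℝ) ^ (2 / 3 : ℝ) ≤ (3 * Real.pi ^ 2) ^ (2 / 3 : ℝ) :=
    Real.rpow_le_rpow (by norm_num) (by nlinarith [Real.pi_gt_three]) (by norm_num)
  unfold gam
  linarith

lemma pt_key {ρ b : ℝ} (d : ℝ) (hρ : 0 ≤ ρ) (hb : 0 < b) :
    gam * b ^ 5 - 8 * b * d ^ 2 - |d| ^ (5 / 2 : ℝ)
      ≤ gam * ρ ^ (5 / 3 : ℝ) - 5 / 3 * gam * b ^ 2 * (ρ - b ^ 3) - d * (ρ - b ^ 3) := by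
  have hg := gam_ge
  set τ := ρ ^ (1 / 3 : ℝ) with hτ
  have hτ0 : 0 ≤ τ := Real.rpow_nonneg hρ _
  have h3 : τ ^ 3 = ρ := by
    rw [hτ, ← Real.rpow_natCast, ← Real.rpow_mul hρ]; norm_num
  have h5 : ρ ^ (5 / 3 : ℝ) = τ ^ 5 := by
    rw [hτ, ← Real.rpow_natCast, ← Real.rpow_mul hρ]; norm_num
  have hd5 : 0 ≤ |d| ^ (5 / 2 : ℝ) := Real.rpow_nonneg (abs_nonneg d) _
  have e : gam * ρ ^ (5 / 3 : ℝ) - 5 / 3 * gam * b ^ 2 * (ρ - b ^ 3) - gam * b ^ 5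
      = gam * ((τ - b) ^ 2 * (τ ^ 3 + 2 * τ ^ 2 * b + 4 / 3 * τ * b ^ 2 + 2 / 3 * b ^ 3)) := by
    rw [h5, ← h3]; ring
  have hP : 0 ≤ 2 * τ ^ 2 * b + 4 / 3 * τ * b ^ 2 := by positivity
  by_cases hc : τ ≤ 2 * b
  · have h1 : (τ - b) ^ 2 * (2 / 3 * b ^ 3)
        ≤ (τ - b) ^ 2 * (τ ^ 3 + 2 * τ ^ 2 * b + 4 / 3 * τ * b ^ 2 + 2 / 3 * b ^ 3) :=
      mul_le_mul_of_nonneg_left (by nlinarith [pow_nonneg hτ0 3]) (sq_nonneg _)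
    have h2 : 12 / 5 * ((τ - b) ^ 2 * (2 / 3 * b ^ 3))
        ≤ gam * ((τ - b) ^ 2 * (τ ^ 3 + 2 * τ ^ 2 * b + 4 / 3 * τ * b ^ 2 + 2 / 3 * b ^ 3)) :=
      mul_le_mul hg h1 (by positivity) (by linarith)
    have h4 : d * (ρ - b ^ 3) ≤ |d| * |τ - b| * (7 * b ^ 2) := by
      have e2 : ρ - b ^ 3 = (τ - b) * (τ ^ 2 + τ * b + b ^ 2) := by rw [← h3]; ring
      have h6 : τ ^ 2 + τ * b + b ^ 2 ≤ 7 * b ^ 2 := by nlinarith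
      rw [e2, ← mul_assoc]
      refine le_trans (mul_le_mul_of_nonneg_right (le_abs_self _) (by positivity)) ?_
      rw [abs_mul]
      exact mul_le_mul_of_nonneg_left h6 (by positivity)
    have h7 : |d| * |τ - b| * (7 * b ^ 2)
        ≤ 12 / 5 * ((τ - b) ^ 2 * (2 / 3 * b ^ 3)) + 8 * b * d ^ 2 := by
      rw [← sq_abs (τ - b), ← sq_abs d]
      have h8 := mul_nonneg hb.le (sq_nonneg (b * |τ - b| - 35 / 16 * |d|))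
      have h9 := mul_nonneg hb.le (sq_nonneg |d|)
      have h10 := mul_nonneg (pow_nonneg hb.le 3) (sq_nonneg |τ - b|)
      nlinarith
    linarith
  · rw [not_le] at hc
    have h1 : τ ^ 2 / 4 * τ ^ 3
        ≤ (τ - b) ^ 2 * (τ ^ 3 + 2 * τ ^ 2 * b + 4 / 3 * τ * b ^ 2 + 2 / 3 * b ^ 3) :=
      mul_le_mul (by nlinarith) (by nlinarith [pow_pos hb 3]) (by positivity) (sq_nonneg _)
    have h2 : 12 / 5 * (τ ^ 2 / 4 * τ ^ 3)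
        ≤ gam * ((τ - b) ^ 2 * (τ ^ 3 + 2 * τ ^ 2 * b + 4 / 3 * τ * b ^ 2 + 2 / 3 * b ^ 3)) :=
      mul_le_mul hg h1 (by positivity) (by linarith)
    have h4 : d * (ρ - b ^ 3) ≤ ρ * |d| := by
      have h6 : b ^ 3 ≤ ρ := by rw [← h3]; gcongr; linarith
      have h7 : d * (ρ - b ^ 3) ≤ |d| * (ρ - b ^ 3) :=
        mul_le_mul_of_nonneg_right (le_abs_self _) (by linarith)
      nlinarith [mul_nonneg (abs_nonneg d) (pow_nonneg hb.le 3)]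
    have h7 := young53 hρ (abs_nonneg d)
    rw [h5] at h7
    have h8 : 0 ≤ 8 * b * d ^ 2 := by positivity
    nlinarith

lemma young_gam {ρ u : ℝ} (hρ : 0 ≤ ρ) (hu : 0 ≤ u) :
    -(u ^ (5 / 2 : ℝ)) ≤ gam * ρ ^ (5 / 3 : ℝ) - u * ρ := by
  have h1 := young53 hρ hu
  have h2 : 0 ≤ ρ ^ (5 / 3 : ℝ) := Real.rpow_nonneg hρ _
  have h3 : 0 ≤ u ^ (5 / 2 : ℝ) := Real.rpow_nonneg hu _
  nlinarith [gam_ge]

lemma add_rpow_le {x y : ℝ} (hx : 0 ≤ x) (hy : 0 ≤ y) :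
    (x + y) ^ (5 / 2 : ℝ) ≤ 8 * (x ^ (5 / 2 : ℝ) + y ^ (5 / 2 : ℝ)) := by
  have h2 : (2 : ℝ) ^ (5 / 2 : ℝ) ≤ 8 := by
    calc (2 : ℝ) ^ (5 / 2 : ℝ) ≤ 2 ^ ((3 : ℕ) : ℝ) :=
          Real.rpow_le_rpow_of_exponent_le (by norm_num) (by norm_num)
      _ = 8 := by rw [Real.rpow_natCast]; norm_num
  have hx5 : 0 ≤ x ^ (5 / 2 : ℝ) := Real.rpow_nonneg hx _
  have hy5 : 0 ≤ y ^ (5 / 2 : ℝ) := Real.rpow_nonneg hy _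
  rcases le_total x y with h | h
  · calc (x + y) ^ (5 / 2 : ℝ) ≤ (2 * y) ^ (5 / 2 : ℝ) :=
          Real.rpow_le_rpow (by positivity) (by linarith) (by norm_num)
      _ = 2 ^ (5 / 2 : ℝ) * y ^ (5 / 2 : ℝ) := Real.mul_rpow (by norm_num) hy
      _ ≤ _ := by nlinarith
  · calc (x + y) ^ (5 / 2 : ℝ) ≤ (2 * x) ^ (5 / 2 : ℝ) :=
          Real.rpow_le_rpow (by positivity) (by linarith) (by norm_num)
      _ = 2 ^ (5 / 2 : ℝ) * x ^ (5 / 2 : ℝ) := Real.mul_rpow (by norm_num) hx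
      _ ≤ _ := by nlinarith

lemma rpow_le_cube {m b : ℝ} (hm : 0 ≤ m) (hb : 0 < b) :
    m ^ (5 / 2 : ℝ) ≤ b * m ^ 2 + m ^ 3 / b := by
  set r := m ^ (1 / 2 : ℝ) with hr
  have hr0 : 0 ≤ r := Real.rpow_nonneg hm _
  have h2 : r ^ 2 = m := by
    rw [hr, ← Real.rpow_natCast, ← Real.rpow_mul hm]; norm_num
  have h5 : m ^ (5 / 2 : ℝ) = r ^ 5 := by
    rw [hr, ← Real.rpow_natCast, ← Real.rpow_mul hm]; norm_num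
  rw [h5, ← h2]
  have e : b * (r ^ 2) ^ 2 + (r ^ 2) ^ 3 / b - r ^ 5 = r ^ 4 / b * ((b - r / 2) ^ 2 + 3 / 4 * r ^ 2) := by
    field_simp; ring
  have : 0 ≤ r ^ 4 / b * ((b - r / 2) ^ 2 + 3 / 4 * r ^ 2) := by positivity
  linarith

lemma mu_rpow {b : ℝ} (hb : 0 ≤ b) :
    (5 / 3 * gam * b ^ 2) ^ (5 / 2 : ℝ) = (5 / 3 * gam) ^ (5 / 2 : ℝ) * b ^ 5 := by
  have hg := gam_ge
  rw [Real.mul_rpow (by linarith) (by positivity), ← Real.rpow_natCast b 2, ← Real.rpow_mul hb,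
    ← Real.rpow_natCast]
  norm_num

/-- inside the bulk -/
lemma pt_in {ρ b δ φ ν E : ℝ} (hρ : 0 ≤ ρ) (hb : 0 < b) (hφ : 0 ≤ φ) (hν : b ^ 3 ≤ ν)
    (hE : |δ - (5 / 3 * gam * b ^ 2 - φ)| ≤ E) :
    gam * b ^ 5 - 8 * (b * E ^ 2 + E ^ (5 / 2 : ℝ))
      ≤ gam * ρ ^ (5 / 3 : ℝ) - δ * ρ - φ * (ρ - ν) + δ * b ^ 3 := by
  set d := δ - (5 / 3 * gam * b ^ 2 - φ) with hd
  have h1 := pt_key d hρ hb
  have h2 : d ^ 2 ≤ E ^ 2 := by rw [← sq_abs d]; gcongr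
  have h3 : |d| ^ (5 / 2 : ℝ) ≤ E ^ (5 / 2 : ℝ) :=
    Real.rpow_le_rpow (abs_nonneg _) hE (by norm_num)
  have h4 : 0 ≤ E ^ (5 / 2 : ℝ) := Real.rpow_nonneg ((abs_nonneg _).trans hE) _
  have h5 := mul_le_mul_of_nonneg_left h2 hb.le
  have h6 := mul_le_mul_of_nonneg_left hν hφ
  have e : gam * ρ ^ (5 / 3 : ℝ) - 5 / 3 * gam * b ^ 2 * (ρ - b ^ 3) - d * (ρ - b ^ 3)
      = gam * ρ ^ (5 / 3 : ℝ) - δ * ρ - φ * (ρ - b ^ 3) + δ * b ^ 3 := by rw [hd]; ring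
  linarith

/-- in the boundary layer -/
lemma pt_layer {ρ b δ φ u r E : ℝ} (hρ : 0 ≤ ρ) (hb : 0 < b) (hφ : 0 ≤ φ)
    (hφ2 : φ ≤ 5 / 3 * gam * b ^ 2) (hu : 0 ≤ u) (hr : 0 ≤ r) (hr2 : r ≤ b ^ 3) (hE : |δ| ≤ E) :
    -(8 * (b * E ^ 2 + E ^ (5 / 2 : ℝ))) - (8 * (5 / 3 * gam) ^ (5 / 2 : ℝ) + 1) * b ^ 5
      ≤ gam * ρ ^ (5 / 3 : ℝ) - δ * ρ - φ * (ρ - u) + δ * r := by
  have hE0 : 0 ≤ E := (abs_nonneg _).trans hE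
  have hg := gam_ge
  have hμ : 0 ≤ 5 / 3 * gam * b ^ 2 := by positivity
  have h1 := young_gam hρ (add_nonneg hE0 hμ)
  have h2 := add_rpow_le hE0 hμ
  rw [mu_rpow hb.le] at h2
  have h3 : δ * ρ ≤ E * ρ := mul_le_mul_of_nonneg_right ((le_abs_self _).trans hE) hρ
  have h4 : φ * ρ ≤ 5 / 3 * gam * b ^ 2 * ρ := mul_le_mul_of_nonneg_right hφ2 hρ
  have h5 : 0 ≤ φ * u := mul_nonneg hφ hu
  have h6 : -(E * b ^ 3) ≤ δ * r := by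
    have h7 : -E ≤ δ := (abs_le.1 hE).1
    nlinarith
  have h8 : E * b ^ 3 ≤ b ^ 5 + b * E ^ 2 := by
    have := mul_nonneg hb.le (sq_nonneg (b ^ 2 - E))
    nlinarith [pow_pos hb 5, mul_nonneg hb.le (sq_nonneg E)]
  have h9 := mul_nonneg hb.le (sq_nonneg E)
  nlinarith

/-- outside -/
lemma pt_out {ρ b δ φ E κ : ℝ} (hρ : 0 ≤ ρ) (hb : 0 < b) (hE : 0 ≤ E) (h : δ + φ ≤ E + κ) :
    -(8 * (b * E ^ 2 + E ^ (5 / 2 : ℝ))) - κ * ρ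
      ≤ gam * ρ ^ (5 / 3 : ℝ) - δ * ρ - φ * ρ := by
  have h1 := young_gam hρ hE
  have h2 := mul_le_mul_of_nonneg_right h hρ
  have h3 : 0 ≤ E ^ (5 / 2 : ℝ) := Real.rpow_nonneg hE _
  have h4 := mul_nonneg hb.le (sq_nonneg E)
  nlinarith

end Pool.Agent.Lib.MP_f7be6d_mp.Unit
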