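import Pool.Agent.Lib.MP_f7be6d_mp.Unit.Gauss
import Pool.Agent.Lib.MP_f7be6d_mp.Unit.Delta
import Pool.Agent.Lib.MP_f7be6d_mp.Unit.Point

/-! Lower bound for the Thomas-Fermi functional of a dense cubic lattice. -/

open MeasureTheory Metric Set

namespace Pool.Agent.Lib.MP_f7be6d_mp.Unit

/-- lattice potential of unit charges -/
noncomputable def Vl (a : ℝ) (n : ℕ) (x : E3) : ℝ :=
  ∑ j : Fin 3 → Fin n, 1 / ‖x - ctr a (idx j)‖

/-- uniform background density -/
noncomputable def bg (z a : ℝ) (n : ℕ) (x : E3) : ℝ := z / a ^ 3 * ind 0 (n * a) x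

lemma coul_ind (α β : ℝ) : Coul (ind α β) :=
  Coul.of_bdd (integrable_ind α β) (A := 1) fun x => by
    rw [abs_of_nonneg (ind_nonneg _ _ _)]; exact ind_le_one _ _ _

lemma coul_bg (z a : ℝ) (n : ℕ) : Coul (bg z a n) :=
  ⟨(coul_ind _ _).int.const_mul _, (coul_ind _ _).mem.const_mul _⟩

lemma integrable_Vl_mul {ρ : E3 → ℝ} (hρ : Coul ρ) (a : ℝ) (n : ℕ) :
    Integrable (fun x => Vl a n x * ρ x) := by
  unfold Vl
  simp only [Finset.sum_mul]
  refine integrable_finsetSum _ fun j _ => ?_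
  refine (hρ.integrable_pot (ctr a (idx j))).congr (Filter.Eventually.of_forall fun x => ?_)
  simp only
  rw [norm_sub_rev]; ring

lemma z_dlt_mul (z a : ℝ) (n : ℕ) (ρ : E3 → ℝ) (x : E3) :
    z * dlt a n x * ρ x = z * (Vl a n x * ρ x) - ρ x * pot (bg z a n) x := by
  have e : pot (bg z a n) x = z / a ^ 3 * pot (ind 0 (n * a)) x := by
    unfold pot bg
    rw [← integral_const_mul]
    congr 1; funext y; ring
  rw [e]; unfold dlt Vl; ring

lemma integrable_dlt_mul {ρ : E3 → ℝ} (hρ : Coul ρ) (z a : ℝ) (n : ℕ) :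
    Integrable (fun x => z * dlt a n x * ρ x) := by
  simp only [z_dlt_mul]
  exact ((integrable_Vl_mul hρ a n).const_mul z).sub (integrable_mul_pot hρ.int (coul_bg z a n))

lemma energy_split {ρ : E3 → ℝ} (hρ : Coul ρ) (z a : ℝ) (n : ℕ) :
    -(z * ∫ x, Vl a n x * ρ x) + 1 / 2 * cI ρ ρ
      = -(∫ x, z * dlt a n x * ρ x)
        + 1 / 2 * cI (fun x => ρ x - bg z a n x) (fun x => ρ x - bg z a n x)
        - 1 / 2 * cI (bg z a n) (bg z a n) := by
  simp only [z_dlt_mul]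
  rw [integral_sub ((integrable_Vl_mul hρ a n).const_mul z)
    (integrable_mul_pot hρ.int (coul_bg z a n)), integral_const_mul,
    ← cI_eq_pot hρ.int (coul_bg z a n), cI_sub_self hρ (coul_bg z a n)]
  ring

theorem tf_lower {z : ℝ} (hz : 0 < z) : ∃ C : ℝ, 0 < C ∧
    ∀ (a b t D s0 m κ L : ℝ) (n N : ℕ) (ρ ρ0 : E3 → ℝ), 0 < a → a ≤ 1 → 0 < b →
      b ^ 3 ≤ z / a ^ 3 → 0 < t → t ≤ D → L = n * a → 2 * t ≤ L → 0 < s0 →
      C * ((2 + Real.log n) ^ 3 / a + b ^ 2 / (s0 * t) ^ 2) ≤ m →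
      C * (n ^ 3 * a ^ 2 / D ^ 3 + b ^ 2 / (s0 * t) ^ 2) ≤ κ →
      IsTFDensity N ρ → Coul ρ0 → (∀ x, 0 ≤ ρ0 x ∧ ρ0 x ≤ b ^ 3) →
      (∀ x ∈ cube t (L - t), ρ0 x = b ^ 3) → (∀ x ∉ cube (-t) (L + t), ρ0 x = 0) →
      gam * b ^ 5 * (L - 2 * t) ^ 3
        - C * (b ^ 4 * s0 ^ 2 * L ^ 3 + (b * a + 1) * n ^ 3
          + (b * m ^ 2 + m ^ 3 / b) * (L + 2 * D) ^ 3
          + b ^ 5 * ((L + 2 * t) ^ 3 - (L - 2 * t) ^ 3)) - κ * N
      ≤ gam * (∫ x, ρ x ^ (5 / 3 : ℝ)) - (∫ x, z * dlt a n x * ρ x)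
        + 1 / 2 * cI (fun x => ρ x - bg z a n x) (fun x => ρ x - bg z a n x)
        + ∫ x, z * dlt a n x * ρ0 x := by
  obtain ⟨Cp, hCp, hplat⟩ := plateau
  have hI := Ione_nonneg
  have hg := gam_ge
  have hz5 : 0 ≤ z ^ (5 / 2 : ℝ) := Real.rpow_nonneg hz.le _
  have hg5 : 0 ≤ (5 / 3 * gam) ^ (5 / 2 : ℝ) := Real.rpow_nonneg (by linarith) _
  set C : ℝ := 64 * z * (16 + 72 * Ione) + Cp * (5 / 3 * gam) + Cp * (5 / 3 * gam) ^ 2
    + 64 * (z ^ 2 + z ^ (5 / 2 : ℝ)) * Ione + 80 + (8 * (5 / 3 * gam) ^ (5 / 2 : ℝ) + 1) with hC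
  have c1 : 0 ≤ 64 * z * (16 + 72 * Ione) := by positivity
  have c2 : 0 ≤ Cp * (5 / 3 * gam) := by positivity
  have c3 : 0 ≤ Cp * (5 / 3 * gam) ^ 2 := by positivity
  have c4 : 0 ≤ 64 * (z ^ 2 + z ^ (5 / 2 : ℝ)) * Ione := by positivity
  have c5 : 0 ≤ 8 * (5 / 3 * gam) ^ (5 / 2 : ℝ) + 1 := by positivity
  refine ⟨C, by positivity, ?_⟩
  intro a b t D s0 m κ L n N ρ ρ0 ha ha1 hb hbz ht htD hL htL hs0 hm hκ hρ hρ0 hρ0b hin hout
  have hρc := Coul.of_tf hρ
  have hD : 0 < D := lt_of_lt_of_le ht htD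
  have hL0 : 0 < L := by linarith
  set μ := 5 / 3 * gam * b ^ 2 with hμ
  have hμ0 : 0 ≤ μ := by positivity
  obtain ⟨φ, hφm, hφb, hφin, hφout, hφI⟩ := hplat _ (hρc.sub (coul_bg z a n)) s0 μ hs0 hμ0
    (cube 0 L) (measurableSet_cube _ _) (volume_cube_ne_top _ _)
  rw [volume_real_cube hL0.le, sub_zero] at hφI
  have hlog : 0 ≤ 2 + Real.log n := by linarith [Real.log_natCast_nonneg n]
  set ε := Cp * μ / (s0 * t) ^ 2 with hε
  have hq : 0 ≤ b ^ 2 / (s0 * t) ^ 2 := by positivity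
  have hεC : ε ≤ C * (b ^ 2 / (s0 * t) ^ 2) := by
    have : ε = Cp * (5 / 3 * gam) * (b ^ 2 / (s0 * t) ^ 2) := by rw [hε, hμ]; ring
    rw [this]
    exact mul_le_mul_of_nonneg_right (by linarith) hq
  have hε0 : 0 ≤ ε := by positivity
  -- bounds on the regular part of the lattice potential
  set Sx : E3 → ℝ := fun x => z * (16 + 72 * Ione) *
    ∑ j : Fin 3 → Fin n, a ^ 2 / max ‖x - ctr a (idx j)‖ a ^ 3 with hSx
  have hδ : ∀ x, |z * dlt a n x| ≤ z * hs a n x + Sx x := fun x => by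
    rw [abs_mul, abs_of_pos hz]
    have := mul_le_mul_of_nonneg_left (abs_dlt_le ha n x) hz.le
    simp only [hSx]; linarith
  have hS1 : ∀ x, Sx x + ε ≤ m := fun x => by
    have h1 := mul_le_mul_of_nonneg_left (sum_reg_le ha n x)
      (show 0 ≤ z * (16 + 72 * Ione) by positivity)
    have e : z * (16 + 72 * Ione) * ((4 * (2 + Real.log n)) ^ 3 / a)
        = 64 * z * (16 + 72 * Ione) * ((2 + Real.log n) ^ 3 / a) := by ring
    have h2 : 64 * z * (16 + 72 * Ione) * ((2 + Real.log n) ^ 3 / a)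
        ≤ C * ((2 + Real.log n) ^ 3 / a) :=
      mul_le_mul_of_nonneg_right (by linarith) (by positivity)
    simp only [hSx]; linarith
  have hS2 : ∀ x ∉ cube (-D) (L + D), Sx x + ε ≤ κ := fun x hx => by
    rw [hL] at hx
    have h1 := mul_le_mul_of_nonneg_left (sum_reg_far ha hD n hx)
      (show 0 ≤ z * (16 + 72 * Ione) by positivity)
    have h2 : z * (16 + 72 * Ione) * (n ^ 3 * a ^ 2 / D ^ 3) ≤ C * (n ^ 3 * a ^ 2 / D ^ 3) :=
      mul_le_mul_of_nonneg_right (by linarith [mul_pos hz (show 0 < 16 + 72 * Ione by positivity)])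
        (by positivity)
    simp only [hSx]; linarith
  have hS0 : ∀ x, 0 ≤ Sx x := fun x => by
    simp only [hSx]
    exact mul_nonneg (by positivity) (Finset.sum_nonneg fun j _ =>
      div_nonneg (sq_nonneg _) (pow_nonneg (le_max_of_le_right ha.le) _))
  have hm0 : 0 ≤ m := by linarith [hS1 0, hS0 0]
  have hεκ : ε ≤ κ := by
    have : 0 ≤ C * (n ^ 3 * a ^ 2 / D ^ 3) := by positivity
    linarith
  have hκ0 : 0 ≤ κ := hε0.trans hεκ
  set A1 := 16 * b * z ^ 2 * a ^ (1 / 2 : ℝ) + 64 * z ^ (5 / 2 : ℝ) with hA1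
  set A2 := 80 * (b * m ^ 2 + m ^ 3 / b) with hA2
  set A3 := (8 * (5 / 3 * gam) ^ (5 / 2 : ℝ) + 1) * b ^ 5 with hA3
  have ha2 : 0 ≤ a ^ (1 / 2 : ℝ) := Real.rpow_nonneg ha.le _
  have hA3n : 0 ≤ A3 := by positivity
  -- the pointwise bound
  have hpt : ∀ x, gam * b ^ 5 * ind t (L - t) x - A1 * HH a n x - A2 * ind (-D) (L + D) x
      - A3 * (ind (-t) (L + t) x - ind t (L - t) x) - κ * ρ x
      ≤ gam * ρ x ^ (5 / 3 : ℝ) - z * dlt a n x * ρ x - (ρ x - bg z a n x) * φ x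
        + z * dlt a n x * ρ0 x := by
    intro x
    have hρx := hρ.nonneg x
    have hhs := hs_nonneg a n x
    set E := z * hs a n x + m * ind (-D) (L + D) x with hE
    have hiB := ind_nonneg (-D) (L + D) x
    have hE0 : 0 ≤ E := by positivity
    have hEb : 8 * (b * E ^ 2 + E ^ (5 / 2 : ℝ))
        ≤ A1 * HH a n x + A2 * ind (-D) (L + D) x := by
      obtain ⟨p1, p2⟩ := hs_pow_le ha n x
      have q1 : (z * hs a n x) ^ 2 ≤ z ^ 2 * (a ^ (1 / 2 : ℝ) * HH a n x) := by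
        rw [mul_pow]; exact mul_le_mul_of_nonneg_left p1 (sq_nonneg _)
      have q2 : (z * hs a n x) ^ (5 / 2 : ℝ) ≤ z ^ (5 / 2 : ℝ) * HH a n x := by
        rw [Real.mul_rpow hz.le hhs]; exact mul_le_mul_of_nonneg_left p2 hz5
      have q3 := add_rpow_le (mul_nonneg hz.le hhs) (mul_nonneg hm0 hiB)
      have q4 : E ^ 2 ≤ 2 * (z * hs a n x) ^ 2 + 2 * (m * ind (-D) (L + D) x) ^ 2 := by
        rw [hE]; linarith [sq_nonneg (z * hs a n x - m * ind (-D) (L + D) x)]
      have q5 : 16 * b * (m * ind (-D) (L + D) x) ^ 2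
          + 64 * (m * ind (-D) (L + D) x) ^ (5 / 2 : ℝ) ≤ A2 * ind (-D) (L + D) x := by
        by_cases hx : x ∈ cube (-D) (L + D)
        · rw [ind_of_mem hx, mul_one, mul_one]
          have := rpow_le_cube hm0 hb
          have h2 : 0 ≤ m ^ 3 / b := by positivity
          rw [hA2]; linarith
        · rw [ind_of_notMem hx]; simp
      have q6 := mul_le_mul_of_nonneg_left q4 hb.le
      have q7 := mul_le_mul_of_nonneg_left q1 hb.le
      rw [← hE] at q3
      rw [hA1]; linarith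
    have hκρ : 0 ≤ κ * ρ x := mul_nonneg hκ0 hρx
    have hsub1 : cube t (L - t) ⊆ cube (-t) (L + t) := cube_mono (by linarith) (by linarith)
    have hsub2 : cube (-t) (L + t) ⊆ cube (-D) (L + D) := cube_mono (by linarith) (by linarith)
    by_cases h1 : x ∈ cube t (L - t)
    · have hx0 : x ∈ cube 0 (n * a) := by
        rw [← hL]; exact cube_mono ht.le (by linarith) h1
      have e1 : bg z a n x = z / a ^ 3 := by unfold bg; rw [ind_of_mem hx0, mul_one]
      have h2 := hφin x t ht (ball_subset_cube (by simpa using h1))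
      have h3 : |z * dlt a n x - (μ - φ x)| ≤ E := by
        refine (abs_sub _ _).trans ?_
        rw [abs_of_nonneg (sub_nonneg.2 (hφb x).2), hE, ind_of_mem (hsub2 (hsub1 h1))]
        linarith [hδ x, hS1 x]
      have h4 := pt_in hρx hb (hφb x).1 hbz h3
      rw [ind_of_mem h1, ind_of_mem (hsub1 h1), hin x h1, e1]
      linarith
    · rw [ind_of_notMem h1]
      by_cases h2 : x ∈ cube (-t) (L + t)
      · have h3 : |z * dlt a n x| ≤ E := by
          rw [hE, ind_of_mem (hsub2 h2)]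
          linarith [hδ x, hS1 x]
        have hu : 0 ≤ bg z a n x := mul_nonneg (by positivity) (ind_nonneg _ _ _)
        have h4 := pt_layer hρx hb (hφb x).1 (hφb x).2 hu (hρ0b x).1 (hρ0b x).2 h3
        rw [ind_of_mem h2]
        linarith
      · have hx0 : x ∉ cube 0 (n * a) := by
          rw [← hL]; exact fun h => h2 (cube_mono (by linarith) (by linarith) h)
        have e1 : bg z a n x = 0 := by unfold bg; rw [ind_of_notMem hx0, mul_zero]
        have h3 := hφout x t ht (disjoint_ball_cube (by simpa using h2))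
        have h5 : z * dlt a n x + φ x ≤ E + κ := by
          have h6 := le_abs_self (z * dlt a n x)
          by_cases h7 : x ∈ cube (-D) (L + D)
          · rw [hE, ind_of_mem h7]; linarith [hδ x, hS1 x]
          · rw [hE, ind_of_notMem h7]; linarith [hδ x, hS2 x h7]
        have h4 := pt_out hρx hb hE0 h5
        rw [ind_of_notMem h2, hout x h2, e1]
        linarith
  -- integrate
  have i1 : Integrable (fun x => gam * b ^ 5 * ind t (L - t) x) := (integrable_ind _ _).const_mul _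
  have i2 : Integrable (fun x => A1 * HH a n x) := (integrable_HH _ _).const_mul _
  have i3 : Integrable (fun x => A2 * ind (-D) (L + D) x) := (integrable_ind _ _).const_mul _
  have i4' : Integrable (fun x => ind (-t) (L + t) x - ind t (L - t) x) :=
    (integrable_ind _ _).sub (integrable_ind _ _)
  have i4 : Integrable (fun x => A3 * (ind (-t) (L + t) x - ind t (L - t) x)) := i4'.const_mul _
  have i5 : Integrable (fun x => κ * ρ x) := hρ.memL1.const_mul _
  have j1 : Integrable (fun x => gam * ρ x ^ (5 / 3 : ℝ)) := hρ.integrable_rpow.const_mul _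
  have j2 := integrable_dlt_mul hρc z a n
  have j3 : Integrable (fun x => (ρ x - bg z a n x) * φ x) :=
    (hρc.sub (coul_bg z a n)).int.mul_bdd (c := μ) hφm (Filter.Eventually.of_forall fun x => by
      rw [Real.norm_of_nonneg (hφb x).1]; exact (hφb x).2)
  have j4 := integrable_dlt_mul hρ0 z a n
  have i12 : Integrable (fun x => gam * b ^ 5 * ind t (L - t) x - A1 * HH a n x) := i1.sub i2
  have i13 : Integrable (fun x => gam * b ^ 5 * ind t (L - t) x - A1 * HH a n x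
      - A2 * ind (-D) (L + D) x) := i12.sub i3
  have i14 : Integrable (fun x => gam * b ^ 5 * ind t (L - t) x - A1 * HH a n x
      - A2 * ind (-D) (L + D) x - A3 * (ind (-t) (L + t) x - ind t (L - t) x)) := i13.sub i4
  have j12 : Integrable (fun x => gam * ρ x ^ (5 / 3 : ℝ) - z * dlt a n x * ρ x) := j1.sub j2
  have j13 : Integrable (fun x => gam * ρ x ^ (5 / 3 : ℝ) - z * dlt a n x * ρ x
      - (ρ x - bg z a n x) * φ x) := j12.sub j3
  have hint := integral_mono (i14.sub i5) (j13.add j4) hpt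
  simp only [Pi.sub_apply, Pi.add_apply] at hint
  rw [integral_sub i14 i5, integral_sub i13 i4, integral_sub i12 i3, integral_sub i1 i2,
    integral_add j13 j4, integral_sub j12 j3, integral_sub j1 j2, integral_const_mul,
    integral_const_mul, integral_const_mul, integral_const_mul, integral_const_mul,
    integral_const_mul, integral_sub (integrable_ind _ _) (integrable_ind _ _),
    integral_ind (by linarith), integral_ind (by linarith), integral_ind (by linarith),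
    integral_HH ha] at hint
  have e1 : L - t - t = L - 2 * t := by ring
  have e2 : L + D - -D = L + 2 * D := by ring
  have e3 : L + t - -t = L + 2 * t := by ring
  rw [e1, e2, e3] at hint
  have k1 : κ * ∫ x, ρ x ≤ κ * N := mul_le_mul_of_nonneg_left hρ.mass hκ0
  have k2 : Cp * μ ^ 2 * s0 ^ 2 * L ^ 3 ≤ C * (b ^ 4 * s0 ^ 2 * L ^ 3) := by
    have : Cp * μ ^ 2 * s0 ^ 2 * L ^ 3 = Cp * (5 / 3 * gam) ^ 2 * (b ^ 4 * s0 ^ 2 * L ^ 3) := by
      rw [hμ]; ring
    rw [this]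
    exact mul_le_mul_of_nonneg_right (by linarith) (by positivity)
  have k3 : A1 * (n ^ 3 * (a ^ (1 / 2 : ℝ) * Ione)) ≤ C * ((b * a + 1) * n ^ 3) := by
    have haa : a ^ (1 / 2 : ℝ) * a ^ (1 / 2 : ℝ) = a := by
      rw [← Real.rpow_add ha]; norm_num
    have ha3 : a ^ (1 / 2 : ℝ) ≤ 1 := Real.rpow_le_one ha.le ha1 (by norm_num)
    have e : A1 * (n ^ 3 * (a ^ (1 / 2 : ℝ) * Ione))
        = (16 * z ^ 2 * Ione * (b * (a ^ (1 / 2 : ℝ) * a ^ (1 / 2 : ℝ)))
          + 64 * z ^ (5 / 2 : ℝ) * Ione * a ^ (1 / 2 : ℝ)) * n ^ 3 := by rw [hA1]; ring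
    rw [e, haa, ← mul_assoc C]
    refine mul_le_mul_of_nonneg_right ?_ (show (0 : ℝ) ≤ n ^ 3 by positivity)
    have f1 : 0 ≤ z ^ 2 * Ione := by positivity
    have f2 : 0 ≤ z ^ (5 / 2 : ℝ) * Ione := by positivity
    have f3 : 16 * z ^ 2 * Ione * (b * a) ≤ C * (b * a) :=
      mul_le_mul_of_nonneg_right (by linarith) (by positivity)
    have f4 : 64 * z ^ (5 / 2 : ℝ) * Ione * a ^ (1 / 2 : ℝ) ≤ 64 * z ^ (5 / 2 : ℝ) * Ione * 1 :=
      mul_le_mul_of_nonneg_left ha3 (by positivity)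
    linarith
  have k4 : A2 * (L + 2 * D) ^ 3 ≤ C * ((b * m ^ 2 + m ^ 3 / b) * (L + 2 * D) ^ 3) := by
    rw [hA2, mul_assoc]
    exact mul_le_mul_of_nonneg_right (by linarith) (by positivity)
  have k5 : A3 * ((L + 2 * t) ^ 3 - (L - 2 * t) ^ 3)
      ≤ C * (b ^ 5 * ((L + 2 * t) ^ 3 - (L - 2 * t) ^ 3)) := by
    rw [hA3, mul_assoc]
    refine mul_le_mul_of_nonneg_right (by linarith) (mul_nonneg (by positivity) ?_)
    have : (L - 2 * t) ^ 3 ≤ (L + 2 * t) ^ 3 := 
      pow_le_pow_left₀ (by linarith) (by linarith) 3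
    linarith
  linarith

end Pool.Agent.Lib.MP_f7be6d_mp.Unit
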