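import Pool.Agent.Lib.MP_f7be6d_mp.Unit.Modes
import Pool.Agent.Lib.MP_f7be6d_mp.Unit.TF

/-! The Hartree-Fock trial state and the gap between the two energies. -/

open MeasureTheory Set Metric

namespace Pool.Agent.Lib.MP_f7be6d_mp.Unit

lemma exch_lower {N : ℕ} {L w r t : ℝ} (hw : 0 < w) (hwL : w ≤ L) (hr : 0 < r) (hrt : w + r ≤ t)
    (htL : 2 * t ≤ L) {md : Fin N → (Fin 3 → ℤ) × Fin 2} (hmd : Function.Injective md)
    (h : ∀ p, 2 * Real.pi / L * (‖zv (md p).1‖ * r) ≤ 1) :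
    (N / L ^ 3) ^ 2 / 8 * (4 * Real.pi / 3 * r ^ 2) * (L - 2 * t) ^ 3
      ≤ ∫ q, exk (orb L w md) q ∂(volume.prod volume) := by
  have hL : 0 < L := lt_of_lt_of_le hw hwL
  have hi := integrable_exk (orb_orb hw hwL hmd)
  set c : ℝ := (N / L ^ 3) ^ 2 / 8 with hc
  have hc0 : 0 ≤ c := by positivity
  set g : E3 × E3 → ℝ := fun q =>
    c / r * ind t (L - t) q.1 * (ball (0 : E3) r).indicator (fun _ => (1 : ℝ)) (q.1 - q.2) with hg
  have hg0 : ∀ q, 0 ≤ g q := fun q =>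
    mul_nonneg (mul_nonneg (by positivity) (ind_nonneg _ _ _))
      (indicator_nonneg (fun _ _ => zero_le_one) _)
  have hle : ∀ᵐ q ∂(volume.prod volume), g q ≤ exk (orb L w md) q := by
    filter_upwards [ae_ne_prod] with q hq
    have hex : 0 ≤ exk (orb L w md) q := by unfold exk; positivity
    by_cases h1 : q.1 ∈ cube t (L - t)
    · by_cases h2 : q.1 - q.2 ∈ ball (0 : E3) r
      · simp only [hg, ind_of_mem h1, indicator_of_mem h2, mul_one]
        rw [mem_ball_zero_iff] at h2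
        have h3 : q.1 ∈ cube (w + r) (L - r) := cube_mono hrt (by linarith) h1
        have h4 : q.1 ∈ cube w L := ball_subset_cube h3 (mem_ball_self hr)
        have h5 : q.2 ∈ cube w L := ball_subset_cube h3 (by
          rw [mem_ball, dist_comm, dist_eq_norm]; exact h2)
        have h6 := gm_lower hw hL md h4 h5 fun p => le_trans (by gcongr) (h p)
        unfold exk
        exact div_le_div₀ (hc0.trans h6) h6 (norm_pos_iff.2 hq) h2.le
      · simp only [hg, indicator_of_notMem h2, mul_zero]; exact hex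
    · simp only [hg, ind_of_notMem h1, mul_zero, zero_mul]; exact hex
  have hgm : Measurable g := by
    refine Measurable.mul (Measurable.const_mul ?_ _) ?_
    · exact (measurable_const.indicator (measurableSet_cube _ _)).comp measurable_fst
    · exact (measurable_const.indicator measurableSet_ball).comp (measurable_fst.sub measurable_snd)
  have hgi : Integrable g (volume.prod volume) := by
    refine hi.mono' hgm.aestronglyMeasurable ?_
    filter_upwards [hle] with q hq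
    rwa [Real.norm_of_nonneg (hg0 q)]
  refine le_trans (le_of_eq ?_) (integral_mono_ae hgi hi hle)
  rw [integral_prod _ hgi]
  have e : ∀ x : E3, ∫ y, g (x, y) = c / r * (4 * Real.pi / 3 * r ^ 3) * ind t (L - t) x := by
    intro x
    simp only [hg]
    rw [integral_const_mul, integral_sub_left_eq_self
      ((ball (0 : E3) r).indicator (fun _ => (1 : ℝ))) volume x,
      integral_indicator measurableSet_ball, setIntegral_const, volume_real_ball3 _ hr.le]
    simp only [smul_eq_mul]; ring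
  simp only [e]
  rw [integral_const_mul, integral_ind (by linarith)]
  field_simp
  ring

lemma direct_err {z a b L w : ℝ} {n : ℕ} (hw : 0 < w) (hwL : w ≤ L) (hb : 0 < b) (hL : L = n * a)
    (h1 : b ^ 3 ≤ z / a ^ 3) (h2 : z / a ^ 3 ≤ b ^ 3 + 1 / L ^ 3)
    (hi : Integrable fun x => b ^ 3 * chi3 L w x - bg z a n x) :
    cI (fun x => b ^ 3 * chi3 L w x - bg z a n x) (fun x => b ^ 3 * chi3 L w x - bg z a n x)
      ≤ (8 * (z / a ^ 3) * w * L ^ 2 + 1)
        * (z / a ^ 3 * Ione + (8 * (z / a ^ 3) * w * L ^ 2 + 1)) := by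
  have hL0 : 0 < L := lt_of_lt_of_le hw hwL
  set ν := z / a ^ 3 with hν
  have hb3 : 0 < b ^ 3 := by positivity
  have hν0 : 0 < ν := lt_of_lt_of_le hb3 h1
  have hA : ∀ x, |b ^ 3 * chi3 L w x - bg z a n x| ≤ ν := by
    intro x
    have a1 := chi3_nonneg L w x
    have a2 := chi3_le_one L w x
    have a3 := ind_nonneg 0 (n * a) x
    have a4 := ind_le_one 0 (n * a) x
    unfold bg
    rw [← hν, abs_le]
    constructor <;> nlinarith
  have hB : ∀ x, |b ^ 3 * chi3 L w x - bg z a n x|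
      ≤ ν * (ind 0 (L + w) x - ind w L x) + 1 / L ^ 3 * ind 0 L x := by
    intro x
    have a3 : 0 ≤ 1 / L ^ 3 * ind 0 L x := mul_nonneg (by positivity) (ind_nonneg _ _ _)
    by_cases k1 : x ∈ cube w L
    · have k2 : x ∈ cube 0 L := cube_mono hw.le le_rfl k1
      have k3 : x ∈ cube 0 (L + w) := cube_mono hw.le (by linarith) k1
      unfold bg
      rw [← hL, ← hν, chi3_one hw k1, ind_of_mem k1, ind_of_mem k2, ind_of_mem k3, abs_le]
      constructor <;> linarith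
    · rw [ind_of_notMem k1]
      by_cases k3 : x ∈ cube 0 (L + w)
      · rw [ind_of_mem k3]; linarith [hA x]
      · have k2 : x ∉ cube 0 L := fun h => k3 (cube_mono le_rfl (by linarith) h)
        unfold bg
        rw [← hL, chi3_zero hw k3, ind_of_notMem k2, ind_of_notMem k3]
        simp
  have i1 : Integrable (fun x => ind 0 (L + w) x - ind w L x) :=
    (integrable_ind _ _).sub (integrable_ind _ _)
  have i2 : Integrable (fun x => ν * (ind 0 (L + w) x - ind w L x)) := i1.const_mul _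
  have i3 : Integrable (fun x => 1 / L ^ 3 * ind 0 L x) := (integrable_ind _ _).const_mul _
  have hM := integral_mono hi.abs (i2.add i3) hB
  simp only [Pi.add_apply] at hM
  rw [integral_add i2 i3, integral_const_mul, integral_const_mul,
    integral_sub (integrable_ind _ _) (integrable_ind _ _), integral_ind (by linarith),
    integral_ind hwL, integral_ind hL0.le] at hM
  have hM2 : ∫ x, |b ^ 3 * chi3 L w x - bg z a n x| ≤ 8 * ν * w * L ^ 2 + 1 := by
    refine hM.trans ?_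
    have e1 : 1 / L ^ 3 * (L - 0) ^ 3 = 1 := by field_simp; ring
    have e2 : (L + w - 0) ^ 3 - (L - w) ^ 3 ≤ 8 * w * L ^ 2 := by
      have : w ^ 2 ≤ L ^ 2 := by gcongr
      nlinarith
    nlinarith
  have hM0 : 0 ≤ ∫ x, |b ^ 3 * chi3 L w x - bg z a n x| := integral_nonneg fun x => abs_nonneg _
  have hI := Ione_nonneg
  refine (cI_le_of_bdd hi hA).trans ?_
  gcongr

/-- cube root of 3 pi^2 -/
noncomputable def gF : ℝ := (3 * Real.pi ^ 2) ^ (1 / 3 : ℝ)

lemma gF_cube : gF ^ 3 = 3 * Real.pi ^ 2 := by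
  unfold gF
  rw [← Real.rpow_natCast, ← Real.rpow_mul (by positivity)]; norm_num

lemma gam_eq : gam = 3 / 5 * gF ^ 2 := by
  unfold gF gam
  rw [← Real.rpow_natCast _ 2, ← Real.rpow_natCast _ 2, ← Real.rpow_mul (by positivity)]
  norm_num

lemma gF_ge : 3 ≤ gF := by
  have h0 : 0 ≤ gF := Real.rpow_nonneg (by positivity) _
  refine le_of_pow_le_pow_left₀ (n := 3) (by norm_num) h0 ?_
  rw [gF_cube]; nlinarith [Real.pi_gt_three]

lemma pow_five_le {K : ℝ} (hK6 : 6 ≤ K) : (K + 6) ^ 5 ≤ K ^ 5 + 186 * K ^ 4 := by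
  have b1 : 6 * K ^ 3 ≤ K ^ 4 := by nlinarith [pow_pos (show 0 < K by linarith) 3]
  have b2 : 6 * K ^ 2 ≤ K ^ 3 := by nlinarith [pow_pos (show 0 < K by linarith) 2]
  have b3 : 6 * K ≤ K ^ 2 := by nlinarith
  linarith

lemma kin_num {b L K S : ℝ} (hb : 0 < b) (hL0 : 0 < L) (hK : K = gF * b * L / (2 * Real.pi))
    (hK6 : 6 ≤ K) (hms : S ≤ 2 * (4 * Real.pi / 5 * (K + 6) ^ 5)) :
    (2 * Real.pi / L) ^ 2 * S ≤ gam * b ^ 5 * L ^ 3 + 500 * gam * (b ^ 4 * L ^ 2) := by
  have hg := gF_ge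
  have hgam := gam_ge
  have hpi := Real.pi_pos
  have a2 := pow_five_le hK6
  have a3 : (2 * Real.pi / L) ^ 2 * (2 * (4 * Real.pi / 5 * K ^ 5)) = gam * b ^ 5 * L ^ 3 := by
    have : gF ^ 5 = gF ^ 2 * (3 * Real.pi ^ 2) := by rw [← gF_cube]; ring
    rw [hK, gam_eq, div_pow (gF * b * L), mul_pow (gF * b), mul_pow gF, this]
    field_simp; ring
  have a4 : (2 * Real.pi / L) ^ 2 * (2 * (4 * Real.pi / 5 * (186 * K ^ 4)))
      ≤ 500 * gam * (b ^ 4 * L ^ 2) := by
    have b1 : (2 * Real.pi / L) ^ 2 * (2 * (4 * Real.pi / 5 * (186 * K ^ 4)))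
        = 186 / K * (gam * b ^ 5 * L ^ 3) := by
      rw [← a3]; field_simp
    have b2 : 186 / K * (gam * b ^ 5 * L ^ 3)
        = 372 * Real.pi / gF * (gam * (b ^ 4 * L ^ 2)) := by
      rw [hK]; field_simp; ring
    have b3 : 372 * Real.pi / gF ≤ 500 := by
      rw [div_le_iff₀ (by linarith)]; nlinarith [Real.pi_le_four]
    rw [b1, b2, mul_assoc 500]
    exact mul_le_mul_of_nonneg_right b3 (by positivity)
  have a5 : (2 * Real.pi / L) ^ 2 * S
      ≤ (2 * Real.pi / L) ^ 2 * (2 * (4 * Real.pi / 5 * (K ^ 5 + 186 * K ^ 4))) := by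
    refine mul_le_mul_of_nonneg_left (hms.trans ?_) (sq_nonneg _)
    gcongr
  linarith

lemma K_ge {b L : ℝ} (hbL : 16 ≤ b * L) : 6 ≤ gF * b * L / (2 * Real.pi) := by
  rw [le_div_iff₀ (by positivity)]
  nlinarith [Real.pi_le_four, gF_ge]

theorem gap {z : ℝ} (hz : 0 < z) : ∃ C c : ℝ, 0 < C ∧ 0 < c ∧
    ∀ (a b t D s0 m κ L w : ℝ) (n N k : ℕ) (e : Fin k ≃ (Fin 3 → Fin n)), 0 < a → a ≤ 1 →
      1 ≤ b → b ^ 3 = N / L ^ 3 → b ^ 3 ≤ z / a ^ 3 → z / a ^ 3 ≤ b ^ 3 + 1 / L ^ 3 →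
      0 < w → w + 1 ≤ t → t ≤ D → L = n * a → 2 * t ≤ L → 16 ≤ b * L → 0 < s0 →
      C * ((2 + Real.log n) ^ 3 / a + b ^ 2 / (s0 * t) ^ 2) ≤ m →
      C * (n ^ 3 * a ^ 2 / D ^ 3 + b ^ 2 / (s0 * t) ^ 2) ≤ κ →
      ∃ ψ : (Fin N → E3) → (Fin N → Fin 2) → ℂ, IsTestState ψ ∧ ∀ ρ, IsTFDensity N ρ →
        quantumForm (fun _ => z) (fun j => ctr a (idx (e j))) ψ + (c * b ^ 4 * (L - 2 * t) ^ 3
          - C * (b ^ 4 * s0 ^ 2 * L ^ 3 + (b * a + 1) * n ^ 3
            + (b * m ^ 2 + m ^ 3 / b) * (L + 2 * D) ^ 3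
            + b ^ 5 * ((L + 2 * t) ^ 3 - (L - 2 * t) ^ 3)
            + b ^ 5 * (L ^ 3 - (L - 2 * t) ^ 3) + b ^ 4 * L ^ 2 + N / (w * L))
          - κ * N - (8 * (z / a ^ 3) * w * L ^ 2 + 1)
            * (z / a ^ 3 * Ione + (8 * (z / a ^ 3) * w * L ^ 2 + 1)))
        ≤ tfFunctional (fun _ => z) (fun j => ctr a (idx (e j))) ρ := by
  obtain ⟨C0, hC0, htf⟩ := tf_lower hz
  have hg := gF_ge
  have hgam := gam_ge
  have hCw := Cw_nonneg
  have hpi := Real.pi_pos
  have hI := Ione_nonneg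
  refine ⟨C0 + 500 * gam + 3 * Cw, Real.pi / (48 * gF ^ 2), by positivity, by positivity, ?_⟩
  intro a b t D s0 m κ L w n N k e ha ha1 hb1 hbN hbz hzb hw hwt htD hL htL hbL hs0 hm hκ
  have hb : 0 < b := by linarith
  have ht : 0 < t := by linarith
  have hL0 : 0 < L := by linarith
  have hwL : w ≤ L := by linarith
  have hD : 0 < D := by linarith
  set K := gF * b * L / (2 * Real.pi) with hK
  have hK6 : 6 ≤ K := K_ge hbL
  have hN : (N : ℝ) = b ^ 3 * L ^ 3 := by rw [hbN]; field_simp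
  obtain ⟨md, hmd, hmK, hms⟩ := exists_modes N (K := K) (by linarith) (le_of_eq (by
    rw [hN, hK, div_pow, mul_pow, mul_pow, gF_cube]; field_simp; ring))
  have horb := orb_orb hw hwL hmd
  refine ⟨slater (orb L w md), slater_isTest horb, fun ρ hρ => ?_⟩
  have hρc := Coul.of_tf hρ
  have hd : dens (orb L w md) = fun x => b ^ 3 * chi3 L w x := by
    funext x; rw [dens_orb hL0, hbN]
  have hdc : Coul fun x => b ^ 3 * chi3 L w x := hd ▸ horb.coul_dens
  have hV : ∀ x, nucV (fun _ => z) (fun j => ctr a (idx (e j))) x = z * Vl a n x := by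
    intro x
    unfold nucV Vl
    rw [Finset.mul_sum, ← Equiv.sum_comp e]
    exact Finset.sum_congr rfl fun j _ => by ring
  have hlog : 0 ≤ 2 + Real.log n := by linarith [Real.log_natCast_nonneg n]
  have hCC : C0 ≤ C0 + 500 * gam + 3 * Cw := by linarith
  have h1 := htf a b t D s0 m κ L n N ρ (fun x => b ^ 3 * chi3 L w x) ha ha1 hb hbz ht htD hL htL
    hs0 (le_trans (by gcongr) hm) (le_trans (by gcongr) hκ) hρ hdc
    (fun x => ⟨mul_nonneg (by positivity) (chi3_nonneg _ _ _),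
      mul_le_of_le_one_right (by positivity) (chi3_le_one _ _ _)⟩)
    (fun x hx => by rw [chi3_one hw (cube_mono (by linarith) (by linarith) hx), mul_one])
    (fun x hx => by
      rw [chi3_zero hw fun h => hx (cube_mono (by linarith) (by linarith) h), mul_zero])
  have h2 := direct_err hw hwL hb hL hbz hzb (hdc.sub (coul_bg z a n)).int
  have hr : 0 < 1 / (2 * gF * b) := by positivity
  have hr1 : 1 / (2 * gF * b) ≤ 1 := by
    rw [div_le_one (by positivity)]; nlinarith only [hg, hb1]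
  have h3 := exch_lower (t := t) hw hwL hr (by linarith) htL hmd fun p => by
    have a1 : ‖zv (md p).1‖ ≤ 2 * K := by linarith [hmK p]
    calc 2 * Real.pi / L * (‖zv (md p).1‖ * (1 / (2 * gF * b)))
        ≤ 2 * Real.pi / L * (2 * K * (1 / (2 * gF * b))) := by gcongr
      _ = 1 := by rw [hK]; field_simp
  have e3 : (N / L ^ 3) ^ 2 / 8 * (4 * Real.pi / 3 * (1 / (2 * gF * b)) ^ 2) * (L - 2 * t) ^ 3
      = 2 * (Real.pi / (48 * gF ^ 2) * b ^ 4 * (L - 2 * t) ^ 3) := by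
    rw [← hbN]; field_simp; ring
  rw [e3] at h3
  have h4 : kin (orb L w md)
      ≤ gam * b ^ 5 * L ^ 3 + 500 * gam * (b ^ 4 * L ^ 2) + 3 * Cw * (N / (w * L)) := by
    have a1 := kin_orb hw hwL md
    have a2 := kin_num hb hL0 hK hK6 hms
    have e1 : 3 * N * (Cw / (w * L)) = 3 * Cw * (N / (w * L)) := by ring
    linarith only [a1, a2, e1]
  have s1 := energy_split hρc z a n
  have s2 := energy_split hdc z a n
  rw [quantumForm_slater horb, hd]
  unfold tfFunctional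
  rw [← cI_eq_iter hρc.int hρc]
  simp only [hV, mul_assoc z, integral_const_mul] at s1 s2 h1 ⊢
  change _ ≤ gam * _ - _ + _ + _
  have p1 : 0 ≤ b ^ 4 * s0 ^ 2 * L ^ 3 := by positivity
  have p2 : 0 ≤ (b * a + 1) * n ^ 3 := by positivity
  have hm0 : 0 ≤ m := le_trans (by positivity) hm
  have p3 : 0 ≤ (b * m ^ 2 + m ^ 3 / b) * (L + 2 * D) ^ 3 := by positivity
  have p4 : 0 ≤ b ^ 5 * ((L + 2 * t) ^ 3 - (L - 2 * t) ^ 3) :=
    mul_nonneg (by positivity) (sub_nonneg.2 (pow_le_pow_left₀ (by linarith) (by linarith) 3))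
  have p5 : 0 ≤ b ^ 5 * (L ^ 3 - (L - 2 * t) ^ 3) :=
    mul_nonneg (by positivity) (sub_nonneg.2 (pow_le_pow_left₀ (by linarith) (by linarith) 3))
  have p6 : 0 ≤ b ^ 4 * L ^ 2 := by positivity
  have p7 : 0 ≤ N / (w * L) := by positivity
  have p8 : 0 ≤ (8 * (z / a ^ 3) * w * L ^ 2 + 1)
      * (z / a ^ 3 * Ione + (8 * (z / a ^ 3) * w * L ^ 2 + 1)) := by positivity
  have e5 : gam * b ^ 5 * (L - 2 * t) ^ 3
      = gam * b ^ 5 * L ^ 3 - gam * (b ^ 5 * (L ^ 3 - (L - 2 * t) ^ 3)) := by ring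
  rw [e5] at h1
  generalize b ^ 4 * s0 ^ 2 * L ^ 3 = X1 at *
  generalize (b * a + 1) * (n : ℝ) ^ 3 = X2 at *
  generalize (b * m ^ 2 + m ^ 3 / b) * (L + 2 * D) ^ 3 = X3 at *
  generalize b ^ 5 * ((L + 2 * t) ^ 3 - (L - 2 * t) ^ 3) = X4 at *
  generalize b ^ 5 * (L ^ 3 - (L - 2 * t) ^ 3) = X5 at *
  generalize b ^ 4 * L ^ 2 = X6 at *
  generalize (N : ℝ) / (w * L) = X7 at *
  generalize (8 * (z / a ^ 3) * w * L ^ 2 + 1)
      * (z / a ^ 3 * Ione + (8 * (z / a ^ 3) * w * L ^ 2 + 1)) = X8 at *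
  have q1 : 0 ≤ (500 * gam + 3 * Cw) * (X1 + X2 + X3 + X4) := by positivity
  have q2 : 0 ≤ (C0 + 499 * gam + 3 * Cw) * X5 := by positivity
  have q3 : 0 ≤ (C0 + 3 * Cw) * X6 := by positivity
  have q4 : 0 ≤ (C0 + 500 * gam) * X7 := by positivity
  linarith only [q1, q2, q3, q4, p8, h1, h2, h3, h4, s1, s2]

end Pool.Agent.Lib.MP_f7be6d_mp.Unit
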