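import Pool.Agent.Lib.MP_f7be6d_mp.Unit.HF

/-! Choice of parameters. -/

open MeasureTheory Set Metric

namespace Pool.Agent.Lib.MP_f7be6d_mp.Unit

lemma pow_le99 {T : ℝ} (hT : 1 ≤ T) {j : ℕ} (hj : j ≤ 99) : T ^ j ≤ T ^ 99 :=
  pow_le_pow_right₀ hT hj

section numeric

variable {T ζ b : ℝ}

lemma err1 (hT : 1 ≤ T) (hb : 0 ≤ b) (hb2 : b ≤ ζ * T ^ 10) :
    b ^ 4 * (1 / T) ^ 2 * (T ^ 20) ^ 3 ≤ ζ ^ 4 * T ^ 99 := by
  have hT0 : 0 < T := by linarith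
  calc b ^ 4 * (1 / T) ^ 2 * (T ^ 20) ^ 3 ≤ (ζ * T ^ 10) ^ 4 * (1 / T) ^ 2 * (T ^ 20) ^ 3 := by
        gcongr
    _ = ζ ^ 4 * T ^ 98 := by field_simp
    _ ≤ _ := mul_le_mul_of_nonneg_left (pow_le99 hT (by norm_num)) (by positivity)

lemma err2 (hT : 1 ≤ T) (hζ : 0 < ζ) (hb2 : b ≤ ζ * T ^ 10) :
    (b * (1 / T ^ 10) + 1) * (T ^ 30) ^ 3 ≤ (ζ + 1) * T ^ 99 := by
  have hT0 : 0 < T := by linarith
  calc (b * (1 / T ^ 10) + 1) * (T ^ 30) ^ 3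
      ≤ (ζ * T ^ 10 * (1 / T ^ 10) + 1) * (T ^ 30) ^ 3 := by gcongr
    _ = (ζ + 1) * T ^ 90 := by field_simp
    _ ≤ _ := mul_le_mul_of_nonneg_left (pow_le99 hT (by norm_num)) (by positivity)

lemma err3 {M : ℝ} (hM : 0 ≤ M) (hT : 1 ≤ T) (hζ : 0 < ζ) (hb1 : ζ * T ^ 10 / 2 ≤ b)
    (hb2 : b ≤ ζ * T ^ 10) :
    (b * (M * T ^ 13) ^ 2 + (M * T ^ 13) ^ 3 / b) * (T ^ 20 + 2 * T ^ 21) ^ 3
      ≤ 27 * (ζ * M ^ 2 + 2 * M ^ 3 / ζ) * T ^ 99 := by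
  have hT0 : 0 < T := by linarith
  have hb : 0 < b := lt_of_lt_of_le (by positivity) hb1
  have h1 : T ^ 20 + 2 * T ^ 21 ≤ 3 * T ^ 21 := by
    have : T ^ 20 ≤ T ^ 21 := pow_le_pow_right₀ hT (by norm_num)
    linarith
  have h2 : T ^ 92 ≤ T ^ 99 := pow_le99 hT (by norm_num)
  calc (b * (M * T ^ 13) ^ 2 + (M * T ^ 13) ^ 3 / b) * (T ^ 20 + 2 * T ^ 21) ^ 3
      ≤ (ζ * T ^ 10 * (M * T ^ 13) ^ 2 + (M * T ^ 13) ^ 3 / (ζ * T ^ 10 / 2))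
        * (3 * T ^ 21) ^ 3 := by gcongr
    _ = 27 * (ζ * M ^ 2 * T ^ 99 + 2 * M ^ 3 / ζ * T ^ 92) := by field_simp; ring
    _ ≤ 27 * (ζ * M ^ 2 * T ^ 99 + 2 * M ^ 3 / ζ * T ^ 99) := by gcongr
    _ = _ := by ring

lemma err4 (hT : 1 ≤ T) (hζ : 0 < ζ) (hb : 0 ≤ b) (hb2 : b ≤ ζ * T ^ 10) :
    b ^ 5 * ((T ^ 20 + 2 * T ^ 7) ^ 3 - (T ^ 20 - 2 * T ^ 7) ^ 3) ≤ 28 * ζ ^ 5 * T ^ 99 := by
  have hT0 : 0 < T := by linarith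
  have h1 : T ^ 21 ≤ T ^ 47 := pow_le_pow_right₀ hT (by norm_num)
  have h2 : T ^ 97 ≤ T ^ 99 := pow_le99 hT (by norm_num)
  calc b ^ 5 * ((T ^ 20 + 2 * T ^ 7) ^ 3 - (T ^ 20 - 2 * T ^ 7) ^ 3)
      = b ^ 5 * (12 * T ^ 47 + 16 * T ^ 21) := by ring
    _ ≤ (ζ * T ^ 10) ^ 5 * (12 * T ^ 47 + 16 * T ^ 47) := by gcongr
    _ = 28 * ζ ^ 5 * T ^ 97 := by ring
    _ ≤ _ := by gcongr

lemma err5 (hT : 1 ≤ T) (hζ : 0 < ζ) (hb : 0 ≤ b) (hb2 : b ≤ ζ * T ^ 10) :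
    b ^ 5 * ((T ^ 20) ^ 3 - (T ^ 20 - 2 * T ^ 7) ^ 3) ≤ 14 * ζ ^ 5 * T ^ 99 := by
  have hT0 : 0 < T := by linarith
  have h1 : T ^ 21 ≤ T ^ 47 := pow_le_pow_right₀ hT (by norm_num)
  have h2 : T ^ 97 ≤ T ^ 99 := pow_le99 hT (by norm_num)
  have h3 : (T ^ 20) ^ 3 - (T ^ 20 - 2 * T ^ 7) ^ 3 ≤ 14 * T ^ 47 := by
    have e : (T ^ 20) ^ 3 - (T ^ 20 - 2 * T ^ 7) ^ 3 = 6 * T ^ 47 - 12 * T ^ 34 + 8 * T ^ 21 := by
      ring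
    have : 0 < T ^ 34 := by positivity
    linarith
  calc b ^ 5 * ((T ^ 20) ^ 3 - (T ^ 20 - 2 * T ^ 7) ^ 3)
      ≤ b ^ 5 * (14 * T ^ 47) := mul_le_mul_of_nonneg_left h3 (by positivity)
    _ ≤ (ζ * T ^ 10) ^ 5 * (14 * T ^ 47) := by gcongr
    _ = 14 * ζ ^ 5 * T ^ 97 := by ring
    _ ≤ _ := by gcongr

lemma err6 (hT : 1 ≤ T) (hb : 0 ≤ b) (hb2 : b ≤ ζ * T ^ 10) :
    b ^ 4 * (T ^ 20) ^ 2 ≤ ζ ^ 4 * T ^ 99 := by
  have hT0 : 0 < T := by linarith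
  calc b ^ 4 * (T ^ 20) ^ 2 ≤ (ζ * T ^ 10) ^ 4 * (T ^ 20) ^ 2 := by gcongr
    _ = ζ ^ 4 * T ^ 80 := by ring
    _ ≤ _ := mul_le_mul_of_nonneg_left (pow_le99 hT (by norm_num)) (by positivity)

lemma err7 {N : ℝ} (hT : 1 ≤ T) (hζ : 0 < ζ) (hN : N ≤ ζ ^ 3 * T ^ 90) :
    N / (1 / T ^ 21 * T ^ 20) ≤ ζ ^ 3 * T ^ 99 := by
  have hT0 : 0 < T := by linarith
  calc N / (1 / T ^ 21 * T ^ 20) ≤ ζ ^ 3 * T ^ 90 / (1 / T ^ 21 * T ^ 20) := by gcongr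
    _ = ζ ^ 3 * T ^ 91 := by field_simp
    _ ≤ _ := mul_le_mul_of_nonneg_left (pow_le99 hT (by norm_num)) (by positivity)

lemma err8 {N M : ℝ} (hM : 0 ≤ M) (hT : 1 ≤ T) (hζ : 0 < ζ) (hN : N ≤ ζ ^ 3 * T ^ 90) :
    M * T ^ 8 * N ≤ M * ζ ^ 3 * T ^ 99 := by
  have hT0 : 0 < T := by linarith
  calc M * T ^ 8 * N ≤ M * T ^ 8 * (ζ ^ 3 * T ^ 90) := by gcongr
    _ = M * ζ ^ 3 * T ^ 98 := by ring
    _ ≤ _ := mul_le_mul_of_nonneg_left (pow_le99 hT (by norm_num)) (by positivity)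

lemma err9 {z I : ℝ} (hz : 0 < z) (hI : 0 ≤ I) (hT : 1 ≤ T) :
    (8 * (z / (1 / T ^ 10) ^ 3) * (1 / T ^ 21) * (T ^ 20) ^ 2 + 1)
      * (z / (1 / T ^ 10) ^ 3 * I
        + (8 * (z / (1 / T ^ 10) ^ 3) * (1 / T ^ 21) * (T ^ 20) ^ 2 + 1))
      ≤ (8 * z + 1) * (z * I + (8 * z + 1)) * T ^ 99 := by
  have hT0 : 0 < T := by linarith
  have e1 : 8 * (z / (1 / T ^ 10) ^ 3) * (1 / T ^ 21) * (T ^ 20) ^ 2 = 8 * z * T ^ 49 := by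
    field_simp
  have e2 : z / (1 / T ^ 10) ^ 3 = z * T ^ 30 := by field_simp
  have h1 : 1 ≤ T ^ 49 := one_le_pow₀ hT
  have h2 : T ^ 30 ≤ T ^ 49 := pow_le_pow_right₀ hT (by norm_num)
  rw [e1, e2]
  calc (8 * z * T ^ 49 + 1) * (z * T ^ 30 * I + (8 * z * T ^ 49 + 1))
      ≤ (8 * z * T ^ 49 + T ^ 49) * (z * T ^ 49 * I + (8 * z * T ^ 49 + T ^ 49)) := by gcongr
    _ = (8 * z + 1) * (z * I + (8 * z + 1)) * T ^ 98 := by ring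
    _ ≤ _ := mul_le_mul_of_nonneg_left (pow_le99 hT (by norm_num)) (by positivity)

lemma main_low {c : ℝ} (hc : 0 < c) (hT : 2 ≤ T) (hζ : 0 < ζ) (hb1 : ζ * T ^ 10 / 2 ≤ b) :
    c * ζ ^ 4 / 128 * T * T ^ 99 ≤ c * b ^ 4 * (T ^ 20 - 2 * T ^ 7) ^ 3 := by
  have hT0 : 0 < T := by linarith
  have h1 : T ^ 20 / 2 ≤ T ^ 20 - 2 * T ^ 7 := by
    have a1 : (2 : ℝ) ^ 13 ≤ T ^ 13 := by gcongr
    have a2 : T ^ 20 = T ^ 13 * T ^ 7 := by ring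
    nlinarith [pow_pos hT0 7]
  have hb : 0 ≤ b := le_trans (by positivity) hb1
  calc c * ζ ^ 4 / 128 * T * T ^ 99 = c * (ζ * T ^ 10 / 2) ^ 4 * (T ^ 20 / 2) ^ 3 := by ring
    _ ≤ _ := by gcongr

lemma eps_le (hT : 1 ≤ T) (hb : 0 ≤ b) (hb2 : b ≤ ζ * T ^ 10) :
    b ^ 2 / (1 / T * T ^ 7) ^ 2 ≤ ζ ^ 2 * T ^ 8 := by
  have hT0 : 0 < T := by linarith
  calc b ^ 2 / (1 / T * T ^ 7) ^ 2 ≤ (ζ * T ^ 10) ^ 2 / (1 / T * T ^ 7) ^ 2 := by gcongr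
    _ = ζ ^ 2 * T ^ 8 := by field_simp

lemma log_le (hT : 1 ≤ T) :
    (2 + Real.log (T ^ 30)) ^ 3 / (1 / T ^ 10) ≤ 32 ^ 3 * T ^ 13 := by
  have hT0 : 0 < T := by linarith
  have h1 : Real.log T ≤ T := (Real.log_le_sub_one_of_pos hT0).trans (by linarith)
  have h2 : 0 ≤ Real.log T := Real.log_nonneg hT
  rw [Real.log_pow]
  push_cast
  calc (2 + 30 * Real.log T) ^ 3 / (1 / T ^ 10) ≤ (32 * T) ^ 3 / (1 / T ^ 10) := by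
        gcongr; linarith
    _ = 32 ^ 3 * T ^ 13 := by field_simp

end numeric

theorem unit_main {z : ℝ} (hz : 0 < z) : ∃ (k : ℕ) (R : Fin k → E3),
    1 ≤ ⌊z * k⌋₊ ∧ Function.Injective R ∧
      quantumEnergy ⌊z * k⌋₊ (fun _ => z) R < tfEnergy ⌊z * k⌋₊ (fun _ => z) R := by
  obtain ⟨C, c, hC, hc, hgap⟩ := gap hz
  have hI := Ione_nonneg
  obtain ⟨ζ, hζ, hζ3⟩ : ∃ ζ : ℝ, 0 < ζ ∧ ζ ^ 3 = z :=
    ⟨z ^ (1 / 3 : ℝ), Real.rpow_pos_of_pos hz _, by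
      rw [← Real.rpow_natCast, ← Real.rpow_mul hz.le]; norm_num⟩
  set M1 := C * (32 ^ 3 + ζ ^ 2) with hM1
  set M2 := C * (1 + ζ ^ 2) with hM2
  have hM10 : 0 ≤ M1 := by positivity
  have hM20 : 0 ≤ M2 := by positivity
  set C' := C * (ζ ^ 4 + (ζ + 1) + 27 * (ζ * M1 ^ 2 + 2 * M1 ^ 3 / ζ) + 28 * ζ ^ 5 + 14 * ζ ^ 5
    + ζ ^ 4 + ζ ^ 3) + M2 * ζ ^ 3 + (8 * z + 1) * (z * Ione + (8 * z + 1)) with hC'
  obtain ⟨τ, hτ⟩ := exists_nat_gt (max 2 (max (100 / ζ) (C' / (c * ζ ^ 4 / 128))))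
  set T : ℝ := (τ : ℝ) with hTd
  have hT2 : 2 ≤ T := ((le_max_left _ _).trans hτ.le)
  have hT : 1 ≤ T := by linarith
  have hT0 : 0 < T := by linarith
  have hζT : 100 ≤ ζ * T := by
    have := ((le_max_left _ _).trans (le_max_right _ _)).trans hτ.le
    rw [div_le_iff₀ hζ] at this
    linarith
  have hCT : C' < c * ζ ^ 4 / 128 * T := by
    have := ((le_max_right _ _).trans (le_max_right _ _)).trans_lt hτ
    rw [div_lt_iff₀ (by positivity)] at this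
    linarith
  have hcard : Fintype.card (Fin 3 → Fin (τ ^ 30)) = τ ^ 90 := by
    simp only [Fintype.card_fun, Fintype.card_fin]; ring
  set e : Fin (τ ^ 90) ≃ (Fin 3 → Fin (τ ^ 30)) := (Fintype.equivFinOfCardEq hcard).symm
  set N := ⌊z * ((τ ^ 90 : ℕ) : ℝ)⌋₊ with hNd
  have hk : ((τ ^ 90 : ℕ) : ℝ) = T ^ 90 := by push_cast; rfl
  have hn : ((τ ^ 30 : ℕ) : ℝ) = T ^ 30 := by push_cast; rfl
  have hzk : 2 ≤ z * T ^ 90 := by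
    have a1 : (100 : ℝ) ^ 3 ≤ (ζ * T) ^ 3 := by gcongr
    have a2 : T ^ 3 ≤ T ^ 90 := pow_le_pow_right₀ hT (by norm_num)
    have a3 := mul_le_mul_of_nonneg_left a2 hz.le
    rw [mul_pow, hζ3] at a1
    linarith
  have hN1 : (N : ℝ) ≤ z * T ^ 90 := by
    rw [hNd, hk]; exact Nat.floor_le (by positivity)
  have hN2 : z * T ^ 90 < N + 1 := by
    rw [hNd, hk]; exact Nat.lt_floor_add_one _
  have hN0 : (0 : ℝ) < N := by linarith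
  obtain ⟨b, hb0, hb3⟩ : ∃ b : ℝ, 0 < b ∧ b ^ 3 = N / (T ^ 20) ^ 3 :=
    ⟨(N / (T ^ 20) ^ 3) ^ (1 / 3 : ℝ), Real.rpow_pos_of_pos (by positivity) _, by
      rw [← Real.rpow_natCast, ← Real.rpow_mul (by positivity)]; norm_num⟩
  have e30 : z / (1 / T ^ 10) ^ 3 = z * T ^ 90 / (T ^ 20) ^ 3 := by field_simp
  have hbz : b ^ 3 ≤ z / (1 / T ^ 10) ^ 3 := by rw [hb3, e30]; gcongr
  have hzb : z / (1 / T ^ 10) ^ 3 ≤ b ^ 3 + 1 / (T ^ 20) ^ 3 := by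
    rw [hb3, e30, ← add_div]; gcongr
  have hb2 : b ≤ ζ * T ^ 10 := by
    refine le_of_pow_le_pow_left₀ (n := 3) (by norm_num) (by positivity) (hbz.trans (le_of_eq ?_))
    rw [mul_pow, hζ3]; field_simp
  have hb1 : ζ * T ^ 10 / 2 ≤ b := by
    refine le_of_pow_le_pow_left₀ (n := 3) (by norm_num) hb0.le ?_
    have : (ζ * T ^ 10 / 2) ^ 3 = z * T ^ 90 / 8 / (T ^ 20) ^ 3 := by
      rw [div_pow, mul_pow, hζ3]; field_simp; ring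
    rw [this, hb3]
    gcongr
    linarith
  have hb50 : 50 ≤ b := by
    have a1 : T ≤ T ^ 10 := le_self_pow₀ hT (by norm_num)
    have a2 := mul_le_mul_of_nonneg_left a1 hζ.le
    linarith
  have hT7 : 2 ≤ T ^ 7 := hT2.trans (le_self_pow₀ hT (by norm_num))
  have hT20 : 1 ≤ T ^ 20 := one_le_pow₀ hT
  have heps := eps_le hT hb0.le hb2
  obtain ⟨ψ, hψ, hρ⟩ := hgap (1 / T ^ 10) b (T ^ 7) (T ^ 21) (1 / T) (M1 * T ^ 13) (M2 * T ^ 8)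
    (T ^ 20) (1 / T ^ 21) (τ ^ 30) N (τ ^ 90) e (by positivity)
    (by rw [div_le_one (by positivity)]; exact one_le_pow₀ hT) (by linarith only [hb50]) hb3 hbz hzb
    (by positivity)
    (by
      have : 1 / T ^ 21 ≤ 1 := by rw [div_le_one (by positivity)]; exact one_le_pow₀ hT
      linarith only [this, hT7])
    (pow_le_pow_right₀ hT (by norm_num)) (by rw [hn]; field_simp)
    (by
      have a1 : (2 : ℝ) ≤ T ^ 13 := hT2.trans (le_self_pow₀ hT (by norm_num))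
      have a2 : T ^ 20 = T ^ 13 * T ^ 7 := by ring
      rw [a2]; gcongr)
    (by nlinarith only [hb50, hT20]) (by positivity)
    (by
      rw [hn, hM1, mul_assoc]
      refine mul_le_mul_of_nonneg_left ?_ hC.le
      have a1 := log_le hT
      have a2 : ζ ^ 2 * T ^ 8 ≤ ζ ^ 2 * T ^ 13 := by gcongr; norm_num
      linarith only [a1, a2, heps])
    (by
      rw [hn, hM2, mul_assoc]
      refine mul_le_mul_of_nonneg_left ?_ hC.le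
      have a1 : (T ^ 30) ^ 3 * (1 / T ^ 10) ^ 2 / (T ^ 21) ^ 3 = T ^ 7 := by field_simp
      have a2 : T ^ 7 ≤ T ^ 8 := pow_le_pow_right₀ hT (by norm_num)
      linarith only [a1, a2, heps])
  rw [hn] at hρ
  have hN3 : (N : ℝ) ≤ ζ ^ 3 * T ^ 90 := by rw [hζ3]; exact hN1
  have f0 := main_low hc hT2 hζ hb1
  have f1 := err1 hT hb0.le hb2
  have f2 := err2 hT hζ hb2
  have f3 := err3 hM10 hT hζ hb1 hb2
  have f4 := err4 hT hζ hb0.le hb2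
  have f5 := err5 hT hζ hb0.le hb2
  have f6 := err6 hT hb0.le hb2
  have f7 := err7 hT hζ hN3
  have f8 := err8 hM20 hT hζ hN3
  have f9 := err9 hz hI hT
  have f10 := mul_le_mul_of_nonneg_left
    (add_le_add (add_le_add (add_le_add (add_le_add (add_le_add (add_le_add f1 f2) f3) f4) f5) f6)
      f7) hC.le
  have f11 := mul_lt_mul_of_pos_right hCT (pow_pos hT0 99)
  refine ⟨τ ^ 90, fun j => ctr (1 / T ^ 10) (idx (e j)), ?_, ?_, ?_⟩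
  · have : (1 : ℝ) ≤ N := by linarith only [hN2, hzk]
    exact_mod_cast this
  · intro j j' h
    by_contra hne
    have h1 := le_dist_ctr (a := 1 / T ^ 10) (by positivity)
      (idx_injective.ne (e.injective.ne hne))
    simp only at h
    rw [h, sub_self, norm_zero] at h1
    exact absurd h1 (not_le.2 (by positivity))
  · refine lt_of_le_of_lt (iInf_le _ ⟨ψ, hψ⟩) (lt_of_lt_of_le ?_ (le_iInf fun ρ =>
      EReal.coe_le_coe_iff.2 (hρ ρ.1 ρ.2)))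
    rw [EReal.coe_lt_coe_iff]
    rw [hC'] at f11
    linarith only [f0, f8, f9, f10, f11]

end Pool.Agent.Lib.MP_f7be6d_mp.Unit
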