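import Pool.Agent.Lib.MP_f7be6d_mp.Unit.Orbitals

/-! Filling the Fermi ball with lattice modes. -/

open MeasureTheory Set Metric

namespace Pool.Agent.Lib.MP_f7be6d_mp.Unit

lemma norm_sub_zv_le {m : Fin 3 → ℤ} {x : E3} (hx : x ∈ cell 1 m) : ‖x - zv m‖ ≤ 2 := by
  have := norm_le_of_apply (v := x - zv m) (c := 1) fun i => by
    have h := hx i
    simp only [one_mul] at h
    rw [PiLp.sub_apply, abs_le]
    simp only [zv]
    constructor <;> linarith [h.1, h.2]
  linarith

lemma volume_real_ball3 (x : E3) {r : ℝ} (hr : 0 ≤ r) :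
    volume.real (ball x r) = 4 * Real.pi / 3 * r ^ 3 := by
  rw [Measure.real, EuclideanSpace.volume_ball_fin_three, ENNReal.toReal_mul, ENNReal.toReal_pow,
    ENNReal.toReal_ofReal hr, ENNReal.toReal_ofReal (by positivity)]
  ring

lemma integral_closedBall_sq {r : ℝ} (hr : 0 < r) :
    ∫ x in closedBall (0 : E3) r, (‖x‖ + 2) ^ 2 ≤ 4 * Real.pi / 5 * (r + 2) ^ 5 := by
  have e : ∫ x in closedBall (0 : E3) r, (‖x‖ + 2) ^ 2
      = ∫ x : E3, (Iic r).indicator (fun y : ℝ => (y + 2) ^ 2) ‖x‖ := by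
    rw [← integral_indicator measurableSet_closedBall]
    congr 1; funext x
    by_cases hx : ‖x‖ ≤ r
    · rw [indicator_of_mem (mem_closedBall_zero_iff.2 hx), indicator_of_mem (mem_Iic.2 hx)]
    · rw [indicator_of_notMem (mt mem_closedBall_zero_iff.1 hx),
        indicator_of_notMem (mt mem_Iic.1 hx)]
  rw [e, integral_fun_norm_addHaar, finrank_E3, volume_real_ball3 _ zero_le_one]
  have e2 : ∫ y in Ioi (0 : ℝ), y ^ (3 - 1) • (Iic r).indicator (fun y : ℝ => (y + 2) ^ 2) y
      = ∫ y in (0 : ℝ)..r, y ^ 2 * (y + 2) ^ 2 := by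
    rw [intervalIntegral.integral_of_le hr.le, ← Ioi_inter_Iic,
      ← setIntegral_indicator measurableSet_Iic]
    congr 1; funext y
    by_cases hy : y ∈ Iic r
    · rw [indicator_of_mem hy, indicator_of_mem hy, smul_eq_mul]
    · rw [indicator_of_notMem hy, indicator_of_notMem hy, smul_zero]
  rw [e2]
  have h1 : ∫ y in (0 : ℝ)..r, y ^ 2 * (y + 2) ^ 2 ≤ ∫ y in (0 : ℝ)..r, (y + 2) ^ 4 := by
    refine intervalIntegral.integral_mono_on hr.le (Continuous.intervalIntegrable (by fun_prop) _ _)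
      (Continuous.intervalIntegrable (by fun_prop) _ _) fun y hy => ?_
    have h2 : y ^ 2 ≤ (y + 2) ^ 2 := pow_le_pow_left₀ hy.1 (by linarith) 2
    nlinarith [mul_le_mul_of_nonneg_right h2 (sq_nonneg (y + 2))]
  rw [intervalIntegral.integral_comp_add_right (fun y : ℝ => y ^ 4) 2, integral_pow] at h1
  simp only [nsmul_eq_mul, smul_eq_mul]
  have h3 := mul_le_mul_of_nonneg_left h1 (show 0 ≤ 4 * Real.pi by positivity)
  norm_num at h3 ⊢
  nlinarith [Real.pi_pos]

theorem exists_modes (N : ℕ) {K : ℝ} (hK : 0 < K) (hN : (N : ℝ) ≤ 2 * (4 * Real.pi / 3 * K ^ 3)) :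
    ∃ md : Fin N → (Fin 3 → ℤ) × Fin 2, Function.Injective md ∧
      (∀ p, ‖zv (md p).1‖ ≤ K + 2) ∧
      ∑ p, ‖zv (md p).1‖ ^ 2 ≤ 2 * (4 * Real.pi / 5 * (K + 6) ^ 5) := by
  classical
  set A : Finset (Fin 3 → ℤ) :=
    (Fintype.piFinset fun _ : Fin 3 => Finset.Icc (-⌈K + 2⌉) ⌈K + 2⌉).filter
      fun m => ‖zv m‖ ≤ K + 2 with hA
  have hmem : ∀ m, m ∈ A ↔ ‖zv m‖ ≤ K + 2 := by
    intro m
    rw [hA, Finset.mem_filter, and_iff_right_iff_imp, Fintype.mem_piFinset]
    intro h i
    have h1 := abs_le.1 ((abs_apply_le (zv m) i).trans (h.trans (Int.le_ceil _)))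
    simp only [zv] at h1
    rw [Finset.mem_Icc]
    exact ⟨by exact_mod_cast h1.1, by exact_mod_cast h1.2⟩
  have hcard : 4 * Real.pi / 3 * K ^ 3 ≤ A.card := by
    rw [← volume_real_ball3 0 hK.le]
    have hsub : ball (0 : E3) K ⊆ ⋃ m ∈ A, cell 1 m := by
      intro x hx
      have h1 := mem_cell_floor one_pos x
      refine mem_biUnion (Finset.mem_coe.2 ((hmem _).2 ?_)) h1
      have h2 := norm_sub_zv_le h1
      have h3 := norm_sub_le x (x - zv fun i => ⌊x i / 1⌋)
      rw [sub_sub_cancel] at h3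
      rw [mem_ball_zero_iff] at hx
      linarith
    calc volume.real (ball (0 : E3) K) ≤ volume.real (⋃ m ∈ A, cell 1 m) :=
          measureReal_mono hsub (measure_biUnion_lt_top A.finite_toSet
            fun m _ => (volume_bx_ne_top _ _).lt_top).ne
      _ ≤ ∑ m ∈ A, volume.real (cell 1 m) := measureReal_biUnion_finset_le _ _
      _ = A.card := by simp [volume_real_cell zero_le_one]
  have hsum : ∑ m ∈ A, ‖zv m‖ ^ 2 ≤ 4 * Real.pi / 5 * (K + 6) ^ 5 := by
    have hi : IntegrableOn (fun x : E3 => (‖x‖ + 2) ^ 2) (closedBall 0 (K + 4)) :=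
      (Continuous.continuousOn (by fun_prop)).integrableOn_compact (isCompact_closedBall _ _)
    have hsub : ∀ m ∈ A, cell 1 m ⊆ closedBall (0 : E3) (K + 4) := by
      intro m hm x hx
      have h2 := norm_sub_zv_le hx
      have h3 := norm_add_le (x - zv m) (zv m)
      rw [sub_add_cancel] at h3
      rw [mem_closedBall_zero_iff]
      linarith [(hmem m).1 hm]
    calc ∑ m ∈ A, ‖zv m‖ ^ 2 ≤ ∑ m ∈ A, ∫ x in cell 1 m, (‖x‖ + 2) ^ 2 := by
          refine Finset.sum_le_sum fun m hm => ?_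
          have h1 := setIntegral_mono_on (μ := volume) (s := cell 1 m)
            (f := fun _ => ‖zv m‖ ^ 2) (integrableOn_const (volume_bx_ne_top _ _))
            (hi.mono_set (hsub m hm)) (measurableSet_cell 1 m) fun x hx => by
              have h2 := norm_sub_zv_le hx
              have h3 := norm_sub_le x (x - zv m)
              rw [sub_sub_cancel] at h3
              exact pow_le_pow_left₀ (norm_nonneg _) (by linarith) 2
          rwa [setIntegral_const, volume_real_cell zero_le_one, one_pow, one_smul] at h1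
      _ = ∫ x in ⋃ m ∈ A, cell 1 m, (‖x‖ + 2) ^ 2 :=
          (integral_biUnion_finset A (fun m _ => measurableSet_cell 1 m)
            (fun m _ m' _ h => disjoint_cell one_pos h)
            fun m hm => hi.mono_set (hsub m hm)).symm
      _ ≤ ∫ x in closedBall (0 : E3) (K + 4), (‖x‖ + 2) ^ 2 :=
          setIntegral_mono_set hi (Filter.Eventually.of_forall fun x => sq_nonneg _)
            (Filter.Eventually.of_forall (iUnion₂_subset hsub))
      _ ≤ _ := by
          have := integral_closedBall_sq (r := K + 4) (by linarith)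
          rwa [show K + 4 + 2 = K + 6 by ring] at this
  have hle : Fintype.card (Fin N) ≤ (A ×ˢ (Finset.univ : Finset (Fin 2))).card := by
    rw [Fintype.card_fin, Finset.card_product, Finset.card_univ, Fintype.card_fin]
    have : (N : ℝ) ≤ (A.card * 2 : ℕ) := by push_cast; linarith
    exact_mod_cast this
  obtain ⟨f, hf⟩ := Function.Embedding.exists_of_card_le_finset hle
  have hfA : ∀ p, f p ∈ A ×ˢ (Finset.univ : Finset (Fin 2)) := fun p =>
    Finset.mem_coe.1 (hf ⟨p, rfl⟩)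
  refine ⟨f, f.injective, fun p => (hmem _).1 (Finset.mem_product.1 (hfA p)).1, ?_⟩
  calc ∑ p, ‖zv (f p).1‖ ^ 2 = ∑ q ∈ Finset.univ.map f, ‖zv q.1‖ ^ 2 := by
        rw [Finset.sum_map]
    _ ≤ ∑ q ∈ A ×ˢ (Finset.univ : Finset (Fin 2)), ‖zv q.1‖ ^ 2 := by
        refine Finset.sum_le_sum_of_subset_of_nonneg (fun q hq => ?_) fun _ _ _ => sq_nonneg _
        obtain ⟨p, _, rfl⟩ := Finset.mem_map.1 hq
        exact hfA p
    _ = 2 * ∑ m ∈ A, ‖zv m‖ ^ 2 := by
        rw [Finset.sum_product, Finset.mul_sum]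
        simp
    _ ≤ _ := by linarith

end Pool.Agent.Lib.MP_f7be6d_mp.Unit
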