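import Pool.Agent.Lib.MP_f7be6d_mp.Unit.Window
import Pool.Agent.Lib.MP_f7be6d_mp.Unit.Energy
import Pool.Agent.Lib.MP_f7be6d_mp.Unit.Box

/-! Windowed plane waves in a cube as orbitals. -/

open MeasureTheory Set
open scoped ContDiff ComplexConjugate

namespace Pool.Agent.Lib.MP_f7be6d_mp.Unit

lemma integral_E3_prod {𝕜 : Type*} [RCLike 𝕜] (f : Fin 3 → ℝ → 𝕜) :
    ∫ x : E3, ∏ i, f i (x i) = ∏ i, ∫ t, f i t := by
  rw [← (PiLp.volume_preserving_toLp (Fin 3)).integral_comp
    (MeasurableEquiv.toLp 2 _).measurableEmbedding, ← integral_fintype_prod_volume_eq_prod]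

/-- integer vector as a point of space -/
noncomputable def zv (m : Fin 3 → ℤ) : E3 := WithLp.toLp 2 fun i => (m i : ℝ)

/-- windowed plane wave -/
noncomputable def vw (L w : ℝ) (m : Fin 3 → ℤ) (x : E3) : ℂ := ∏ i, eta L w (m i) (x i)

/-- squared window -/
noncomputable def chi3 (L w : ℝ) (x : E3) : ℝ := ∏ i, chi L w (x i) ^ 2

variable {L w : ℝ}

lemma contDiff_vw (L w : ℝ) (m : Fin 3 → ℤ) : ContDiff ℝ ∞ (vw L w m) := by
  unfold vw
  refine contDiff_prod fun i _ => (contDiff_eta L w (m i)).comp ?_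
  exact (EuclideanSpace.proj (𝕜 := ℝ) i).contDiff

lemma chi3_nonneg (L w : ℝ) (x : E3) : 0 ≤ chi3 L w x :=
  Finset.prod_nonneg fun _ _ => sq_nonneg _

lemma chi3_le_one (L w : ℝ) (x : E3) : chi3 L w x ≤ 1 :=
  Finset.prod_le_one (fun _ _ => sq_nonneg _) fun _ _ => chi_sq_le _ _ _

lemma chi3_one (hw : 0 < w) {x : E3} (hx : x ∈ cube w L) : chi3 L w x = 1 :=
  Finset.prod_eq_one fun i _ => by rw [chi_one hw (hx i).1 (hx i).2.le]; norm_num

lemma chi3_zero (hw : 0 < w) {x : E3} (hx : x ∉ cube 0 (L + w)) : chi3 L w x = 0 := by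
  rw [mem_cube, not_forall] at hx
  obtain ⟨i, hi⟩ := hx
  refine Finset.prod_eq_zero (Finset.mem_univ i) ?_
  rw [not_and_or, not_le, not_lt] at hi
  rcases hi with h | h
  · rw [chi_zero_left hw h.le]; norm_num
  · rw [chi_zero_right hw h]; norm_num

lemma norm_vw_sq (hL : 0 < L) (w : ℝ) (m : Fin 3 → ℤ) (x : E3) :
    ‖vw L w m x‖ ^ 2 = chi3 L w x / L ^ 3 := by
  unfold vw chi3
  rw [norm_prod, ← Finset.prod_pow]
  simp only [norm_eta_sq hL, Finset.prod_div_distrib, Finset.prod_const, Finset.card_univ,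
    Fintype.card_fin]

lemma compact_vw (hw : 0 < w) (hwL : w ≤ L) (m : Fin 3 → ℤ) : HasCompactSupport (vw L w m) := by
  have hL : 0 < L := lt_of_lt_of_le hw hwL
  refine HasCompactSupport.intro (isCompact_closedBall (0 : E3) (2 * (L + w))) fun x hx => ?_
  have h1 : x ∉ cube 0 (L + w) := fun h => hx (by
    rw [mem_closedBall_zero_iff]
    exact norm_le_of_apply fun i => by
      rw [abs_of_nonneg (h i).1]; exact (h i).2.le)
  have h2 := norm_vw_sq hL w m x
  rw [chi3_zero hw h1, zero_div] at h2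
  simpa using h2

lemma vw_orth (hw : 0 < w) (hwL : w ≤ L) (m m' : Fin 3 → ℤ) :
    ∫ x, vw L w m x * conj (vw L w m' x) = if m = m' then 1 else 0 := by
  unfold vw
  simp only [map_prod, ← Finset.prod_mul_distrib]
  rw [integral_E3_prod (fun i t => eta L w (m i) t * conj (eta L w (m' i) t))]
  simp only [eta_orth hw hwL]
  by_cases h : m = m'
  · simp [h]
  · obtain ⟨i, hi⟩ := Function.ne_iff.1 h
    rw [if_neg h, Finset.prod_eq_zero (Finset.mem_univ i) (if_neg hi)]

lemma fderiv_vw (L w : ℝ) (m : Fin 3 → ℤ) (a : Fin 3) (x : E3) :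
    fderiv ℝ (vw L w m) x (EuclideanSpace.single a (1 : ℝ))
      = ∏ i, (if i = a then deriv (eta L w (m i)) (x i) else eta L w (m i) (x i)) := by
  have h1 : ∀ i : Fin 3, HasFDerivAt (fun y : E3 => eta L w (m i) (y i))
      ((ContinuousLinearMap.toSpanSingleton ℝ (deriv (eta L w (m i)) (x i))).comp
        (EuclideanSpace.proj (𝕜 := ℝ) i)) x := fun i => by
    have a1 : HasFDerivAt (eta L w (m i))
        (ContinuousLinearMap.toSpanSingleton ℝ (deriv (eta L w (m i)) (x i))) (x i) :=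
      ((contDiff_eta L w (m i)).differentiable (by simp) (x i)).hasDerivAt.hasFDerivAt
    exact HasFDerivAt.comp (f := fun y : E3 => y i) x a1
      (EuclideanSpace.proj (𝕜 := ℝ) i).hasFDerivAt
  have h2 := HasFDerivAt.finsetProd (u := Finset.univ) fun i _ => h1 i
  have h3 : fderiv ℝ (vw L w m) x = _ := h2.fderiv
  rw [h3, ← Finset.mul_prod_erase _ _ (Finset.mem_univ a), if_pos rfl]
  simp only [sum_apply, smul_apply, ContinuousLinearMap.comp_apply, smul_eq_mul]
  rw [Finset.sum_eq_single a]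
  · rw [mul_comm]
    congr 1
    · simp
    · exact Finset.prod_congr rfl fun i hi => (if_neg (Finset.mem_erase.1 hi).1).symm
  · intro i _ hi
    simp [hi]
  · simp

lemma kin_vw (hw : 0 < w) (hwL : w ≤ L) (m : Fin 3 → ℤ) (a : Fin 3) :
    ∫ x, ‖fderiv ℝ (vw L w m) x (EuclideanSpace.single a (1 : ℝ))‖ ^ 2
      ≤ (2 * Real.pi * m a / L) ^ 2 + Cw / (w * L) := by
  simp only [fderiv_vw, norm_prod, ← Finset.prod_pow]
  rw [integral_E3_prod (fun i t =>
    ‖if i = a then deriv (eta L w (m i)) t else eta L w (m i) t‖ ^ 2),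
    ← Finset.mul_prod_erase _ _ (Finset.mem_univ a), Finset.prod_eq_one, mul_one]
  · simp only [if_true]
    exact integral_deriv_eta_sq hw hwL _
  · intro i hi
    simp only [if_neg (Finset.mem_erase.1 hi).1]
    exact integral_eta_sq hw hwL _

lemma re_vw_mul (hw : 0 < w) (hL : 0 < L) {m : Fin 3 → ℤ} {x y : E3} (hx : x ∈ cube w L)
    (hy : y ∈ cube w L) (h : 2 * Real.pi / L * (‖zv m‖ * ‖x - y‖) ≤ 1) :
    1 / (2 * L ^ 3) ≤ (vw L w m x * conj (vw L w m y)).re := by
  set θ : ℝ := 2 * Real.pi / L * inner ℝ (zv m) (x - y) with hθ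
  have hθ1 : |θ| ≤ 1 := by
    rw [hθ, abs_mul, abs_of_pos (by positivity)]
    exact (mul_le_mul_of_nonneg_left (abs_real_inner_le_norm _ _) (by positivity)).trans h
  have e1 : ∀ i, eta L w (m i) (x i) * conj (eta L w (m i) (y i))
      = ((L⁻¹ : ℝ) : ℂ) * Complex.exp (((2 * Real.pi * m i / L * (x i - y i) : ℝ) : ℂ)
        * Complex.I) := by
    intro i
    have h1 : (((√L)⁻¹ * (√L)⁻¹ : ℝ) : ℂ) = ((L⁻¹ : ℝ) : ℂ) := by
      rw [← mul_inv, Real.mul_self_sqrt hL.le]
    have h2 : ew L (m i) (x i) * conj (ew L (m i) (y i))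
        = Complex.exp (((2 * Real.pi * m i / L * (x i - y i) : ℝ) : ℂ) * Complex.I) := by
      unfold ew
      rw [← Complex.exp_conj, ← Complex.exp_add]
      congr 1
      simp only [map_mul, Complex.conj_ofReal, Complex.conj_I]
      push_cast; ring
    unfold eta
    rw [chi_one hw (hx i).1 (hx i).2.le, chi_one hw (hy i).1 (hy i).2.le, map_mul,
      Complex.conj_ofReal, ← h1, ← h2]
    push_cast; ring
  have e2 : vw L w m x * conj (vw L w m y) = ((L⁻¹ ^ 3 : ℝ) : ℂ) * Complex.exp (θ * Complex.I) := by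
    unfold vw
    rw [map_prod, ← Finset.prod_mul_distrib]
    simp only [e1]
    rw [Finset.prod_mul_distrib, ← Complex.exp_sum, ← Finset.sum_mul, ← Complex.ofReal_sum]
    congr 1
    · simp
    · congr 3
      rw [hθ, PiLp.inner_apply, Finset.mul_sum]
      refine Finset.sum_congr rfl fun i _ => ?_
      simp only [zv, PiLp.sub_apply, RCLike.inner_apply, conj_trivial]
      ring
  rw [e2, Complex.re_ofReal_mul, Complex.exp_ofReal_mul_I_re]
  have h3 := Real.one_sub_sq_div_two_le_cos (x := θ)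
  have h4 : θ ^ 2 ≤ 1 := by rw [← sq_abs]; nlinarith [abs_nonneg θ]
  have h5 : 1 / 2 ≤ Real.cos θ := by linarith
  calc 1 / (2 * L ^ 3) = L⁻¹ ^ 3 * (1 / 2) := by field_simp
    _ ≤ _ := mul_le_mul_of_nonneg_left h5 (by positivity)

variable {N : ℕ}

/-- the orbitals -/
noncomputable def orb (L w : ℝ) (md : Fin N → (Fin 3 → ℤ) × Fin 2) (p : Fin N) (x : E3)
    (t : Fin 2) : ℂ :=
  if t = (md p).2 then vw L w (md p).1 x else 0

lemma orb_orb (hw : 0 < w) (hwL : w ≤ L) {md : Fin N → (Fin 3 → ℤ) × Fin 2}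
    (hmd : Function.Injective md) : Orb (orb L w md) where
  smooth p t := by
    unfold orb
    split_ifs
    · exact contDiff_vw _ _ _
    · exact contDiff_const
  compact p t := by
    unfold orb
    split_ifs
    · exact compact_vw hw hwL _
    · exact HasCompactSupport.zero
  orth p q := by
    unfold ip
    rw [Finset.sum_eq_single (md p).2]
    · by_cases h : (md p).2 = (md q).2
      · simp only [orb, if_true, if_pos h, vw_orth hw hwL]
        by_cases h2 : p = q
        · simp [h2]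
        · rw [if_neg h2, if_neg fun h3 => h2 (hmd (Prod.ext h3 h))]
      · simp only [orb, if_neg h, map_zero, mul_zero, integral_zero]
        rw [if_neg fun h2 => h (by rw [h2])]
    · intro t _ ht
      simp [orb, ht]
    · simp

lemma dens_orb (hL : 0 < L) (w : ℝ) (md : Fin N → (Fin 3 → ℤ) × Fin 2) (x : E3) :
    dens (orb L w md) x = N / L ^ 3 * chi3 L w x := by
  unfold dens
  have : ∀ p, ∑ t, ‖orb L w md p x t‖ ^ 2 = chi3 L w x / L ^ 3 := by
    intro p
    rw [Finset.sum_eq_single (md p).2]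
    · simp only [orb, if_true, norm_vw_sq hL]
    · intro t _ ht
      simp [orb, ht]
    · simp
  simp only [this, Finset.sum_const, Finset.card_univ, Fintype.card_fin, nsmul_eq_mul]
  ring

lemma kin_orb (hw : 0 < w) (hwL : w ≤ L) (md : Fin N → (Fin 3 → ℤ) × Fin 2) :
    kin (orb L w md) ≤ (2 * Real.pi / L) ^ 2 * (∑ p, ‖zv (md p).1‖ ^ 2)
      + 3 * N * (Cw / (w * L)) := by
  unfold kin
  have h1 : ∀ a p, ∑ t, ∫ x, ‖dorb (orb L w md) (EuclideanSpace.single a (1 : ℝ)) p x t‖ ^ 2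
      ≤ (2 * Real.pi * (md p).1 a / L) ^ 2 + Cw / (w * L) := by
    intro a p
    rw [Finset.sum_eq_single (md p).2]
    · simp only [dorb, orb, if_true]
      exact kin_vw hw hwL _ a
    · intro t _ ht
      simp [dorb, orb, ht]
    · simp
  refine (Finset.sum_le_sum fun a _ => Finset.sum_le_sum fun p _ => h1 a p).trans (le_of_eq ?_)
  rw [Finset.sum_comm]
  simp only [Finset.sum_add_distrib, Finset.sum_const, Finset.card_univ, Fintype.card_fin,
    nsmul_eq_mul, Finset.mul_sum, EuclideanSpace.real_norm_sq_eq, zv]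
  congr 1
  · refine Finset.sum_congr rfl fun p _ => Finset.sum_congr rfl fun a _ => ?_
    ring
  · push_cast; ring

lemma gm_lower (hw : 0 < w) (hL : 0 < L) (md : Fin N → (Fin 3 → ℤ) × Fin 2) {x y : E3}
    (hx : x ∈ cube w L) (hy : y ∈ cube w L)
    (h : ∀ p, 2 * Real.pi / L * (‖zv (md p).1‖ * ‖x - y‖) ≤ 1) :
    (N / L ^ 3) ^ 2 / 8 ≤ ∑ t, ∑ t', ‖gm (orb L w md) x t y t'‖ ^ 2 := by
  have e : gm (orb L w md) x 0 y 0 + gm (orb L w md) x 1 y 1
      = ∑ p, vw L w (md p).1 x * conj (vw L w (md p).1 y) := by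
    unfold gm
    rw [← Finset.sum_add_distrib]
    refine Finset.sum_congr rfl fun p _ => ?_
    unfold orb
    generalize (md p).2 = s
    fin_cases s <;> simp
  have h1 : N / L ^ 3 / 2 ≤ (gm (orb L w md) x 0 y 0 + gm (orb L w md) x 1 y 1).re := by
    rw [e, Complex.re_sum]
    refine le_trans (le_of_eq ?_) (Finset.sum_le_sum fun p _ => re_vw_mul hw hL hx hy (h p))
    simp only [Finset.sum_const, Finset.card_univ, Fintype.card_fin, nsmul_eq_mul]
    field_simp
  have h2 := (Complex.re_le_norm _).trans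
    (norm_add_le (gm (orb L w md) x 0 y 0) (gm (orb L w md) x 1 y 1))
  have h3 : 0 ≤ N / L ^ 3 / 2 := by positivity
  have h4 := pow_le_pow_left₀ h3 (h1.trans h2) 2
  simp only [Fin.sum_univ_two]
  nlinarith [sq_nonneg (‖gm (orb L w md) x 0 y 0‖ - ‖gm (orb L w md) x 1 y 1‖),
    sq_nonneg ‖gm (orb L w md) x 0 y 1‖, sq_nonneg ‖gm (orb L w md) x 1 y 0‖]

end Pool.Agent.Lib.MP_f7be6d_mp.Unit
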