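import Pool.Agent.Lib.MP_f7be6d_mp.Unit.Split
import Pool.Agent.Lib.MP_f7be6d_mp.Unit.Coulomb

/-! Slater determinants: test states and expectation values. -/

open MeasureTheory
open scoped ContDiff ComplexConjugate

namespace Pool.Agent.Lib.MP_f7be6d_mp.Unit

variable {N : ℕ}

/-- antisymmetrised product -/
noncomputable def asum (f : Fin N → Fin N → E3 → Fin 2 → ℂ) (x : Fin N → E3)
    (s : Fin N → Fin 2) : ℂ :=
  ∑ σ : Equiv.Perm (Fin N), sg σ * ∏ l, f l (σ l) (x l) (s l)

/-- one-particle inner product -/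
noncomputable def ip (a b : E3 → Fin 2 → ℂ) : ℂ := ∑ t, ∫ x, a x t * conj (b x t)

lemma asum_mul_conj (f g : Fin N → Fin N → E3 → Fin 2 → ℂ) (x : Fin N → E3)
    (s : Fin N → Fin 2) :
    asum f x s * conj (asum g x s) = ∑ σ : Equiv.Perm (Fin N), ∑ τ : Equiv.Perm (Fin N),
      sg σ * sg τ * ∏ l, (f l (σ l) (x l) (s l) * conj (g l (τ l) (x l) (s l))) := by
  unfold asum
  rw [map_sum, Finset.sum_mul_sum]
  refine Finset.sum_congr rfl fun σ _ => Finset.sum_congr rfl fun τ _ => ?_
  rw [map_mul, conj_sg, map_prod, Finset.prod_mul_distrib]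
  ring

lemma asum_fubini {f g : Fin N → Fin N → E3 → Fin 2 → ℂ}
    (h : ∀ l p q t, Integrable (fun x => f l p x t * conj (g l q x t))) :
    (∀ s, Integrable (fun x => asum f x s * conj (asum g x s))) ∧
      ∑ s, ∫ x, asum f x s * conj (asum g x s)
        = ∑ σ : Equiv.Perm (Fin N), ∑ τ : Equiv.Perm (Fin N),
          sg σ * sg τ * ∏ l, ip (f l (σ l)) (g l (τ l)) := by
  have hi : ∀ (s : Fin N → Fin 2) (σ τ : Equiv.Perm (Fin N)), Integrable (fun x : Fin N → E3 =>
      sg σ * sg τ * ∏ l, (f l (σ l) (x l) (s l) * conj (g l (τ l) (x l) (s l)))) :=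
    fun s σ τ => (Integrable.fintype_prod
      (f := fun l y => f l (σ l) y (s l) * conj (g l (τ l) y (s l))) fun l => h _ _ _ _).const_mul _
  simp only [asum_mul_conj]
  refine ⟨fun s => integrable_finsetSum _ fun σ _ => integrable_finsetSum _ fun τ _ => hi s σ τ, ?_⟩
  have e : ∀ s : Fin N → Fin 2, ∫ x : Fin N → E3, ∑ σ : Equiv.Perm (Fin N),
      ∑ τ : Equiv.Perm (Fin N),
      sg σ * sg τ * ∏ l, (f l (σ l) (x l) (s l) * conj (g l (τ l) (x l) (s l)))
      = ∑ σ : Equiv.Perm (Fin N), ∑ τ : Equiv.Perm (Fin N), sg σ * sg τ *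
        ∏ l, ∫ y, f l (σ l) y (s l) * conj (g l (τ l) y (s l)) := by
    intro s
    rw [integral_finsetSum _ fun σ _ => integrable_finsetSum _ fun τ _ => hi s σ τ]
    refine Finset.sum_congr rfl fun σ _ => ?_
    rw [integral_finsetSum _ fun τ _ => hi s σ τ]
    refine Finset.sum_congr rfl fun τ _ => ?_
    rw [integral_const_mul, integral_fintype_prod_volume_eq_prod
      (fun l y => f l (σ l) y (s l) * conj (g l (τ l) y (s l)))]
  simp only [e]
  rw [Finset.sum_comm]
  refine Finset.sum_congr rfl fun σ _ => ?_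
  rw [Finset.sum_comm]
  refine Finset.sum_congr rfl fun τ _ => ?_
  rw [← Finset.mul_sum,
    sum_spin_prod (fun l t => ∫ y, f l (σ l) y t * conj (g l (τ l) y t))]
  rfl

/-- two-body matrix element -/
noncomputable def tb (u : Fin N → E3 → Fin 2 → ℂ) (p p' q q' : Fin N) : ℂ :=
  ∑ t, ∑ t', ∫ w : E3 × E3, u p w.1 t * conj (u p' w.1 t) * (u q w.2 t' * conj (u q' w.2 t'))
    / (‖w.1 - w.2‖ : ℝ) ∂(volume.prod volume)

lemma integrable_pair_c {a b : E3 → ℂ} (ha : Continuous a) (ha' : HasCompactSupport a)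
    (hb : Continuous b) (hb' : HasCompactSupport b) :
    Integrable (fun w : E3 × E3 => a w.1 * b w.2 / (‖w.1 - w.2‖ : ℝ)) (volume.prod volume) := by
  have h := integrable_pair (Coul.of_cont ha.norm ha'.norm).int (Coul.of_cont hb.norm hb'.norm)
  refine h.mono' ?_ (Filter.Eventually.of_forall fun w => ?_)
  · refine (Measurable.div ?_ ?_).aestronglyMeasurable
    · exact (ha.measurable.comp measurable_fst).mul (hb.measurable.comp measurable_snd)
    · fun_prop
  · rw [norm_div, norm_mul, Complex.norm_real, norm_norm]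

/-- orthonormal smooth compactly supported orbitals -/
structure Orb (u : Fin N → E3 → Fin 2 → ℂ) : Prop where
  smooth : ∀ p t, ContDiff ℝ ∞ (fun x => u p x t)
  compact : ∀ p t, HasCompactSupport (fun x => u p x t)
  orth : ∀ p q, ip (u p) (u q) = if p = q then 1 else 0

variable {u : Fin N → E3 → Fin 2 → ℂ}

lemma Orb.cont (h : Orb u) (p : Fin N) (t : Fin 2) : Continuous (fun x => u p x t) :=
  (h.smooth p t).continuous

lemma Orb.cont2 (h : Orb u) (p q : Fin N) (t : Fin 2) :
    Continuous (fun x => u p x t * conj (u q x t)) :=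
  (h.cont p t).mul (Complex.continuous_conj.comp (h.cont q t))

lemma Orb.compact2 (h : Orb u) (p q : Fin N) (t : Fin 2) :
    HasCompactSupport (fun x => u p x t * conj (u q x t)) := (h.compact p t).mul_right

lemma Orb.int2 (h : Orb u) (p q : Fin N) (t : Fin 2) :
    Integrable (fun x => u p x t * conj (u q x t)) :=
  (h.cont2 p q t).integrable_of_hasCompactSupport (h.compact2 p q t)

lemma Orb.int4 (h : Orb u) (p p' q q' : Fin N) (t t' : Fin 2) :
    Integrable (fun w : E3 × E3 => u p w.1 t * conj (u p' w.1 t) * (u q w.2 t' * conj (u q' w.2 t'))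
      / (‖w.1 - w.2‖ : ℝ)) (volume.prod volume) :=
  integrable_pair_c (a := fun x => u p x t * conj (u p' x t))
    (b := fun x => u q x t' * conj (u q' x t'))
    (h.cont2 _ _ _) (h.compact2 _ _ _) (h.cont2 _ _ _) (h.compact2 _ _ _)

lemma asum_pair (h : Orb u) {i j : Fin N} (hij : i ≠ j) :
    (∀ s, Integrable (fun x => asum (fun _ => u) x s * conj (asum (fun _ => u) x s)
      / (‖x i - x j‖ : ℝ))) ∧
      ∑ s, ∫ x, asum (fun _ => u) x s * conj (asum (fun _ => u) x s) / (‖x i - x j‖ : ℝ)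
        = ∑ σ : Equiv.Perm (Fin N),
          (tb u (σ i) (σ i) (σ j) (σ j) - tb u (σ i) (σ j) (σ j) (σ i)) := by
  have hf := fun (s : Fin N → Fin 2) (σ τ : Equiv.Perm (Fin N)) => pair_fubini i j hij
    (fun l y => u (σ l) y (s l) * conj (u (τ l) y (s l))) (fun l => h.int2 _ _ _)
    (h.int4 (σ i) (τ i) (σ j) (τ j) (s i) (s j))
  have e0 : ∀ (s : Fin N → Fin 2) (x : Fin N → E3),
      asum (fun _ => u) x s * conj (asum (fun _ => u) x s) / (‖x i - x j‖ : ℝ)
      = ∑ σ : Equiv.Perm (Fin N), ∑ τ : Equiv.Perm (Fin N), sg σ * sg τ *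
        ((∏ l, (u (σ l) (x l) (s l) * conj (u (τ l) (x l) (s l)))) / (‖x i - x j‖ : ℝ)) := by
    intro s x
    rw [asum_mul_conj, Finset.sum_div]
    refine Finset.sum_congr rfl fun σ _ => ?_
    rw [Finset.sum_div]
    refine Finset.sum_congr rfl fun τ _ => ?_
    ring
  simp only [e0]
  refine ⟨fun s => integrable_finsetSum _ fun σ _ => integrable_finsetSum _ fun τ _ =>
    (hf s σ τ).1.const_mul _, ?_⟩
  rw [← comb_two hij (tb u)]
  have e : ∀ s : Fin N → Fin 2, ∫ x : Fin N → E3, ∑ σ : Equiv.Perm (Fin N),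
      ∑ τ : Equiv.Perm (Fin N), sg σ * sg τ *
        ((∏ l, (u (σ l) (x l) (s l) * conj (u (τ l) (x l) (s l)))) / (‖x i - x j‖ : ℝ))
      = ∑ σ : Equiv.Perm (Fin N), ∑ τ : Equiv.Perm (Fin N), sg σ * sg τ *
        ((∫ w : E3 × E3, u (σ i) w.1 (s i) * conj (u (τ i) w.1 (s i))
          * (u (σ j) w.2 (s j) * conj (u (τ j) w.2 (s j))) / (‖w.1 - w.2‖ : ℝ)
            ∂(volume.prod volume))
          * ∏ l : {l // ¬(l = i ∨ l = j)}, ∫ y, u (σ l.1) y (s l.1) * conj (u (τ l.1) y (s l.1))) := by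
    intro s
    rw [integral_finsetSum _ fun σ _ => integrable_finsetSum _ fun τ _ => (hf s σ τ).1.const_mul _]
    refine Finset.sum_congr rfl fun σ _ => ?_
    rw [integral_finsetSum _ fun τ _ => (hf s σ τ).1.const_mul _]
    refine Finset.sum_congr rfl fun τ _ => ?_
    rw [integral_const_mul, (hf s σ τ).2]
  simp only [e]
  rw [Finset.sum_comm]
  refine Finset.sum_congr rfl fun σ _ => ?_
  rw [Finset.sum_comm]
  refine Finset.sum_congr rfl fun τ _ => ?_
  rw [← Finset.mul_sum, sum_spin_pair i j hij (fun t t' => ∫ w : E3 × E3,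
    u (σ i) w.1 t * conj (u (τ i) w.1 t) * (u (σ j) w.2 t' * conj (u (τ j) w.2 t'))
      / (‖w.1 - w.2‖ : ℝ) ∂(volume.prod volume))
    (fun l t => ∫ y, u (σ l) y t * conj (u (τ l) y t))]
  congr 2
  exact Finset.prod_congr rfl fun l _ => h.orth _ _

lemma asum_norm (h : Orb u) :
    (∀ s, Integrable (fun x => asum (fun _ => u) x s * conj (asum (fun _ => u) x s))) ∧
      ∑ s, ∫ x, asum (fun _ => u) x s * conj (asum (fun _ => u) x s) = (N.factorial : ℂ) := by
  obtain ⟨h1, h2⟩ := asum_fubini (f := fun _ => u) (g := fun _ => u) fun _ p q t => h.int2 p q t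
  refine ⟨h1, ?_⟩
  rw [h2, ← comb_zero]
  simp only [h.orth]

/-- replace the orbitals in slot i -/
def repl (u v : Fin N → E3 → Fin 2 → ℂ) (i : Fin N) : Fin N → Fin N → E3 → Fin 2 → ℂ :=
  fun l => if l = i then v else u

lemma repl_self (i : Fin N) : repl u u i = fun _ => u := by
  funext l; simp [repl]

lemma asum_one (h : Orb u) {v w : Fin N → E3 → Fin 2 → ℂ}
    (hvw : ∀ p q t, Integrable (fun x => v p x t * conj (w q x t))) (i : Fin N) :
    (∀ s, Integrable (fun x => asum (repl u v i) x s * conj (asum (repl u w i) x s))) ∧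
      ∑ s, ∫ x, asum (repl u v i) x s * conj (asum (repl u w i) x s)
        = ∑ σ : Equiv.Perm (Fin N), ip (v (σ i)) (w (σ i)) := by
  obtain ⟨h1, h2⟩ := asum_fubini (f := repl u v i) (g := repl u w i) fun l p q t => by
    unfold repl
    split_ifs
    · exact hvw p q t
    · exact h.int2 p q t
  refine ⟨h1, ?_⟩
  rw [h2, ← comb_one i (fun p q => ip (v p) (w q))]
  refine Finset.sum_congr rfl fun σ _ => Finset.sum_congr rfl fun τ _ => ?_
  congr 1
  refine Finset.prod_congr rfl fun l _ => ?_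
  unfold repl
  by_cases hl : l = i
  · simp only [if_pos hl]
  · simp only [if_neg hl, h.orth]

lemma asum_repl (v : Fin N → E3 → Fin 2 → ℂ) (i : Fin N) (x : Fin N → E3) (s : Fin N → Fin 2) :
    asum (repl u v i) x s = ∑ σ : Equiv.Perm (Fin N),
      sg σ * (v (σ i) (x i) (s i) * ∏ l ∈ Finset.univ.erase i, u (σ l) (x l) (s l)) := by
  unfold asum
  refine Finset.sum_congr rfl fun σ _ => ?_
  rw [← Finset.mul_prod_erase _ _ (Finset.mem_univ i)]
  congr 2
  · simp [repl]
  · refine Finset.prod_congr rfl fun l hl => ?_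
    simp [repl, (Finset.mem_erase.1 hl).1]

lemma asum_repl_mul (W : E3 → ℂ) (i : Fin N) (x : Fin N → E3) (s : Fin N → Fin 2) :
    asum (repl u (fun p y t => W y * u p y t) i) x s = W (x i) * asum (fun _ => u) x s := by
  rw [← repl_self i, asum_repl, asum_repl, Finset.mul_sum]
  refine Finset.sum_congr rfl fun σ _ => ?_
  ring

/-- directional derivative of the orbitals -/
noncomputable def dorb (u : Fin N → E3 → Fin 2 → ℂ) (e : E3) : Fin N → E3 → Fin 2 → ℂ :=
  fun p y t => fderiv ℝ (fun x => u p x t) y e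

lemma fderiv_asum (h : Orb u) (c : ℂ) (i : Fin N) (e : E3) (x : Fin N → E3)
    (s : Fin N → Fin 2) :
    fderiv ℝ (fun y => c * asum (fun _ => u) y s) x (Pi.single i e)
      = c * asum (repl u (dorb u e) i) x s := by
  have h1 : ∀ (σ : Equiv.Perm (Fin N)) (l : Fin N),
      HasFDerivAt (fun y : Fin N → E3 => u (σ l) (y l) (s l))
        ((fderiv ℝ (fun x => u (σ l) x (s l)) (x l)).comp (ContinuousLinearMap.proj l)) x :=
    fun σ l => by
      have a1 : HasFDerivAt (fun y => u (σ l) y (s l))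
          (fderiv ℝ (fun x => u (σ l) x (s l)) (x l)) (x l) :=
        ((h.smooth (σ l) (s l)).differentiable (by simp) (x l)).hasFDerivAt
      have a2 : HasFDerivAt (fun y : Fin N → E3 => y l)
          (ContinuousLinearMap.proj l : (Fin N → E3) →L[ℝ] E3) x := hasFDerivAt_apply l x
      exact HasFDerivAt.comp (g := fun y => u (σ l) y (s l)) (f := fun y : Fin N → E3 => y l)
        x a1 a2
  have h2 := fun σ : Equiv.Perm (Fin N) =>
    (HasFDerivAt.finsetProd (u := Finset.univ) fun l _ => h1 σ l).const_mul (sg σ)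
  have h3 := (HasFDerivAt.fun_sum (u := Finset.univ) fun σ _ => h2 σ).const_mul c
  unfold asum
  rw [h3.fderiv]
  change _ = c * asum (repl u (dorb u e) i) x s
  rw [asum_repl]
  simp only [smul_apply, sum_apply, smul_eq_mul,
    ContinuousLinearMap.comp_apply, ContinuousLinearMap.proj_apply]
  congr 1
  refine Finset.sum_congr rfl fun σ _ => ?_
  congr 1
  rw [Finset.sum_eq_single i]
  · simp only [Pi.single_eq_same, dorb]; ring
  · intro l _ hl
    rw [Pi.single_eq_of_ne hl, map_zero, mul_zero]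
  · simp

/-- the Slater determinant -/
noncomputable def slater (u : Fin N → E3 → Fin 2 → ℂ) (x : Fin N → E3) (s : Fin N → Fin 2) : ℂ :=
  (((√(N.factorial : ℝ))⁻¹ : ℝ) : ℂ) * asum (fun _ => u) x s

lemma norm_sq_scaled (A : ℂ) : ((‖(((√(N.factorial : ℝ))⁻¹ : ℝ) : ℂ) * A‖ ^ 2 : ℝ) : ℂ)
    = (N.factorial : ℂ)⁻¹ * (A * conj A) := by
  rw [norm_mul, mul_pow, Complex.norm_real, Real.norm_eq_abs, sq_abs, inv_pow,
    Real.sq_sqrt (Nat.cast_nonneg _), Complex.mul_conj, Complex.normSq_eq_norm_sq]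
  push_cast; ring

lemma slater_isTest (h : Orb u) : IsTestState (slater u) where
  smooth s := by
    unfold slater asum
    refine contDiff_const.mul (ContDiff.sum fun σ _ => contDiff_const.mul
      (contDiff_prod fun l _ => ?_))
    exact (h.smooth (σ l) (s l)).comp (contDiff_apply ℝ E3 l)
  compact s := by
    have hK : IsCompact (⋃ p, ⋃ t, tsupport fun x => u p x t) :=
      isCompact_iUnion fun p => isCompact_iUnion fun t => h.compact p t
    refine HasCompactSupport.intro (isCompact_univ_pi fun _ : Fin N => hK) fun x hx => ?_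
    rw [Set.mem_univ_pi, not_forall] at hx
    obtain ⟨l, hl⟩ := hx
    unfold slater asum
    rw [Finset.sum_eq_zero, mul_zero]
    intro σ _
    rw [Finset.prod_eq_zero (Finset.mem_univ l), mul_zero]
    refine image_eq_zero_of_notMem_tsupport (f := fun x => u (σ l) x (s l)) fun hm => hl ?_
    exact Set.mem_iUnion.2 ⟨σ l, Set.mem_iUnion.2 ⟨s l, hm⟩⟩
  antisymm π x s := by
    unfold slater asum
    change _ = sg π * _
    rw [mul_left_comm (sg π), Finset.mul_sum (a := sg π),
      ← Equiv.sum_comp (Equiv.mulRight π)]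
    congr 1
    refine Finset.sum_congr rfl fun σ _ => ?_
    simp only [Equiv.coe_mulRight, Function.comp, Equiv.Perm.mul_apply]
    rw [sg_mul, Equiv.prod_comp π (fun l => u (σ l) (x l) (s l))]
    ring
  normalised := by
    have h2 := (asum_norm h).2
    have hN : (N.factorial : ℂ) ≠ 0 := by exact_mod_cast N.factorial_ne_zero
    apply Complex.ofReal_injective
    push_cast
    simp only [← integral_complex_ofReal, slater, norm_sq_scaled, integral_const_mul]
    rw [← Finset.mul_sum, h2, inv_mul_cancel₀ hN]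

end Pool.Agent.Lib.MP_f7be6d_mp.Unit
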