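import Pool.Agent.Lib.MP_f7be6d_mp.Defs

/-! Fubini and permutation lemmas for Slater determinants. -/

open MeasureTheory

namespace Pool.Agent.Lib.MP_f7be6d_mp.Unit

variable {N : ℕ}

lemma pair_split (i j : Fin N) (hij : i ≠ j) :
    ∃ e : (Fin N → E3) ≃ᵐ (E3 × E3) × ({l // ¬(l = i ∨ l = j)} → E3),
      MeasurePreserving e volume ((volume.prod volume).prod (Measure.pi fun _ => volume)) ∧
      ∀ x, e x = ((x i, x j), fun l => x l.1) := by
  let f : Fin 2 ≃ {l // l = i ∨ l = j} :=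
    { toFun := fun k => if k = 0 then ⟨i, Or.inl rfl⟩ else ⟨j, Or.inr rfl⟩
      invFun := fun l => if l.1 = i then 0 else 1
      left_inv := by
        intro k
        fin_cases k
        · simp
        · simp [hij.symm]
      right_inv := by
        rintro ⟨l, rfl | rfl⟩
        · simp
        · simp [hij.symm] }
  let e1 := MeasurableEquiv.piEquivPiSubtypeProd (fun _ : Fin N => E3) (fun l => l = i ∨ l = j)
  let e2 : ({l // l = i ∨ l = j} → E3) ≃ᵐ E3 × E3 :=
    (MeasurableEquiv.piCongrLeft (fun _ => E3) f).symm.trans MeasurableEquiv.finTwoArrow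
  have h1 : MeasurePreserving e1 volume ((Measure.pi fun _ => volume).prod
      (Measure.pi fun _ => volume)) := measurePreserving_piEquivPiSubtypeProd (fun _ => volume) _
  have h2 : MeasurePreserving e2 (Measure.pi fun _ => volume) (volume.prod volume) :=
    (measurePreserving_finTwoArrow volume).comp
      ((measurePreserving_piCongrLeft (fun _ => volume) f).symm _)
  refine ⟨e1.trans (e2.prodCongr (MeasurableEquiv.refl _)), ?_, ?_⟩
  · exact (h2.prod (MeasurePreserving.id _)).comp h1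
  · intro x
    rfl

lemma prod_split {M : Type*} [CommMonoid M] (i j : Fin N) (hij : i ≠ j) (F : Fin N → M) :
    ∏ l, F l = F i * F j * ∏ l : {l // ¬(l = i ∨ l = j)}, F l.1 := by
  rw [← Finset.prod_subtype (p := fun l => ¬(l = i ∨ l = j)) ((Finset.univ.erase i).erase j)
    (by intro l; simp; tauto), mul_assoc, Finset.mul_prod_erase _ _ (by simp [hij.symm]),
    Finset.mul_prod_erase _ _ (by simp)]

lemma pair_fubini (i j : Fin N) (hij : i ≠ j) (h : Fin N → E3 → ℂ) (hh : ∀ l, Integrable (h l))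
    (hp : Integrable (fun p : E3 × E3 => h i p.1 * h j p.2 / (‖p.1 - p.2‖ : ℝ))
      (volume.prod volume)) :
    Integrable (fun x : Fin N → E3 => (∏ l, h l (x l)) / (‖x i - x j‖ : ℝ)) ∧
      ∫ x : Fin N → E3, (∏ l, h l (x l)) / (‖x i - x j‖ : ℝ)
        = (∫ p : E3 × E3, h i p.1 * h j p.2 / (‖p.1 - p.2‖ : ℝ) ∂(volume.prod volume))
          * ∏ l : {l // ¬(l = i ∨ l = j)}, ∫ x, h l.1 x := by
  obtain ⟨e, he, hx⟩ := pair_split i j hij
  set G : (E3 × E3) × ({l // ¬(l = i ∨ l = j)} → E3) → ℂ := fun q =>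
    (h i q.1.1 * h j q.1.2 / (‖q.1.1 - q.1.2‖ : ℝ)) * ∏ l, h l.1 (q.2 l) with hG
  have eq : (fun x : Fin N → E3 => (∏ l, h l (x l)) / (‖x i - x j‖ : ℝ)) = G ∘ e := by
    funext x
    simp only [Function.comp, hx, hG]
    rw [prod_split i j hij]; ring
  rw [eq]
  constructor
  · rw [he.integrable_comp_emb e.measurableEmbedding]
    exact hp.mul_prod (Integrable.fintype_prod (f := fun l : {l // ¬(l = i ∨ l = j)} => h l.1)
      fun l => hh l.1)
  · have := he.integral_comp' G
    change ∫ x, G (e x) = _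
    rw [this, hG]
    rw [integral_prod_mul (fun p : E3 × E3 => h i p.1 * h j p.2 / (‖p.1 - p.2‖ : ℝ))
      (fun y : {l // ¬(l = i ∨ l = j)} → E3 => ∏ l, h l.1 (y l)),
      integral_fintype_prod_eq_prod (fun (l : {l // ¬(l = i ∨ l = j)}) => h l.1)]

lemma sum_spin_prod (F : Fin N → Fin 2 → ℂ) :
    ∑ s : Fin N → Fin 2, ∏ l, F l (s l) = ∏ l, ∑ t, F l t := by
  rw [Finset.prod_univ_sum, Fintype.piFinset_univ]

lemma sum_spin_pair (i j : Fin N) (hij : i ≠ j) (W : Fin 2 → Fin 2 → ℂ)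
    (c : Fin N → Fin 2 → ℂ) :
    ∑ s : Fin N → Fin 2, W (s i) (s j) * ∏ l : {l // ¬(l = i ∨ l = j)}, c l.1 (s l.1)
      = (∑ t, ∑ t', W t t') * ∏ l : {l // ¬(l = i ∨ l = j)}, ∑ t, c l.1 t := by
  set F : Fin 2 → Fin 2 → Fin N → Fin 2 → ℂ := fun t t' l r =>
    if l = i then (if r = t then 1 else 0) else if l = j then (if r = t' then 1 else 0)
      else c l r with hF
  have hrest : ∀ t t' (l : {l // ¬(l = i ∨ l = j)}), F t t' l.1 = c l.1 := by
    intro t t' l
    have := not_or.1 l.2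
    funext r
    simp only [hF, if_neg this.1, if_neg this.2]
  have h1 : ∀ s : Fin N → Fin 2, W (s i) (s j) * ∏ l : {l // ¬(l = i ∨ l = j)}, c l.1 (s l.1)
      = ∑ t, ∑ t', W t t' * ∏ l, F t t' l (s l) := by
    intro s
    simp only [prod_split i j hij, hrest]
    simp [hF, hij.symm]
  simp only [h1]
  rw [Finset.sum_comm, Finset.sum_mul]
  refine Finset.sum_congr rfl fun t _ => ?_
  rw [Finset.sum_comm, Finset.sum_mul]
  refine Finset.sum_congr rfl fun t' _ => ?_
  rw [← Finset.mul_sum, sum_spin_prod, prod_split i j hij]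
  simp only [hrest]
  simp [hF, hij.symm]

lemma perm_eq_of_off {σ τ : Equiv.Perm (Fin N)} {i : Fin N} (h : ∀ l, l ≠ i → σ l = τ l) :
    σ = τ := by
  ext l
  by_cases hl : l = i
  · subst hl
    obtain ⟨k, hk⟩ := τ.surjective (σ l)
    by_cases hkl : k = l
    · rw [← hk, hkl]
    · have := h k hkl
      rw [hk] at this
      exact absurd (σ.injective this) hkl
  · rw [h l hl]

lemma perm_eq_of_off_two {σ τ : Equiv.Perm (Fin N)} {i j : Fin N}
    (h : ∀ l, ¬(l = i ∨ l = j) → σ l = τ l) : τ = σ ∨ τ = σ * Equiv.swap i j := by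
  by_cases hi : σ i = τ i
  · left
    refine (perm_eq_of_off (i := j) fun l hl => ?_).symm
    by_cases hli : l = i
    · rw [hli, hi]
    · exact h l (by tauto)
  · right
    refine perm_eq_of_off (i := j) fun l hl => ?_
    by_cases hli : l = i
    · subst hli
      rw [Equiv.Perm.mul_apply, Equiv.swap_apply_left]
      obtain ⟨k, hk⟩ := σ.surjective (τ l)
      by_cases hkl : k = l
      · exact absurd (hkl ▸ hk) hi
      · by_cases hkj : k = j
        · rw [← hk, hkj]
        · have := h k (by tauto)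
          rw [hk] at this
          exact absurd (τ.injective this).symm hkl
    · rw [Equiv.Perm.mul_apply, Equiv.swap_apply_of_ne_of_ne hli hl, h l (by tauto)]

/-- sign of a permutation as a complex number -/
noncomputable def sg (σ : Equiv.Perm (Fin N)) : ℂ := ((Equiv.Perm.sign σ : ℤ) : ℂ)

lemma sg_mul_self (σ : Equiv.Perm (Fin N)) : sg σ * sg σ = 1 := by
  unfold sg
  rcases Int.units_eq_one_or (Equiv.Perm.sign σ) with h | h <;> simp [h]

lemma sg_mul (σ τ : Equiv.Perm (Fin N)) : sg (σ * τ) = sg σ * sg τ := by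
  unfold sg; simp

lemma sg_swap {i j : Fin N} (hij : i ≠ j) : sg (Equiv.swap i j) = -1 := by
  unfold sg; simp [Equiv.Perm.sign_swap hij]

lemma conj_sg (σ : Equiv.Perm (Fin N)) : (starRingEnd ℂ) (sg σ) = sg σ := by
  unfold sg; simp

lemma comb_zero : ∑ σ : Equiv.Perm (Fin N), ∑ τ : Equiv.Perm (Fin N),
    sg σ * sg τ * ∏ l, (if σ l = τ l then (1 : ℂ) else 0) = (N.factorial : ℂ) := by
  have : ∀ σ : Equiv.Perm (Fin N), ∑ τ : Equiv.Perm (Fin N),
      sg σ * sg τ * ∏ l, (if σ l = τ l then (1 : ℂ) else 0) = 1 := by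
    intro σ
    rw [Finset.sum_eq_single σ]
    · simp [sg_mul_self]
    · intro τ _ hτ
      have : ∃ l, σ l ≠ τ l := by
        by_contra hc
        push Not at hc
        exact hτ (Equiv.ext hc).symm
      obtain ⟨l, hl⟩ := this
      rw [Finset.prod_eq_zero (Finset.mem_univ l) (if_neg hl), mul_zero]
    · simp
  simp [this, Fintype.card_perm]

lemma comb_one (i : Fin N) (M : Fin N → Fin N → ℂ) :
    ∑ σ : Equiv.Perm (Fin N), ∑ τ : Equiv.Perm (Fin N),
      sg σ * sg τ * ∏ l, (if l = i then M (σ l) (τ l) else if σ l = τ l then (1 : ℂ) else 0)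
      = ∑ σ : Equiv.Perm (Fin N), M (σ i) (σ i) := by
  refine Finset.sum_congr rfl fun σ _ => ?_
  rw [Finset.sum_eq_single σ]
  · simp [sg_mul_self]
  · intro τ _ hτ
    have : ∃ l, l ≠ i ∧ σ l ≠ τ l := by
      by_contra hc
      push Not at hc
      exact hτ (perm_eq_of_off hc).symm
    obtain ⟨l, hl1, hl⟩ := this
    rw [Finset.prod_eq_zero (Finset.mem_univ l) (by rw [if_neg hl1, if_neg hl]), mul_zero]
  · simp

lemma comb_one_sum (M : Fin N → ℂ) :
    ∑ i, ∑ σ : Equiv.Perm (Fin N), M (σ i) = (N.factorial : ℂ) * ∑ p, M p := by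
  rw [Finset.sum_comm]
  simp only [Equiv.sum_comp _ M]
  simp [Fintype.card_perm]

lemma comb_two {i j : Fin N} (hij : i ≠ j) (A : Fin N → Fin N → Fin N → Fin N → ℂ) :
    ∑ σ : Equiv.Perm (Fin N), ∑ τ : Equiv.Perm (Fin N),
      sg σ * sg τ * (A (σ i) (τ i) (σ j) (τ j)
        * ∏ l : {l // ¬(l = i ∨ l = j)}, (if σ l.1 = τ l.1 then (1 : ℂ) else 0))
      = ∑ σ : Equiv.Perm (Fin N), (A (σ i) (σ i) (σ j) (σ j) - A (σ i) (σ j) (σ j) (σ i)) := by
  refine Finset.sum_congr rfl fun σ _ => ?_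
  have hne : σ ≠ σ * Equiv.swap i j := by
    intro h
    have := congrArg (fun π : Equiv.Perm (Fin N) => π i) h
    simp only [Equiv.Perm.mul_apply, Equiv.swap_apply_left] at this
    exact hij (σ.injective this)
  rw [Finset.sum_eq_add σ (σ * Equiv.swap i j) hne]
  · have h1 : ∏ l : {l // ¬(l = i ∨ l = j)},
        (if σ l.1 = (σ * Equiv.swap i j) l.1 then (1 : ℂ) else 0) = 1 := by
      refine Finset.prod_eq_one fun l _ => ?_
      have := not_or.1 l.2
      rw [Equiv.Perm.mul_apply, Equiv.swap_apply_of_ne_of_ne this.1 this.2, if_pos rfl]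
    rw [h1, sg_mul, sg_swap hij, ← mul_assoc, sg_mul_self]
    simp only [Equiv.Perm.mul_apply, Equiv.swap_apply_left, Equiv.swap_apply_right]
    simp [sg_mul_self]
    ring
  · intro τ _ hτ
    have : ∃ l, ¬(l = i ∨ l = j) ∧ σ l ≠ τ l := by
      by_contra hc
      push Not at hc
      rcases perm_eq_of_off_two (σ := σ) (τ := τ) (i := i) (j := j)
        (fun l hl => hc l (not_or.1 hl)) with h | h
      · exact hτ.1 h
      · exact hτ.2 h
    obtain ⟨l, hl1, hl⟩ := this
    rw [Finset.prod_eq_zero (Finset.mem_univ (⟨l, hl1⟩ : {l // ¬(l = i ∨ l = j)})) (if_neg hl),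
      mul_zero, mul_zero]
  · simp
  · simp

lemma comb_two_sum (B : Fin N → Fin N → ℂ) (hs : ∀ p q, B p q = B q p) (hd : ∀ p, B p p = 0) :
    ∑ i, ∑ j with i < j, ∑ σ : Equiv.Perm (Fin N), B (σ i) (σ j)
      = (N.factorial : ℂ) * (1 / 2 * ∑ p, ∑ q, B p q) := by
  have h1 : ∀ C : Fin N → Fin N → ℂ, (∀ p q, C p q = C q p) → (∀ p, C p p = 0) →
      ∑ i, ∑ j with i < j, C i j = 1 / 2 * ∑ p, ∑ q, C p q := by
    intro C hs hd
    have e1 : ∀ i, ∑ j, C i j = ∑ j, (if i < j then C i j else 0)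
        + ∑ j, (if j < i then C j i else 0) := by
      intro i
      rw [← Finset.sum_add_distrib]
      refine Finset.sum_congr rfl fun j _ => ?_
      rcases lt_trichotomy i j with h | h | h
      · rw [if_pos h, if_neg (not_lt.2 h.le), add_zero]
      · subst h; simp [hd]
      · rw [if_neg (not_lt.2 h.le), if_pos h, zero_add, hs]
    simp only [Finset.sum_filter]
    rw [Finset.sum_congr rfl fun i _ => e1 i, Finset.sum_add_distrib,
      Finset.sum_comm (f := fun i j => if j < i then C j i else 0)]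
    ring
  have h2 : ∑ i, ∑ j with i < j, ∑ σ : Equiv.Perm (Fin N), B (σ i) (σ j)
      = ∑ σ : Equiv.Perm (Fin N), ∑ i, ∑ j with i < j, B (σ i) (σ j) := by
    rw [Finset.sum_comm (s := (Finset.univ : Finset (Equiv.Perm (Fin N))))]
    refine Finset.sum_congr rfl fun i _ => ?_
    rw [Finset.sum_comm]
  rw [h2]
  have h3 : ∀ σ : Equiv.Perm (Fin N), ∑ i, ∑ j with i < j, B (σ i) (σ j)
      = 1 / 2 * ∑ p, ∑ q, B p q := by
    intro σ
    rw [h1 (fun i j => B (σ i) (σ j)) (fun p q => hs _ _) (fun p => hd _)]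
    congr 1
    rw [← Equiv.sum_comp σ (fun p => ∑ q, B p q)]
    refine Finset.sum_congr rfl fun i _ => ?_
    exact Equiv.sum_comp σ (fun q => B (σ i) q)
  simp [h3, Fintype.card_perm]

end Pool.Agent.Lib.MP_f7be6d_mp.Unit
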