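import Mathlib

/-! A smooth window whose square periodises to one, and windowed plane waves on the line. -/

open MeasureTheory Set
open scoped ContDiff ComplexConjugate

namespace Pool.Agent.Lib.MP_f7be6d_mp.Unit

/-- smooth step -/
noncomputable abbrev st : ℝ → ℝ := Real.smoothTransition

/-- the window -/
noncomputable def chi (L w t : ℝ) : ℝ :=
  Real.sin (Real.pi / 2 * st (t / w)) * Real.cos (Real.pi / 2 * st ((t - L) / w))

lemma contDiff_st : ContDiff ℝ ∞ st := Real.smoothTransition.contDiff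

lemma contDiff_chi (L w : ℝ) : ContDiff ℝ ∞ (chi L w) := by
  unfold chi
  have h := contDiff_st
  fun_prop

variable {L w : ℝ}

lemma chi_zero_left (hw : 0 < w) {t : ℝ} (ht : t ≤ 0) : chi L w t = 0 := by
  unfold chi
  rw [show st (t / w) = 0 from
    Real.smoothTransition.zero_of_nonpos (div_nonpos_of_nonpos_of_nonneg ht hw.le)]
  simp

lemma chi_zero_right (hw : 0 < w) {t : ℝ} (ht : L + w ≤ t) : chi L w t = 0 := by
  unfold chi
  rw [show st ((t - L) / w) = 1 from
    Real.smoothTransition.one_of_one_le (by rw [le_div_iff₀ hw]; linarith)]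
  simp

lemma chi_one (hw : 0 < w) {t : ℝ} (h1 : w ≤ t) (h2 : t ≤ L) : chi L w t = 1 := by
  unfold chi
  rw [show st (t / w) = 1 from
    Real.smoothTransition.one_of_one_le (by rw [le_div_iff₀ hw]; linarith),
    show st ((t - L) / w) = 0 from Real.smoothTransition.zero_of_nonpos
      (div_nonpos_of_nonpos_of_nonneg (by linarith) hw.le)]
  simp

lemma chi_sq_le (L w t : ℝ) : chi L w t ^ 2 ≤ 1 := by
  unfold chi
  rw [mul_pow]
  exact mul_le_one₀ (Real.sin_sq_le_one _) (sq_nonneg _) (Real.cos_sq_le_one _)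

lemma chi_period (hw : 0 < w) (hwL : w ≤ L) {t : ℝ} (h1 : 0 ≤ t) (h2 : t ≤ L) :
    chi L w t ^ 2 + chi L w (t + L) ^ 2 = 1 := by
  unfold chi
  rw [show st ((t + L) / w) = 1 from
    Real.smoothTransition.one_of_one_le (by rw [le_div_iff₀ hw]; linarith),
    show st ((t - L) / w) = 0 from Real.smoothTransition.zero_of_nonpos
      (div_nonpos_of_nonpos_of_nonneg (by linarith) hw.le), add_sub_cancel_right]
  simp

lemma compact_chi (hw : 0 < w) : HasCompactSupport (chi L w) :=
  HasCompactSupport.intro (isCompact_Icc (a := 0) (b := L + w)) fun t ht => by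
    rw [mem_Icc, not_and_or, not_le, not_le] at ht
    rcases ht with h | h
    · exact chi_zero_left hw h.le
    · exact chi_zero_right hw h.le

lemma integrable_dst : Integrable (fun t => deriv st t ^ 2) := by
  have hc : Continuous (deriv st) := contDiff_st.continuous_deriv (by simp)
  refine (hc.pow 2).integrable_of_hasCompactSupport ?_
  refine HasCompactSupport.intro (isCompact_Icc (a := 0) (b := 1)) fun t ht => ?_
  rw [mem_Icc, not_and_or, not_le, not_le] at ht
  have : deriv st t = 0 := by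
    rcases ht with h | h
    · have : st =ᶠ[nhds t] fun _ => 0 := by
        filter_upwards [Iio_mem_nhds h] with y hy
        exact Real.smoothTransition.zero_of_nonpos (le_of_lt hy)
      rw [this.deriv_eq, deriv_const]
    · have : st =ᶠ[nhds t] fun _ => 1 := by
        filter_upwards [Ioi_mem_nhds h] with y hy
        exact Real.smoothTransition.one_of_one_le (le_of_lt hy)
      rw [this.deriv_eq, deriv_const]
  simp [this]

/-- universal constant for the kinetic cost of the window -/
noncomputable def Cw : ℝ := Real.pi ^ 2 * ∫ t, deriv st t ^ 2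

lemma Cw_nonneg : 0 ≤ Cw := mul_nonneg (sq_nonneg _) (integral_nonneg fun _ => sq_nonneg _)

lemma integrable_sq_of {f : ℝ → ℝ} (hf : Continuous f) (hs : HasCompactSupport f) :
    Integrable (fun t => f t ^ 2) :=
  Continuous.integrable_of_hasCompactSupport (by fun_prop)
    (hs.comp_left (g := fun y : ℝ => y ^ 2) (by simp))

lemma integrable_dchi (hw : 0 < w) : Integrable (fun t => deriv (chi L w) t ^ 2) :=
  integrable_sq_of ((contDiff_chi L w).continuous_deriv (by simp)) (compact_chi hw).deriv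

lemma integral_dchi (hw : 0 < w) : ∫ t, deriv (chi L w) t ^ 2 ≤ Cw / w := by
  have hd : ∀ y, HasDerivAt st (deriv st y) y := fun y =>
    (contDiff_st.differentiable (by simp) y).hasDerivAt
  have hpt : ∀ t, deriv (chi L w) t ^ 2
      ≤ Real.pi ^ 2 / (2 * w ^ 2) * (deriv st (t / w) ^ 2 + deriv st ((t - L) / w) ^ 2) := by
    intro t
    have h1 : HasDerivAt (fun t => st (t / w)) (deriv st (t / w) * (1 / w)) t :=
      HasDerivAt.comp (h := fun t => t / w) t (hd (t / w)) ((hasDerivAt_id t).div_const w)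
    have h2 : HasDerivAt (fun t => st ((t - L) / w)) (deriv st ((t - L) / w) * (1 / w)) t :=
      HasDerivAt.comp (h := fun t => (t - L) / w) t (hd ((t - L) / w))
        (((hasDerivAt_id t).sub_const L).div_const w)
    have h3 := ((h1.const_mul (Real.pi / 2)).sin).mul ((h2.const_mul (Real.pi / 2)).cos)
    have h4 : deriv (chi L w) t = _ := h3.deriv
    rw [h4]
    set c1 := Real.cos (Real.pi / 2 * st (t / w))
    set s1 := Real.sin (Real.pi / 2 * st (t / w))
    set c2 := Real.cos (Real.pi / 2 * st ((t - L) / w))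
    set s2 := Real.sin (Real.pi / 2 * st ((t - L) / w))
    set A := Real.pi / 2 * (deriv st (t / w) * (1 / w)) with hA
    set B := Real.pi / 2 * (deriv st ((t - L) / w) * (1 / w)) with hB
    have e : Real.pi ^ 2 / (2 * w ^ 2) * (deriv st (t / w) ^ 2 + deriv st ((t - L) / w) ^ 2)
        = 2 * A ^ 2 + 2 * B ^ 2 := by rw [hA, hB]; field_simp
    have b1 : (c1 * c2) ^ 2 ≤ 1 := by
      rw [mul_pow]
      exact mul_le_one₀ (Real.cos_sq_le_one _) (sq_nonneg _) (Real.cos_sq_le_one _)
    have b2 : (s1 * s2) ^ 2 ≤ 1 := by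
      rw [mul_pow]
      exact mul_le_one₀ (Real.sin_sq_le_one _) (sq_nonneg _) (Real.sin_sq_le_one _)
    have b3 := mul_le_mul_of_nonneg_right b1 (sq_nonneg A)
    have b4 := mul_le_mul_of_nonneg_right b2 (sq_nonneg B)
    rw [e]
    nlinarith [sq_nonneg (c1 * c2 * A + s1 * s2 * B)]
  have i1 : Integrable (fun t => deriv st (t / w) ^ 2) :=
    integrable_dst.comp_div hw.ne'
  have i2 : Integrable (fun t => deriv st ((t - L) / w) ^ 2) := i1.comp_sub_right L
  refine (integral_mono (integrable_dchi hw) ((i1.add i2).const_mul _) hpt).trans (le_of_eq ?_)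
  simp only [Pi.add_apply]
  rw [integral_const_mul, integral_add i1 i2,
    integral_sub_right_eq_self (fun t => deriv st (t / w) ^ 2) L,
    Measure.integral_comp_div (fun t => deriv st t ^ 2) w, abs_of_pos hw, smul_eq_mul, Cw]
  field_simp; ring

/-- plane wave on the line -/
noncomputable def ew (L : ℝ) (k : ℤ) (t : ℝ) : ℂ :=
  Complex.exp (((2 * Real.pi * k / L * t : ℝ) : ℂ) * Complex.I)

lemma norm_ew (L : ℝ) (k : ℤ) (t : ℝ) : ‖ew L k t‖ = 1 := Complex.norm_exp_ofReal_mul_I _

lemma contDiff_ew (L : ℝ) (k : ℤ) : ContDiff ℝ ∞ (ew L k) := by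
  unfold ew
  refine Complex.contDiff_exp.comp (ContDiff.mul ?_ contDiff_const)
  exact Complex.ofRealCLM.contDiff.comp (contDiff_const.mul contDiff_id)

lemma ew_mul_conj (L : ℝ) (k k' : ℤ) (t : ℝ) : ew L k t * conj (ew L k' t) = ew L (k - k') t := by
  unfold ew
  rw [← Complex.exp_conj, ← Complex.exp_add]
  congr 1
  simp only [map_mul, Complex.conj_ofReal, Complex.conj_I]
  push_cast; ring

lemma ew_add (hL : 0 < L) (k : ℤ) (t : ℝ) : ew L k (t + L) = ew L k t := by
  unfold ew
  have hL' : (L : ℂ) ≠ 0 := by exact_mod_cast hL.ne'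
  have e : ((2 * Real.pi * k / L * (t + L) : ℝ) : ℂ) * Complex.I
      = ((2 * Real.pi * k / L * t : ℝ) : ℂ) * Complex.I + k * (2 * Real.pi * Complex.I) := by
    push_cast; field_simp
  rw [e, Complex.exp_add, Complex.exp_int_mul_two_pi_mul_I, mul_one]

lemma integral_ew (hL : 0 < L) (k : ℤ) :
    ∫ t in (0 : ℝ)..L, ew L k t = if k = 0 then (L : ℂ) else 0 := by
  split_ifs with hk
  · simp [ew, hk]
  · have hL' : (L : ℂ) ≠ 0 := by exact_mod_cast hL.ne'
    have hk' : (k : ℂ) ≠ 0 := by exact_mod_cast hk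
    have hpi : (Real.pi : ℂ) ≠ 0 := by exact_mod_cast Real.pi_ne_zero
    have e : ∀ t : ℝ, ew L k t = Complex.exp ((2 * Real.pi * k / L * Complex.I) * t) := by
      intro t; unfold ew; congr 1; push_cast; ring
    simp only [e]
    rw [integral_exp_mul_complex (by simp [hL', hk', hpi])]
    have e2 : 2 * (Real.pi : ℂ) * k / L * Complex.I * L = k * (2 * Real.pi * Complex.I) := by
      field_simp
    rw [e2, Complex.exp_int_mul_two_pi_mul_I]
    simp

lemma integral_chi_ew (hw : 0 < w) (hwL : w ≤ L) (k : ℤ) :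
    ∫ t, ((chi L w t ^ 2 : ℝ) : ℂ) * ew L k t = if k = 0 then (L : ℂ) else 0 := by
  have hL : 0 < L := lt_of_lt_of_le hw hwL
  have hc : Continuous fun t => ((chi L w t ^ 2 : ℝ) : ℂ) * ew L k t :=
    (Complex.continuous_ofReal.comp ((contDiff_chi L w).continuous.pow 2)).mul
      (contDiff_ew L k).continuous
  have hc2 : Continuous fun t => ((chi L w (t + L) ^ 2 : ℝ) : ℂ) * ew L k (t + L) :=
    hc.comp (continuous_id.add continuous_const)
  rw [← intervalIntegral.integral_eq_integral_of_support_subset (a := 0) (b := L + L),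
    ← intervalIntegral.integral_add_adjacent_intervals (b := L) (hc.intervalIntegrable _ _)
      (hc.intervalIntegrable _ _), ← integral_ew hL]
  · have e := intervalIntegral.integral_comp_add_right (a := 0) (b := L)
      (fun t => ((chi L w t ^ 2 : ℝ) : ℂ) * ew L k t) L
    rw [zero_add] at e
    rw [← e, ← intervalIntegral.integral_add (hc.intervalIntegrable _ _)
      (hc2.intervalIntegrable _ _)]
    refine intervalIntegral.integral_congr fun t ht => ?_
    rw [uIcc_of_le hL.le] at ht
    rw [ew_add hL, ← add_mul, ← Complex.ofReal_add, chi_period hw hwL ht.1 ht.2]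
    simp
  · intro t ht
    rw [Function.mem_support] at ht
    by_contra hc
    rw [mem_Ioc, not_and_or, not_lt, not_le] at hc
    apply ht
    rcases hc with h | h
    · rw [chi_zero_left hw h]; simp
    · rw [chi_zero_right hw (by linarith)]; simp

lemma integral_chi_sq (hw : 0 < w) (hwL : w ≤ L) : ∫ t, chi L w t ^ 2 = L := by
  have h := integral_chi_ew hw hwL 0
  simp only [ew, Int.cast_zero, mul_zero, zero_div, zero_mul, Complex.ofReal_zero,
    Complex.exp_zero, mul_one, if_true] at h
  rw [integral_complex_ofReal] at h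
  exact_mod_cast h

/-- normalised windowed plane wave -/
noncomputable def eta (L w : ℝ) (k : ℤ) (t : ℝ) : ℂ :=
  (((√L)⁻¹ * chi L w t : ℝ) : ℂ) * ew L k t

lemma contDiff_eta (L w : ℝ) (k : ℤ) : ContDiff ℝ ∞ (eta L w k) :=
  (Complex.ofRealCLM.contDiff.comp (contDiff_const.mul (contDiff_chi L w))).mul (contDiff_ew L k)

lemma norm_eta_sq (hL : 0 < L) (w : ℝ) (k : ℤ) (t : ℝ) :
    ‖eta L w k t‖ ^ 2 = chi L w t ^ 2 / L := by
  unfold eta
  rw [norm_mul, norm_ew, mul_one, Complex.norm_real, Real.norm_eq_abs, sq_abs, mul_pow, inv_pow,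
    Real.sq_sqrt hL.le]
  ring

lemma integral_eta_sq (hw : 0 < w) (hwL : w ≤ L) (k : ℤ) : ∫ t, ‖eta L w k t‖ ^ 2 = 1 := by
  have hL : 0 < L := lt_of_lt_of_le hw hwL
  simp only [norm_eta_sq hL]
  rw [integral_div, integral_chi_sq hw hwL, div_self hL.ne']

lemma eta_orth (hw : 0 < w) (hwL : w ≤ L) (k k' : ℤ) :
    ∫ t, eta L w k t * conj (eta L w k' t) = if k = k' then 1 else 0 := by
  have hL : 0 < L := lt_of_lt_of_le hw hwL
  have hL' : (L : ℂ) ≠ 0 := by exact_mod_cast hL.ne'
  have e : ∀ t, eta L w k t * conj (eta L w k' t)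
      = (L : ℂ)⁻¹ * (((chi L w t ^ 2 : ℝ) : ℂ) * ew L (k - k') t) := by
    intro t
    have h : (((√L)⁻¹ * (√L)⁻¹ : ℝ) : ℂ) = (L : ℂ)⁻¹ := by
      rw [← mul_inv, Real.mul_self_sqrt hL.le, Complex.ofReal_inv]
    unfold eta
    rw [← ew_mul_conj, map_mul, Complex.conj_ofReal, ← h]
    push_cast; ring
  simp only [e]
  rw [integral_const_mul, integral_chi_ew hw hwL]
  by_cases h : k = k'
  · simp [h, hL']
  · simp [h, sub_ne_zero.2 h]

lemma norm_deriv_eta_sq (hL : 0 < L) (w : ℝ) (k : ℤ) (t : ℝ) :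
    ‖deriv (eta L w k) t‖ ^ 2
      = (deriv (chi L w) t ^ 2 + (2 * Real.pi * k / L) ^ 2 * chi L w t ^ 2) / L := by
  have h1 : HasDerivAt (chi L w) (deriv (chi L w) t) t :=
    ((contDiff_chi L w).differentiable (by simp) t).hasDerivAt
  have h2 : HasDerivAt (ew L k)
      (ew L k t * (((2 * Real.pi * k / L * 1 : ℝ) : ℂ) * Complex.I)) t :=
    ((((hasDerivAt_id t).const_mul (2 * Real.pi * k / L)).ofReal_comp).mul_const Complex.I).cexp
  have h3 := ((h1.const_mul (√L)⁻¹).ofReal_comp).mul h2
  have h4 : deriv (eta L w k) t = _ := h3.deriv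
  have e : deriv (eta L w k) t = (((√L)⁻¹ : ℝ) : ℂ) * ew L k t *
      ((deriv (chi L w) t : ℝ) + ((2 * Real.pi * k / L * chi L w t : ℝ) : ℂ) * Complex.I) := by
    rw [h4]; push_cast; ring
  rw [e, norm_mul, norm_mul, norm_ew, mul_one, mul_pow, Complex.norm_real, Real.norm_eq_abs,
    sq_abs, inv_pow, Real.sq_sqrt hL.le, ← Complex.normSq_eq_norm_sq, Complex.normSq_add_mul_I]
  ring

lemma integral_deriv_eta_sq (hw : 0 < w) (hwL : w ≤ L) (k : ℤ) :
    ∫ t, ‖deriv (eta L w k) t‖ ^ 2 ≤ (2 * Real.pi * k / L) ^ 2 + Cw / (w * L) := by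
  have hL : 0 < L := lt_of_lt_of_le hw hwL
  simp only [norm_deriv_eta_sq hL]
  have i2 : Integrable (fun t => chi L w t ^ 2) :=
    integrable_sq_of (contDiff_chi L w).continuous (compact_chi hw)
  rw [integral_div, integral_add (integrable_dchi hw) (i2.const_mul _), integral_const_mul,
    integral_chi_sq hw hwL, div_le_iff₀ hL]
  have := integral_dchi (L := L) hw
  have e : Cw / (w * L) * L = Cw / w := by field_simp
  linarith

end Pool.Agent.Lib.MP_f7be6d_mp.Unit
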